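import Pool.Agent.H132Z.HT.Fourier

/-! Approximation of the averaged correlations by finitely many frequencies. -/

set_option autoImplicit false

namespace Pool.Agent.H132Z.HT

open Filter Set Topology Finset
open scoped ComplexConjugate

theorem continuous_rho {X : Type} [TopologicalSpace X] {R : X → B} {ω : X → ℂ}
    (hR : Continuous R) (hω : Continuous ω) (k : ℕ) : Continuous fun x => rho (R x) k (ω x) := by
  unfold rho hat
  refine continuous_finset_sum _ fun u _ => Continuous.mul ?_ (hω.pow _)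
  exact (continuous_of_discreteTopology
    (f := fun b : ℕ => ((if b = 1 then 1 else 0) / k : ℂ))).comp ((continuous_apply u).comp hR)

theorem rho_congr {R R' : B} {k : ℕ} (h : Agr k R R') (ω : ℂ) : rho R k ω = rho R' k ω := by
  unfold rho hat
  exact sum_congr rfl fun u hu => by simp only [h u (Finset.mem_range.1 hu)]

theorem norm_rho_le (R : B) (k : ℕ) {ω : ℂ} (h : ‖ω‖ = 1) : ‖rho R k ω‖ ≤ 1 := by
  unfold rho hat
  refine (norm_sum_le _ _).trans (le_trans ?_ (avg_le_one k (fun _ => 1) fun _ => le_rfl))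
  rw [sum_div]
  refine sum_le_sum fun u _ => ?_
  rw [norm_mul, norm_pow, h, one_pow, mul_one, norm_div, Complex.norm_natCast]
  split_ifs
  · simp
  · simp

/-- Points at distance at least `κ` from all points of `Q`. -/
def Far (Q : Finset ℂ) (κ : ℝ) : Set ℂ := {ω | ∀ q ∈ Q, κ ≤ ‖ω - q‖}

theorem far_anti (Q : Finset ℂ) {a b : ℝ} (h : a ≤ b) : Far Q b ⊆ Far Q a :=
  fun _ hω q hq => h.trans (hω q hq)

theorem ann {m : Set ℂ → ℝ} {L : ℝ} (hL : ∀ S, m S ≤ L)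
    (hadd : ∀ S T, Disjoint S T → m S + m T ≤ m (S ∪ T)) (hmono : ∀ S T, S ⊆ T → m S ≤ m T)
    (Q : Finset ℂ) {ε : ℝ} (hε : 0 < ε) :
    ∃ r0 > 0, ∀ κ > 0, ∀ r ≤ r0, m (Far Q κ \ Far Q r) ≤ ε := by
  have hb : BddAbove ((fun κ => m (Far Q κ)) '' Ioi 0) := ⟨L, by rintro _ ⟨κ, -, rfl⟩; exact hL _⟩
  obtain ⟨_, ⟨r0, h0, rfl⟩, h1⟩ := exists_lt_of_lt_csSup
    (s := (fun κ => m (Far Q κ)) '' Ioi 0) ⟨_, 1, by norm_num, rfl⟩
    (show sSup ((fun κ => m (Far Q κ)) '' Ioi 0) - ε < _ by linarith)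
  refine ⟨r0, h0, fun κ hκ r hr => ?_⟩
  have h2 := hadd (Far Q κ \ Far Q r0) (Far Q r0) disjoint_sdiff_left
  have h3 := hmono (Far Q κ \ Far Q r0 ∪ Far Q r0) (Far Q (min κ r0))
    (union_subset (diff_subset.trans (far_anti Q (min_le_left _ _)))
      (far_anti Q (min_le_right _ _)))
  have h4 := le_csSup hb ⟨min κ r0, lt_min hκ h0, rfl⟩
  have h5 := hmono (Far Q κ \ Far Q r) (Far Q κ \ Far Q r0)
    (diff_subset_diff_right (far_anti Q hr))
  simp only at h1 h4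
  linarith

theorem sum_m_le {m : Set ℂ → ℝ} (h0 : ∀ S, 0 ≤ m S)
    (hadd : ∀ S T, Disjoint S T → m S + m T ≤ m (S ∪ T)) (Z : ℕ → Set ℂ) (J : Finset ℕ)
    (hJ : ∀ a ∈ J, ∀ b ∈ J, a ≠ b → Disjoint (Z a) (Z b)) :
    ∑ k ∈ J, m (Z k) ≤ m (⋃ k ∈ J, Z k) := by
  classical
  induction J using Finset.induction_on with
  | empty => simpa using h0 _
  | insert a J ha ih =>
    rw [sum_insert ha, Finset.set_biUnion_insert]
    have h1 := ih fun x hx y hy => hJ x (mem_insert_of_mem hx) y (mem_insert_of_mem hy)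
    have h2 := hadd (Z a) (⋃ k ∈ J, Z k) (by
      simp only [disjoint_iUnion_right]
      exact fun k hk => hJ a (mem_insert_self _ _) k (mem_insert_of_mem hk)
        (by rintro rfl; exact ha hk))
    linarith

/-- Averages of powers. -/
noncomputable def DD (M : ℕ) (q ω : ℂ) : ℂ := (∑ t ∈ range M, (ω * conj q) ^ t) / M

theorem norm_DD_le_one (M : ℕ) {q ω : ℂ} (hq : ‖q‖ = 1) (hω : ‖ω‖ = 1) : ‖DD M q ω‖ ≤ 1 := by
  unfold DD
  rw [norm_div, Complex.norm_natCast]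
  refine le_trans ?_ (avg_le_one M (fun _ => 1) fun _ => le_rfl)
  gcongr
  refine (norm_sum_le _ _).trans (sum_le_sum fun u _ => ?_)
  simp [hq, hω]

theorem norm_DD_le (M : ℕ) {q ω : ℂ} (hq : ‖q‖ = 1) (hω : ‖ω‖ = 1) {r : ℝ} (hr : 0 < r)
    (h : r / 2 ≤ ‖ω - q‖) : ‖DD M q ω‖ ≤ 4 / r / M := by
  unfold DD
  rw [norm_div, Complex.norm_natCast]
  gcongr
  have := geom_bound (η := ω * conj q) (by simp [hq, hω]) (half_pos hr)
    (by rwa [norm_mul_conj_sub hq]) M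
  calc _ ≤ _ := this
    _ = _ := by field_simp; norm_num

theorem DD_self {M : ℕ} (hM : 0 < M) {q : ℂ} (hq : ‖q‖ = 1) : DD M q q = 1 := by
  have : (M : ℂ) ≠ 0 := by exact_mod_cast hM.ne'
  unfold DD
  rw [Complex.mul_conj, Complex.normSq_eq_norm_sq, hq]
  simp [this]

/-- The coefficient of the frequency `q`. -/
noncomputable def AA (M : ℕ) (c : ℕ → ℝ) (q : ℂ) : ℂ := ∑ t ∈ range M, conj q ^ t / M * (c t : ℂ)

theorem norm_AA_le (M : ℕ) {c : ℕ → ℝ} (h0 : ∀ u, 0 ≤ c u) (h1 : ∀ u, c u ≤ 1) {q : ℂ}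
    (hq : ‖q‖ = 1) : ‖AA M c q‖ ≤ 1 := by
  refine (norm_sum_le _ _).trans (le_trans ?_ (avg_le_one M (fun _ => 1) fun _ => le_rfl))
  rw [sum_div]
  refine sum_le_sum fun u _ => ?_
  rw [norm_mul, norm_div, norm_pow, Complex.norm_conj, hq, one_pow, Complex.norm_natCast,
    Complex.norm_real, Real.norm_of_nonneg (h0 u)]
  exact mul_le_of_le_one_right (by positivity) (h1 u)

theorem approx {m : Set ℂ → ℝ} {L : ℝ} {c : ℕ → ℝ} (hsub : ∀ S T, m (S ∪ T) ≤ m S + m T)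
    (H : ∀ (n : ℕ) (a : ℕ → ℂ) (S : Set ℂ) (α β : ℝ), 0 ≤ α →
      (∀ ω, ‖ω‖ = 1 → ω ∉ S → ‖hat a n ω‖ ≤ α) → (∀ ω, ‖ω‖ = 1 → ‖hat a n ω‖ ≤ β) →
      ‖∑ u ∈ range n, a u * (c u : ℂ)‖ ≤ α * L + β * m S)
    (R : B) (Q : Finset ℂ) (hQ : ∀ q ∈ Q, ‖q‖ = 1) {r η ε1 ε3 : ℝ} (hr : 0 < r) (hη : 0 ≤ η)
    (hε3 : 0 < ε3) (hsep : ∀ p ∈ Q, ∀ q ∈ Q, p ≠ q → r ≤ ‖p - q‖) {U : Set ℂ}
    (hU1 : ∀ ω ∉ U, ω ∈ Far Q (r / 2)) (hU2 : ∀ ω ∈ U, ω ∉ Far Q (2 * r))
    (hann : ∀ κ > 0, m (Far Q κ \ Far Q (2 * r)) ≤ ε1) {M k : ℕ} (hM : 0 < M) (hk : M ≤ k) :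
    ‖(((∑ u ∈ range k, if R u = 1 then c u else 0) / k : ℝ) : ℂ) -
      ∑ q ∈ Q, rho R k q * AA M c q‖ ≤ (η + Q.card * (4 / r / M) + 2 * ε3) * L +
      (1 + Q.card) * (m {ω | ‖ω‖ = 1 ∧ ω ∉ U ∧ η ≤ ‖rho R k ω‖} + ε1) := by
  classical
  let a : ℕ → ℂ := fun u => (if R u = 1 then 1 else 0) / k -
    ∑ q ∈ Q, rho R k q * if u < M then conj q ^ u / M else 0
  have cut : ∀ F : ℕ → ℂ, ∑ u ∈ range k, (if u < M then F u else 0) = ∑ u ∈ range M, F u := by
    intro F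
    rw [← sum_filter]
    congr 1
    ext u
    simp only [Finset.mem_filter, Finset.mem_range]
    omega
  have h1 : ∀ ω, hat a k ω = rho R k ω - ∑ q ∈ Q, rho R k q * DD M q ω := by
    intro ω
    simp only [hat, a, sub_mul, sum_sub_distrib]
    congr 1
    simp only [sum_mul]
    rw [sum_comm]
    refine sum_congr rfl fun q _ => ?_
    simp only [mul_assoc, ite_mul, zero_mul]
    rw [← mul_sum, cut, DD, sum_div]
    congr 1
    exact sum_congr rfl fun t _ => by ring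
  have h2 : ∑ u ∈ range k, a u * (c u : ℂ) =
      (((∑ u ∈ range k, if R u = 1 then c u else 0) / k : ℝ) : ℂ) -
      ∑ q ∈ Q, rho R k q * AA M c q := by
    simp only [a, sub_mul, sum_sub_distrib]
    congr 1
    · push_cast
      rw [sum_div]
      refine sum_congr rfl fun u _ => ?_
      split_ifs
      · ring
      · simp
    · simp only [sum_mul]
      rw [sum_comm]
      refine sum_congr rfl fun q _ => ?_
      simp only [mul_assoc, ite_mul, zero_mul]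
      rw [← mul_sum, cut, AA]
  have h3 : ∀ᶠ κ in 𝓝[>] (0 : ℝ), ∀ q ∈ Q, ∀ ω, ‖ω - q‖ < κ →
      ‖rho R k ω - rho R k q‖ ≤ ε3 ∧ ‖DD M q ω - 1‖ ≤ ε3 := by
    rw [eventually_all_finset]
    intro q hq
    have c1 : Continuous fun ω => rho R k ω := continuous_rho continuous_const continuous_id k
    have c2 : Continuous fun ω => DD M q ω := by unfold DD; fun_prop
    obtain ⟨a1, p1, b1⟩ := Metric.continuousAt_iff.1 (c1.continuousAt (x := q)) ε3 hε3
    obtain ⟨a2, p2, b2⟩ := Metric.continuousAt_iff.1 (c2.continuousAt (x := q)) ε3 hε3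
    filter_upwards [nhdsWithin_le_nhds (ge_mem_nhds p1), nhdsWithin_le_nhds (ge_mem_nhds p2)]
      with κ k1 k2 ω hω
    have e1 := b1 (x := ω) (by rw [dist_eq_norm]; linarith)
    have e2 := b2 (x := ω) (by rw [dist_eq_norm]; linarith)
    rw [dist_eq_norm] at e1 e2
    rw [DD_self hM (hQ q hq)] at e2
    exact ⟨e1.le, e2.le⟩
  obtain ⟨κ, ⟨hκ, hκ0⟩, hκr⟩ := ((h3.and self_mem_nhdsWithin).and
    (nhdsWithin_le_nhds (ge_mem_nhds (half_pos hr)))).exists
  have hκ0' : 0 < κ := hκ0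
  have hD : (0 : ℝ) ≤ 4 / r / M := by positivity
  have bsum : ∀ (s : Finset ℂ) (ω : ℂ) (b : ℝ), s ⊆ Q → 0 ≤ b → (∀ q ∈ s, ‖DD M q ω‖ ≤ b) →
      ‖∑ q ∈ s, rho R k q * DD M q ω‖ ≤ Q.card * b := by
    intro s ω b hs hb h
    calc _ ≤ ∑ _q ∈ s, b := (norm_sum_le _ _).trans (sum_le_sum fun q hq => by
          rw [norm_mul]
          have := norm_rho_le R k (hQ q (hs hq))
          nlinarith [h q hq, norm_nonneg (DD M q ω), norm_nonneg (rho R k q)])
      _ ≤ _ := by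
          rw [sum_const, nsmul_eq_mul]
          gcongr
  have := H k a ({ω | ‖ω‖ = 1 ∧ ω ∉ U ∧ η ≤ ‖rho R k ω‖} ∪ (Far Q κ \ Far Q (2 * r)))
    (η + Q.card * (4 / r / M) + 2 * ε3) (1 + Q.card) (by positivity) ?_ ?_
  · rw [h2] at this
    refine this.trans ?_
    gcongr
    exact (hsub _ _).trans (by gcongr; exact hann κ hκ0')
  · intro ω hω hS
    rw [h1]
    by_cases hU : ω ∈ U
    · have : ω ∉ Far Q κ := fun h => hS (Or.inr ⟨h, hU2 ω hU⟩)
      simp only [Far, mem_ofPred_eq, not_forall, not_le] at this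
      obtain ⟨q, hq, hlt⟩ := this
      obtain ⟨e1, e2⟩ := hκ q hq ω hlt
      rw [← add_sum_erase _ _ hq]
      have e3 := bsum (Q.erase q) ω _ (erase_subset _ _) hD fun p hp => by
        refine norm_DD_le M (hQ p (mem_of_mem_erase hp)) hω hr ?_
        have := hsep q hq p (mem_of_mem_erase hp) (ne_of_mem_erase hp).symm
        have h5 : ‖q - p‖ ≤ ‖ω - p‖ + ‖ω - q‖ := by
          have : q - p = (ω - p) - (ω - q) := by ring
          rw [this]; exact norm_sub_le _ _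
        linarith
      have e4 : ‖rho R k q * (DD M q ω - 1)‖ ≤ ε3 := by
        rw [norm_mul]
        have := norm_rho_le R k (hQ q hq)
        nlinarith [norm_nonneg (DD M q ω - 1), norm_nonneg (rho R k q)]
      have : rho R k ω - (rho R k q * DD M q ω + ∑ p ∈ Q.erase q, rho R k p * DD M p ω) =
          (rho R k ω - rho R k q) - rho R k q * (DD M q ω - 1) -
            ∑ p ∈ Q.erase q, rho R k p * DD M p ω := by ring
      rw [this]
      have e5 := norm_sub_le ((rho R k ω - rho R k q) - rho R k q * (DD M q ω - 1))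
        (∑ p ∈ Q.erase q, rho R k p * DD M p ω)
      have e6 := norm_sub_le (rho R k ω - rho R k q) (rho R k q * (DD M q ω - 1))
      linarith
    · have e1 : ‖rho R k ω‖ < η := not_le.1 fun h => hS (Or.inl ⟨hω, hU, h⟩)
      have e2 := bsum Q ω _ Finset.Subset.rfl hD fun p hp => norm_DD_le M (hQ p hp) hω hr (hU1 ω hU p hp)
      have e3 := norm_sub_le (rho R k ω) (∑ q ∈ Q, rho R k q * DD M q ω)
      linarith
  · intro ω hω
    rw [h1]
    have e2 := bsum Q ω 1 Finset.Subset.rfl zero_le_one fun p hp => norm_DD_le_one M (hQ p hp) hω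
    have e3 := norm_sub_le (rho R k ω) (∑ q ∈ Q, rho R k q * DD M q ω)
    have := norm_rho_le R k hω
    linarith

end Pool.Agent.H132Z.HT
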