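import Pool.Agent.H132Z.HT.Core

/-! Basis theorems: closed classes and classes of positive measure. -/

set_option autoImplicit false

namespace Pool.Agent.H132Z.HT

open Filter Set Topology MeasureTheory

/-- Cantor space. -/
abbrev C : Type := ℕ → Bool

def cb (y : C) : B := fun n => if y n = true then 1 else 0
def bc (w : B) : C := fun n => decide (w n = 1)

@[simp] theorem bc_cb (y : C) : bc (cb y) = y := by
  funext n; cases h : y n <;> simp [bc, cb, h]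

@[simp] theorem cb_eq_one (y : C) (n : ℕ) : cb y n = 1 ↔ y n = true := by
  cases h : y n <;> simp [cb, h]

@[fun_prop] theorem continuous_cb : Continuous cb :=
  continuous_pi fun n => (continuous_of_discreteTopology
    (f := fun b : Bool => if b = true then 1 else 0)).comp (continuous_apply n)

@[fun_prop] theorem continuous_bc : Continuous bc :=
  continuous_pi fun n => (continuous_of_discreteTopology
    (f := fun b : ℕ => decide (b = 1))).comp (continuous_apply n)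

theorem isOpen_all {X Y : Type} [TopologicalSpace X] [TopologicalSpace Y] [CompactSpace Y]
    {P : X → Y → Prop} (h : IsOpen {p : X × Y | P p.1 p.2}) : IsOpen {x | ∀ y, P x y} := by
  have := isClosedMap_fst_of_compactSpace _ h.isClosed_compl
  rw [← isClosed_compl_iff]
  convert this using 1
  ext x
  simp

theorem cover_bound {Y : Type} [TopologicalSpace Y] [CompactSpace Y] {U : ℕ → Set Y}
    (ho : ∀ t, IsOpen (U t)) (hm : Monotone U) (h : ∀ y, ∃ t, y ∈ U t) : ∃ t, ∀ y, y ∈ U t := by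
  obtain ⟨t, ht⟩ := isCompact_univ.elim_directed_cover U ho
    (fun y _ => mem_iUnion.2 (h y)) hm.directed_le
  exact ⟨t, fun y => ht (mem_univ y)⟩

def cls (Ψ : Fn) (z : B) : Set C := {y | ¬ Ψ (pr z (cb y)) 0 0}

theorem isClosed_cls {Ψ : Fn} (h : IsOp Ψ) (z : B) : IsClosed (cls Ψ z) :=
  (h.comp (a := fun y => pr z (cb y)) (by fun_prop) 0 0).isClosed_compl

theorem isOpen_bex {X : Type} [TopologicalSpace X] {P : ℕ → X → Prop} (t : ℕ)
    (h : ∀ v, IsOpen {x | P v x}) : IsOpen {x | ∃ v ≤ t, P v x} := by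
  have : {x | ∃ v ≤ t, P v x} = ⋃ v, ⋃ (_ : v ≤ t), {x | P v x} := by ext; simp
  rw [this]
  exact isOpen_iUnion fun v => isOpen_iUnion fun _ => h v

theorem isOpen_ex {X ι : Type} [TopologicalSpace X] {P : ι → X → Prop}
    (h : ∀ v, IsOpen {x | P v x}) : IsOpen {x | ∃ v, P v x} := by
  have : {x | ∃ v, P v x} = ⋃ v, {x | P v x} := by ext; simp
  rw [this]
  exact isOpen_iUnion h

theorem isOpen_ball {X : Type} [TopologicalSpace X] {P : ℕ → X → Prop} (t : ℕ)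
    (h : ∀ v, IsOpen {x | P v x}) : IsOpen {x | ∀ v ≤ t, P v x} := by
  have : {x | ∀ v ≤ t, P v x} = ⋂ v ∈ Finset.range (t + 1), {x | P v x} := by
    ext; simp
  rw [this]
  exact isOpen_biInter_finset fun v _ => h v

def opQ (Ψ Φ : Fn) : Fn := fun w n t =>
  ∀ y : C, Ψ (pr (fs w) (cb y)) 0 0 ∨ ∃ v ≤ t, Φ (pr (sn w) (cb y)) n v

def opD (n : ℕ) (Ψ Φ : Fn) : Fn := fun w _ _ =>
  Ψ (pr (fs (fs w)) (sn w)) 0 0 ∨ ∃ v, Φ (pr (sn (fs w)) (sn w)) n v

theorem cnt_idx {K : Set Fn} {M : Set B} (hK : K.Countable) (hM : M.Countable) :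
    Countable ({Φ // Φ ∈ K ∧ IsOp Φ} × M × ℕ) := by
  have : Countable {Φ // Φ ∈ K ∧ IsOp Φ} :=
    (hK.mono (fun Φ h => h.1 : {Φ | Φ ∈ K ∧ IsOp Φ} ⊆ K)).to_subtype
  have := hM.to_subtype
  infer_instance

theorem wkl_pres : ∀ᶠ K in club, ∀ f M, Gd K f M → ∀ Ψ ∈ K, IsOp Ψ → ∀ z ∈ M,
    (cls Ψ z).Nonempty → ∃ y ∈ cls Ψ z, Hyp f (ext K M (cb y)) := by
  filter_upwards [club_cnt, club_op2 fun _ : Unit => opQ, club_op2 opD] with
    K hK h1 h2 f M hM Ψ0 hΨ0 oΨ0 z0 hz0 hne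
  have := cnt_idx hK hM.1.cnt
  obtain ⟨s, hs0, hs, hD⟩ := chain
    (P := {p : Fn × B // p.1 ∈ K ∧ IsOp p.1 ∧ p.2 ∈ M ∧ (cls p.1 p.2).Nonempty})
    (ι := {Φ // Φ ∈ K ∧ IsOp Φ} × M × ℕ)
    (fun q p => cls q.1.1 q.1.2 ⊆ cls p.1.1 p.1.2)
    (fun i q => ∀ y ∈ cls q.1.1 q.1.2, Dec f i.1.1 i.2.1.1 i.2.2 (cb y)) (fun _ => subset_rfl)
    (by
      rintro ⟨⟨Φ, hΦ, oΦ⟩, ⟨z, hz⟩, i⟩ ⟨⟨Ψ, w⟩, hΨ, oΨ, hw, hne⟩
      by_cases hc : ∃ n, ∃ y ∈ cls Ψ w, ∀ v, ¬ Φ (pr z (cb y)) n v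
      · obtain ⟨n, y, hy, hy'⟩ := hc
        have e : ∀ y, y ∈ cls (opD n Ψ Φ) (pr w z) ↔
            y ∈ cls Ψ w ∧ ∀ v, ¬ Φ (pr z (cb y)) n v := by
          intro y; simp [cls, opD]
        refine ⟨⟨(opD n Ψ Φ, pr w z), h2 n _ hΨ _ hΦ, fun _ _ => ?_, hM.1.pair _ hw _ hz,
          y, (e y).2 ⟨hy, hy'⟩⟩, fun y hy => ((e y).1 hy).1,
          fun y hy => Or.inl ⟨n, ((e y).1 hy).2⟩⟩
        exact (oΨ.comp (by fun_prop) _ _).union (isOpen_ex fun v => oΦ.comp (by fun_prop) _ _)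
      · push Not at hc
        have oQ : IsOp (opQ Ψ Φ) := fun n t => isOpen_all
          ((oΨ.comp (by fun_prop) _ _).union (isOpen_bex t fun v => oΦ.comp (by fun_prop) _ _))
        have tot : ∀ n, ∃ t, opQ Ψ Φ (pr w z) n t := by
          intro n
          simp only [opQ, fs_pr, sn_pr]
          refine cover_bound (U := fun t => {y | Ψ (pr w (cb y)) 0 0 ∨
            ∃ v ≤ t, Φ (pr z (cb y)) n v}) (fun t => (oΨ.comp (by fun_prop) _ _).union
            (isOpen_bex t fun v => oΦ.comp (by fun_prop) _ _)) ?_ ?_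
          · intro a b hab y hy
            exact hy.imp id fun ⟨v, hv, h⟩ => ⟨v, hv.trans hab, h⟩
          · intro y
            by_cases hy : y ∈ cls Ψ w
            · obtain ⟨v, hv⟩ := hc n y hy
              exact ⟨v, Or.inr ⟨v, le_rfl, hv⟩⟩
            · exact ⟨0, Or.inl (not_not.1 hy)⟩
        obtain ⟨h, hh, H⟩ := hM.1.sel _ (h1 () _ hΨ _ hΦ) oQ _ (hM.1.pair _ hw _ hz) tot
        obtain ⟨n, hn⟩ := hM.2 i h hh
        refine ⟨⟨(Ψ, w), hΨ, oΨ, hw, hne⟩, subset_rfl, fun y hy => Or.inr ?_⟩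
        have := H n y
        simp only [fs_pr, sn_pr] at this
        obtain ⟨v, hv, hv'⟩ := this.resolve_left hy
        exact ⟨n, v, hv', hv.trans_lt hn⟩)
    ⟨(Ψ0, z0), hΨ0, oΨ0, hz0, hne⟩
  obtain ⟨y, hy⟩ := IsCompact.nonempty_iInter_of_sequence_nonempty_isCompact_isClosed
    (fun n => cls (s n).1.1 (s n).1.2) hs (fun n => (s n).2.2.2.2)
    (isClosed_cls (s 0).2.2.1 _).isCompact fun n => isClosed_cls (s n).2.2.1 _
  refine ⟨y, ?_, hyp_ext fun Φ hΦ oΦ z hz i => ?_⟩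
  · have := mem_iInter.1 hy 0
    rwa [hs0] at this
  · obtain ⟨n, hn⟩ := hD (⟨Φ, hΦ, oΦ⟩, ⟨z, hz⟩, i)
    exact hn y (mem_iInter.1 hy n)

/-- Every nonempty closed class with a parameter in `M` has a member in `M`. -/
def WKLc (K : Set Fn) (M : Set B) : Prop :=
  ∀ Ψ ∈ K, IsOp Ψ → ∀ z ∈ M, (cls Ψ z).Nonempty → ∃ y ∈ cls Ψ z, cb y ∈ M

theorem wkl_op {ι : Type} [Countable ι] (P : ι → Fn → B4 → C → Prop)
    (hP : ∀ i Φ, IsOp Φ → IsClosed {p : B4 × C | P i Φ p.1 p.2}) :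
    ∀ᶠ K in club, ∀ M, Idl K M → WKLc K M → ∀ i, ∀ Φ ∈ K, IsOp Φ →
      ∀ a ∈ M, ∀ b ∈ M, ∀ c ∈ M, ∀ d ∈ M,
      (∃ y, P i Φ (a, b, c, d) y) → ∃ y, cb y ∈ M ∧ P i Φ (a, b, c, d) y := by
  filter_upwards [club_op fun i Φ =>
    (fun w _ _ => ¬ P i Φ (un4 (fs w)) (bc (sn w)) : Fn)] with
    K hK M hM hW i Φ hΦ oΦ a ha b hb c hc d hd ⟨y, hy⟩
  obtain ⟨y', h1, h2⟩ := hW _ (hK i Φ hΦ) (fun n v => (hP i Φ oΦ).isOpen_compl.preimage
    (f := fun w => (un4 (fs w), bc (sn w))) (by fun_prop))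
    _ (hM.pair _ ha _ (hM.pair _ hb _ (hM.pair _ hc _ hd))) ⟨y, by simpa [cls] using hy⟩
  exact ⟨y', h2, by simpa [cls] using h1⟩

theorem wkl_fam {ι : Type} [Countable ι] (P : ι → B4 → C → Prop)
    (hP : ∀ i, IsClosed {p : B4 × C | P i p.1 p.2}) :
    ∀ᶠ K in club, ∀ M, Idl K M → WKLc K M → ∀ i, ∀ a ∈ M, ∀ b ∈ M, ∀ c ∈ M, ∀ d ∈ M,
      (∃ y, P i (a, b, c, d) y) → ∃ y, cb y ∈ M ∧ P i (a, b, c, d) y := by
  filter_upwards [wkl_op (fun i _ => P i) fun i _ _ => hP i,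
    club_fam fun _ : Unit => (fun _ _ _ => True : Fn)] with K h1 h2 M hM hW i
  exact h1 M hM hW i _ (h2 ()) fun _ _ => isOpen_univ

/-! ### Measures on Cantor space -/

abbrev PM : Type := ProbabilityMeasure C

/-- The measure of a set as a real number. -/
noncomputable def mr (μ : PM) (S : Set C) : ℝ := (μ : Measure C).real S

theorem continuous_mr {E : Set C} (hE : IsClopen E) : Continuous fun μ : PM => mr μ E := by
  refine continuous_iff_continuousAt.2 fun μ => ?_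
  have := ProbabilityMeasure.tendsto_measure_of_null_frontier_of_tendsto'
    (μ := μ) (μs := id) (L := 𝓝 μ) tendsto_id (E := E) (by simp [hE])
  exact (ENNReal.tendsto_toReal (measure_ne_top _ _)).comp this

theorem exists_dm : ∃ f : C → PM, Continuous f ∧ Function.Surjective f := by
  let := TopologicalSpace.metrizableSpaceMetric PM
  have : Nonempty PM := ⟨⟨Measure.dirac fun _ => true, inferInstance⟩⟩
  exact exists_nat_bool_continuous_surjective_of_compact PM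

/-- Names of probability measures. -/
noncomputable def dm : C → PM := exists_dm.choose

@[fun_prop] theorem continuous_dm : Continuous dm := exists_dm.choose_spec.1

theorem dm_surj : Function.Surjective dm := exists_dm.choose_spec.2

theorem mr_mono (μ : PM) {S T : Set C} (h : S ⊆ T) : mr μ S ≤ mr μ T := measureReal_mono h

theorem mr_union_lt (μ : PM) {U : ℕ → Set C} (hm : Monotone U) {r : ℝ}
    (h : r < mr μ (⋃ t, U t)) : ∃ t, r < mr μ (U t) := by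
  have := (ENNReal.tendsto_toReal (measure_ne_top (μ : Measure C) _)).comp
    (tendsto_measure_iUnion_atTop (μ := (μ : Measure C)) hm)
  exact (this.eventually (lt_mem_nhds h)).exists

theorem mr_inter_lt (μ : PM) {U : ℕ → Set C} (ho : ∀ t, MeasurableSet (U t)) (hm : Antitone U)
    {r : ℝ} (h : mr μ (⋂ t, U t) < r) : ∃ t, mr μ (U t) < r := by
  have := (ENNReal.tendsto_toReal (measure_ne_top (μ : Measure C) _)).comp
    (tendsto_measure_iInter_atTop (μ := (μ : Measure C)) (fun t => (ho t).nullMeasurableSet) hm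
      ⟨0, measure_ne_top _ _⟩)
  exact (this.eventually (gt_mem_nhds h)).exists

theorem clopen_agr {S : Set C} {t : ℕ} (h : ∀ y ∈ S, ∀ y', Agr t y y' → y' ∈ S) : IsClopen S := by
  constructor
  · rw [← isOpen_compl_iff, isOpen_iff_agr]
    exact fun y hy => ⟨t, fun y' hy' h' => hy (h y' h' y hy'.symm)⟩
  · rw [isOpen_iff_agr]
    exact fun y hy => ⟨t, h y hy⟩

theorem isOpen_mr {P : B → C → Prop} (hP : IsOpen {p : B × C | P p.1 p.2}) (r : ℝ) :
    IsOpen {p : B × PM | r < mr p.2 {y | P p.1 y}} := by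
  rw [isOpen_iff_forall_mem_open]
  rintro ⟨z, μ⟩ hz
  let U : ℕ → Set C := fun t => {y | ∀ z' y', Agr t z z' → Agr t y y' → P z' y'}
  have hm : Monotone U := fun a b hab y hy z' y' h1 h2 => hy z' y' (h1.mono hab) (h2.mono hab)
  have hsub : {y | P z y} ⊆ ⋃ t, U t := by
    intro y hy
    obtain ⟨u, v, hu, hv, h1, h2, h3⟩ := isOpen_prod_iff.1 hP z y hy
    obtain ⟨a, ha⟩ := isOpen_iff_agr.1 hu z h1
    obtain ⟨b, hb⟩ := isOpen_iff_agr.1 hv y h2
    exact mem_iUnion.2 ⟨max a b, fun z' y' e1 e2 => h3 (mk_mem_prod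
      (ha z' (e1.mono (le_max_left _ _))) (hb y' (e2.mono (le_max_right _ _))))⟩
  obtain ⟨t, ht⟩ := mr_union_lt μ hm (lt_of_lt_of_le hz (mr_mono μ hsub))
  have hcl : IsClopen (U t) := clopen_agr (t := t) fun y hy y' h z' y'' e1 e2 =>
    hy z' y'' e1 (h.trans e2)
  refine ⟨{p | Agr t z p.1 ∧ r < mr p.2 (U t)}, ?_, ?_, Agr.refl _ _, ht⟩
  · rintro ⟨z', μ'⟩ ⟨h1, h2⟩
    exact lt_of_lt_of_le h2 (mr_mono μ' fun y hy => hy z' y h1 (Agr.refl _ _))
  · exact ((isOpen_agr t z).preimage continuous_fst).inter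
      (isOpen_lt continuous_const ((continuous_mr hcl).comp continuous_snd))

def Sb (Φ : Fn) (z : B) (n t : ℕ) : Set C := {y | ∀ j ≤ n, ∃ v ≤ t, Φ (pr z (cb y)) j v}

theorem rand_null : ∀ᶠ K in club, ∀ f M, Gd K f M → ∀ x, cb x ∈ M → ∀ Φ ∈ K, IsOp Φ →
    ∀ z ∈ M, ∀ i, (dm x : Measure C) {y | ¬ Dec f Φ z i (cb y)} = 0 := by
  have := sel_op (ι := ℚ × ℕ)
    (fun i Φ p n t => (i.1 : ℝ) < mr (dm (bc p.2.1)) (Sb Φ p.1 (max n i.2) t))
    (fun i Φ oΦ n t => by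
      have := isOpen_mr (P := fun z y => ∀ j ≤ max n i.2, ∃ v ≤ t, Φ (pr z (cb y)) j v)
        (isOpen_ball _ fun j => isOpen_bex _ fun v => oΦ.comp (by fun_prop) _ _) (i.1 : ℝ)
      exact this.preimage (f := fun p : B4 => (p.1, dm (bc p.2.1))) (by fun_prop))
  filter_upwards [this] with K hK f M hM x hx Φ hΦ oΦ z hz i
  by_contra hne
  set μ := dm x with hμ
  let T : ℕ → Set C := fun n => {y | ∀ j ≤ n, ∃ v, Φ (pr z (cb y)) j v}
  let E : Set C := {y | ∃ n v, Φ (pr z (cb y)) n v ∧ v < f i n}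
  have oT : ∀ n, IsOpen (T n) := fun n =>
    isOpen_ball _ fun j => isOpen_ex fun v => oΦ.comp (by fun_prop) _ _
  have oE : IsOpen E := isOpen_ex fun n => isOpen_ex fun v =>
    (oΦ.comp (by fun_prop) _ _).inter isOpen_const
  have aT : Antitone T := fun a b hab y hy j hj => hy j (hj.trans hab)
  let N : Set C := (⋂ n, T n) ∩ Eᶜ
  have hN : {y | ¬ Dec f Φ z i (cb y)} = N := by
    ext y
    simp only [Dec, mem_ofPred_eq, not_or, N, mem_inter_iff, mem_iInter, T, E, mem_compl_iff]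
    refine and_congr ⟨fun h n j _ => ?_, fun h ⟨n, hn⟩ => ?_⟩ Iff.rfl
    · by_contra hc
      exact h ⟨j, fun v hv => hc ⟨v, hv⟩⟩
    · obtain ⟨v, hv⟩ := h n n le_rfl
      exact hn v hv
  rw [hN] at hne
  have mN : MeasurableSet N :=
    (MeasurableSet.iInter fun n => (oT n).measurableSet).inter oE.measurableSet.compl
  have hp : 0 < mr μ N := ENNReal.toReal_pos hne (measure_ne_top _ _)
  obtain ⟨r, hr1, hr2⟩ := exists_rat_btwn (show mr μ (⋂ n, T n) - mr μ N / 2 < mr μ (⋂ n, T n) by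
    linarith)
  obtain ⟨n0, hn0⟩ := mr_inter_lt μ (fun n => (oT n).measurableSet) aT
    (show mr μ (⋂ n, T n) < mr μ (⋂ n, T n) + mr μ N / 2 by linarith)
  obtain ⟨h, hh, H⟩ := hK M hM.1 (r, n0) Φ hΦ oΦ z hz _ hx z hz z hz fun n => by
    simp only [bc_cb]
    refine mr_union_lt μ (U := fun t => Sb Φ z (max n n0) t) ?_ (lt_of_lt_of_le hr2 (mr_mono μ ?_))
    · intro a b hab y hy j hj
      obtain ⟨v, hv, hv'⟩ := hy j hj
      exact ⟨v, hv.trans hab, hv'⟩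
    · intro y hy
      have := mem_iInter.1 hy (max n n0)
      choose! v hv using this
      refine mem_iUnion.2 ⟨(Finset.range (max n n0 + 1)).sup v, fun j hj => ⟨v j, ?_, hv j hj⟩⟩
      exact Finset.le_sup (f := v) (Finset.mem_range.2 (Nat.lt_succ_of_le hj))
  obtain ⟨n, hn⟩ := hM.2 i h hh
  have H1 := H n
  simp only [bc_cb] at H1
  have hdis : Disjoint (Sb Φ z (max n n0) (h n)) N := by
    rw [disjoint_left]
    intro y hy hy'
    obtain ⟨v, hv, hv'⟩ := hy n (le_max_left _ _)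
    exact hy'.2 ⟨n, v, hv', hv.trans_lt hn⟩
  have h1 : mr μ (Sb Φ z (max n n0) (h n) ∪ N) = mr μ (Sb Φ z (max n n0) (h n)) + mr μ N :=
    measureReal_union hdis mN
  have h2 : mr μ (Sb Φ z (max n n0) (h n) ∪ N) ≤ mr μ (T n0) := by
    refine mr_mono μ (union_subset (fun y hy j hj => ?_) fun y hy => mem_iInter.1 hy.1 n0)
    obtain ⟨v, -, hv'⟩ := hy j (hj.trans (le_max_right _ _))
    exact ⟨v, hv'⟩
  linarith

theorem rand_pres : ∀ᶠ K in club, ∀ f M, Gd K f M → ∀ x, cb x ∈ M → ∀ S : Set C,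
    (dm x : Measure C) S ≠ 0 → ∃ y ∈ S, Hyp f (ext K M (cb y)) := by
  filter_upwards [rand_null, club_cnt] with K h hK f M hM x hx S hS
  have := cnt_idx hK hM.1.cnt
  have hae : ∀ᵐ y ∂(dm x : Measure C), ∀ i : {Φ // Φ ∈ K ∧ IsOp Φ} × M × ℕ,
      Dec f i.1.1 i.2.1.1 i.2.2 (cb y) :=
    ae_all_iff.2 fun i => h f M hM x hx _ i.1.2.1 i.1.2.2 _ i.2.1.2 _
  obtain ⟨y, hy, hy'⟩ := Measure.exists_mem_of_measure_ne_zero_of_ae hS (ae_restrict_of_ae hae)
  exact ⟨y, hy, hyp_ext fun Φ hΦ oΦ z hz i => hy' (⟨Φ, hΦ, oΦ⟩, ⟨z, hz⟩, i)⟩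

/-- Every good ideal extends to one that has members of closed classes and of the classes
`S i z` of positive measure. -/
theorem saturate {ι : Type} [Countable ι] (S : ι → B → Set C) :
    ∀ᶠ K in club, ∀ f M0, Gd K f M0 → ∃ M, Gd K f M ∧ M0 ⊆ M ∧ WKLc K M ∧
      ∀ i x, cb x ∈ M → ∀ z ∈ M, (dm x : Measure C) (S i z) ≠ 0 → ∃ y ∈ S i z, cb y ∈ M := by
  filter_upwards [wkl_pres, rand_pres, ext_idl, club_cnt,
    fun_fam (fun _ : Unit => fun p => fs p.1) fun _ => by fun_prop] with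
    K h1 h2 h3 hK h4 f M0 h0
  have : Countable {Φ // Φ ∈ K ∧ IsOp Φ} :=
    (hK.mono (fun Φ h => h.1 : {Φ | Φ ∈ K ∧ IsOp Φ} ⊆ K)).to_subtype
  obtain ⟨M, hM, hsub, H⟩ := close (K := K) (f := f) (ι := {Φ // Φ ∈ K ∧ IsOp Φ} ⊕ ι)
    (fun i z x => match i with
      | .inl Ψ => (cls Ψ.1 z).Nonempty → ∃ y ∈ cls Ψ.1 z, x = cb y
      | .inr i => ∀ x0, fs z = cb x0 → (dm x0 : Measure C) (S i (sn z)) ≠ 0 →
          ∃ y ∈ S i (sn z), x = cb y)
    (by
      rintro M hM (⟨Ψ, hΨ, oΨ⟩ | i) z hz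
      · by_cases hc : (cls Ψ z).Nonempty
        · obtain ⟨y, hy, hy'⟩ := h1 f M hM Ψ hΨ oΨ z hz hc
          obtain ⟨a, b, c⟩ := h3 M hM.1 (cb y)
          exact ⟨_, ⟨a, hy'⟩, b, _, c, fun _ => ⟨y, hy, rfl⟩⟩
        · exact ⟨M, hM, subset_rfl, z, hz, fun h => absurd h hc⟩
      · by_cases hc : ∃ x0, fs z = cb x0 ∧ (dm x0 : Measure C) (S i (sn z)) ≠ 0
        · obtain ⟨x0, e, hx0⟩ := hc
          have hm : cb x0 ∈ M := e ▸ h4 M hM.1 () z hz z hz z hz z hz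
          obtain ⟨y, hy, hy'⟩ := h2 f M hM x0 hm _ hx0
          obtain ⟨a, b, c⟩ := h3 M hM.1 (cb y)
          exact ⟨_, ⟨a, hy'⟩, b, _, c, fun _ _ _ => ⟨y, hy, rfl⟩⟩
        · exact ⟨M, hM, subset_rfl, z, hz, fun x0 a b => absurd ⟨x0, a, b⟩ hc⟩) h0
  refine ⟨M, hM, hsub, fun Ψ hΨ oΨ z hz hne => ?_, fun i x hx z hz hne => ?_⟩
  · obtain ⟨x, hx, hx'⟩ := H (.inl ⟨Ψ, hΨ, oΨ⟩) z hz
    obtain ⟨y, hy, rfl⟩ := hx' hne
    exact ⟨y, hy, hx⟩
  · obtain ⟨w, hw, hw'⟩ := H (.inr i) _ (hM.1.pair _ hx _ hz)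
    simp only [fs_pr, sn_pr] at hw'
    obtain ⟨y, hy, rfl⟩ := hw' x rfl hne
    exact ⟨y, hy, hw⟩

end Pool.Agent.H132Z.HT
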