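import Mathlib

/-! Countable classes of continuous functionals, ideals, and preservation of hyperimmunity. -/

set_option autoImplicit false

namespace Pool.Agent.H132Z.HT

open Filter Set Topology

/-- Baire space. -/
abbrev B : Type := ℕ → ℕ

/-- Many-valued functionals. -/
abbrev Fn : Type := B → ℕ → ℕ → Prop

/-- The functional has an open graph. -/
def IsOp (Φ : Fn) : Prop := ∀ n v, IsOpen {z | Φ z n v}

def pr (z w : B) : B := fun n => if n % 2 = 0 then z (n / 2) else w (n / 2)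
def fs (z : B) : B := fun n => z (2 * n)
def sn (z : B) : B := fun n => z (2 * n + 1)

@[simp] theorem fs_pr (z w : B) : fs (pr z w) = z := by
  funext n; simp [fs, pr]

@[simp] theorem sn_pr (z w : B) : sn (pr z w) = w := by
  funext n
  have h1 : (2 * n + 1) % 2 = 1 := by omega
  have h2 : (2 * n + 1) / 2 = n := by omega
  simp [sn, pr, h1, h2]

@[fun_prop] theorem continuous_fs : Continuous fs :=
  continuous_pi fun _ => continuous_apply _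

@[fun_prop] theorem continuous_sn : Continuous sn :=
  continuous_pi fun _ => continuous_apply _

@[fun_prop] theorem continuous_pr {X : Type} [TopologicalSpace X] {a b : X → B}
    (ha : Continuous a) (hb : Continuous b) : Continuous fun x => pr (a x) (b x) := by
  refine continuous_pi fun n => ?_
  unfold pr
  split_ifs
  · exact (continuous_apply _).comp ha
  · exact (continuous_apply _).comp hb

theorem IsOp.comp {Φ : Fn} (h : IsOp Φ) {X : Type} [TopologicalSpace X] {a : X → B}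
    (ha : Continuous a) (n v : ℕ) : IsOpen {x | Φ (a x) n v} :=
  (h n v).preimage ha

/-- Agreement below `t`. -/
def Agr {α : Type} (t : ℕ) (z w : ℕ → α) : Prop := ∀ i < t, w i = z i

theorem Agr.refl {α : Type} (t : ℕ) (z : ℕ → α) : Agr t z z := fun _ _ => rfl

theorem Agr.symm {α : Type} {t : ℕ} {z w : ℕ → α} (h : Agr t z w) : Agr t w z :=
  fun i hi => (h i hi).symm

theorem Agr.trans {α : Type} {t : ℕ} {z w u : ℕ → α} (h : Agr t z w) (h' : Agr t w u) :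
    Agr t z u := fun i hi => (h' i hi).trans (h i hi)

theorem Agr.mono {α : Type} {s t : ℕ} {z w : ℕ → α} (h : Agr t z w) (hs : s ≤ t) : Agr s z w :=
  fun i hi => h i (lt_of_lt_of_le hi hs)

theorem isOpen_agr {α : Type} [TopologicalSpace α] [DiscreteTopology α] (t : ℕ) (z : ℕ → α) :
    IsOpen {w | Agr t z w} := by
  have : {w | Agr t z w} = ⋂ i ∈ Finset.range t, (fun w : ℕ → α => w i) ⁻¹' {z i} := by
    ext w; simp [Agr]
  rw [this]
  exact isOpen_biInter_finset fun i _ => (isOpen_discrete _).preimage (continuous_apply i)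

theorem isOpen_iff_agr {α : Type} [TopologicalSpace α] [DiscreteTopology α] {U : Set (ℕ → α)} :
    IsOpen U ↔ ∀ z ∈ U, ∃ t, ∀ w, Agr t z w → w ∈ U := by
  constructor
  · intro h z hz
    obtain ⟨I, u, hu, hI⟩ := isOpen_pi_iff.1 h z hz
    refine ⟨I.sup id + 1, fun w hw => hI fun i hi => ?_⟩
    have : i < I.sup id + 1 := Nat.lt_succ_of_le (Finset.le_sup (f := id) hi)
    rw [hw i this]
    exact (hu i hi).2
  · intro h
    rw [isOpen_iff_forall_mem_open]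
    intro z hz
    obtain ⟨t, ht⟩ := h z hz
    exact ⟨{w | Agr t z w}, ht, isOpen_agr t z, Agr.refl t z⟩

/-! ### The club filter -/

def Cl (O : Set (Fn → Fn → Fn)) (K : Set Fn) : Prop := ∀ o ∈ O, ∀ a ∈ K, ∀ b ∈ K, o a b ∈ K

/-- Properties that hold for all countable classes closed under countably many operations. -/
def club : Filter (Set Fn) where
  sets := {A | ∃ O : Set (Fn → Fn → Fn), O.Countable ∧
    ∀ K, K.Countable → K.Nonempty → Cl O K → K ∈ A}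
  univ_sets := ⟨∅, countable_empty, fun _ _ _ _ => mem_univ _⟩
  sets_of_superset := fun ⟨O, h1, h2⟩ h => ⟨O, h1, fun K a b c => h (h2 K a b c)⟩
  inter_sets := fun ⟨O, h1, h2⟩ ⟨O', h1', h2'⟩ => ⟨O ∪ O', h1.union h1', fun K a b c =>
    ⟨h2 K a b fun o ho => c o (Or.inl ho), h2' K a b fun o ho => c o (Or.inr ho)⟩⟩

inductive Tr : Type
  | leaf : Tr
  | node : ℕ → Tr → Tr → Tr
  deriving Countable

def Tr.ev (o : ℕ → Fn → Fn → Fn) : Tr → Fn
  | .leaf => fun _ _ _ => True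
  | .node i a b => o i (a.ev o) (b.ev o)

theorem club_exists {p : Set Fn → Prop} (h : ∀ᶠ K in club, p K) : ∃ K, p K := by
  obtain ⟨O, h1, h2⟩ := h
  obtain ⟨o, ho⟩ := countable_iff_exists_subset_range.1 h1
  refine ⟨range (Tr.ev o), h2 _ (countable_range _) ⟨_, Tr.leaf, rfl⟩ ?_⟩
  rintro o' ho' _ ⟨a, rfl⟩ _ ⟨b, rfl⟩
  obtain ⟨i, rfl⟩ := ho ho'
  exact ⟨.node i a b, rfl⟩

theorem club_cnt : ∀ᶠ K in club, K.Countable := ⟨∅, countable_empty, fun _ h _ _ => h⟩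

theorem club_op2 {ι : Type} [Countable ι] (o : ι → Fn → Fn → Fn) :
    ∀ᶠ K in club, ∀ i, ∀ a ∈ K, ∀ b ∈ K, o i a b ∈ K :=
  ⟨range o, countable_range _, fun _ _ _ h i => h _ ⟨i, rfl⟩⟩

theorem club_op {ι : Type} [Countable ι] (o : ι → Fn → Fn) :
    ∀ᶠ K in club, ∀ i, ∀ a ∈ K, o i a ∈ K := by
  filter_upwards [club_op2 fun i a _ => o i a] with K h i a ha using h i a ha a ha

theorem club_fam {ι : Type} [Countable ι] (o : ι → Fn) : ∀ᶠ K in club, ∀ i, o i ∈ K :=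
  ⟨range fun i _ _ => o i, countable_range _, fun _ _ ⟨a, ha⟩ h i => h _ ⟨i, rfl⟩ a ha a ha⟩

/-! ### Ideals -/

/-- `M` is closed under pairing and under selection by the functionals of `K`. -/
structure Idl (K : Set Fn) (M : Set B) : Prop where
  ne : M.Nonempty
  cnt : M.Countable
  pair : ∀ z ∈ M, ∀ w ∈ M, pr z w ∈ M
  sel : ∀ Φ ∈ K, IsOp Φ → ∀ z ∈ M, (∀ n, ∃ v, Φ z n v) → ∃ h ∈ M, ∀ n, Φ z n (h n)

/-- No member of `M` dominates one of the functions `f i`. -/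
def Hyp (f : ℕ → B) (M : Set B) : Prop := ∀ i, ∀ h ∈ M, ∃ n, h n < f i n

/-- The ideal generated by `M` and `x`. -/
def ext (K : Set Fn) (M : Set B) (x : B) : Set B :=
  {h | ∃ Φ ∈ K, IsOp Φ ∧ ∃ z ∈ M, ∀ n v, Φ (pr z x) n v ↔ v = h n}

def Dec (f : ℕ → B) (Φ : Fn) (z : B) (i : ℕ) (x : B) : Prop :=
  (∃ n, ∀ v, ¬ Φ (pr z x) n v) ∨ ∃ n v, Φ (pr z x) n v ∧ v < f i n

theorem hyp_ext {f : ℕ → B} {K : Set Fn} {M : Set B} {x : B}
    (h : ∀ Φ ∈ K, IsOp Φ → ∀ z ∈ M, ∀ i, Dec f Φ z i x) : Hyp f (ext K M x) := by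
  rintro i g ⟨Φ, hΦ, ho, z, hz, hg⟩
  rcases h Φ hΦ ho z hz i with ⟨n, hn⟩ | ⟨n, v, hv, hlt⟩
  · exact absurd ((hg n _).2 rfl) (hn _)
  · exact ⟨n, (hg n v).1 hv ▸ hlt⟩

def opPr (Φ Ψ : Fn) : Fn := fun w n v =>
  if n % 2 = 0 then Φ (pr (fs (fs w)) (sn w)) (n / 2) v else Ψ (pr (sn (fs w)) (sn w)) (n / 2) v

def opComp (Φ Ψ : Fn) : Fn := fun w n v =>
  ∃ (t : ℕ) (s : B), (∀ i < t, Ψ w i (s i)) ∧ ∀ h, Agr t s h → Φ h n v

def cyl (Q : Fn) (w : B) (n c : ℕ) : Prop := ∀ w', Agr c.unpair.1 w w' → Q w' n c.unpair.2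

def opSel (Q : Fn) : Fn := fun w n v =>
  ∃ c, c.unpair.2 = v ∧ cyl Q w n c ∧ ∀ c' < c, ¬ cyl Q w n c'

theorem cyl_congr {Q : Fn} {w w' : B} {n c : ℕ} (h : Agr c.unpair.1 w w') :
    cyl Q w n c ↔ cyl Q w' n c :=
  ⟨fun H u hu => H u (h.trans hu), fun H u hu => H u (h.symm.trans hu)⟩

theorem isOp_sel (Q : Fn) : IsOp (opSel Q) := by
  intro n v
  rw [isOpen_iff_agr]
  rintro z ⟨c, h1, h2, h3⟩
  refine ⟨c, fun w hw => ⟨c, h1, (cyl_congr (hw.mono (Nat.unpair_left_le c))).1 h2, ?_⟩⟩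
  intro c' hc' H
  exact h3 c' hc' ((cyl_congr (hw.mono ((Nat.unpair_left_le c').trans hc'.le))).2 H)

theorem sel_spec {Q : Fn} (hQ : IsOp Q) {w : B} (h : ∀ n, ∃ v, Q w n v) :
    ∃ g : B, (∀ n v, opSel Q w n v ↔ v = g n) ∧ ∀ n, Q w n (g n) := by
  classical
  have h1 : ∀ n, ∃ c, cyl Q w n c := by
    intro n
    obtain ⟨v, hv⟩ := h n
    obtain ⟨t, ht⟩ := isOpen_iff_agr.1 (hQ n v) w hv
    exact ⟨Nat.pair t v, fun w' hw' => by simpa using ht w' (by simpa using hw')⟩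
  refine ⟨fun n => (Nat.find (h1 n)).unpair.2, fun n v => ⟨?_, ?_⟩, fun n => ?_⟩
  · rintro ⟨c, rfl, h2, h3⟩
    have : Nat.find (h1 n) = c := (Nat.find_eq_iff _).2 ⟨h2, h3⟩
    simp only [this]
  · rintro rfl
    exact ⟨_, rfl, Nat.find_spec (h1 n), fun c' hc' => Nat.find_min _ hc'⟩
  · exact Nat.find_spec (h1 n) w (Agr.refl _ _)

theorem isOp_comp {Φ Ψ : Fn} (h : IsOp Ψ) : IsOp (opComp Φ Ψ) := by
  intro n v
  have : {w | opComp Φ Ψ w n v} = ⋃ (t : ℕ) (s : B) (_ : ∀ h, Agr t s h → Φ h n v),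
      ⋂ i ∈ Finset.range t, {w | Ψ w i (s i)} := by
    ext w
    simp only [opComp, mem_ofPred_eq, mem_iUnion, mem_iInter, Finset.mem_range]
    exact ⟨fun ⟨t, s, a, b⟩ => ⟨t, s, b, a⟩, fun ⟨t, s, a, b⟩ => ⟨t, s, b, a⟩⟩
  rw [this]
  exact isOpen_iUnion fun t => isOpen_iUnion fun s => isOpen_iUnion fun _ =>
    isOpen_biInter_finset fun i _ => h i _

theorem isOp_eq {a : B → B} (ha : Continuous a) : IsOp fun w n v => v = a w n := by
  intro n v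
  exact (isOpen_discrete {x | v = x}).preimage ((continuous_apply n).comp ha)

theorem ext_idl' : ∀ᶠ K in club, ∀ M : Set B, M.Nonempty → M.Countable →
    (∀ z ∈ M, ∀ w ∈ M, pr z w ∈ M) → ∀ x,
    Idl K (ext K M x) ∧ M ⊆ ext K M x ∧ x ∈ ext K M x := by
  filter_upwards [club_cnt, club_op2 fun _ : Unit => opPr, club_op2 fun _ : Unit => opComp,
    club_op fun _ : Unit => opSel, club_fam fun _ : Unit => (fun w n v => v = fs w n : Fn),
    club_fam fun _ : Unit => (fun w n v => v = sn w n : Fn)] with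
    K hK h1 h2 h3 h4 h5 M hne hcnt hpair x
  have hsub : M ⊆ ext K M x := fun z hz =>
    ⟨_, h4 (), isOp_eq continuous_fs, z, hz, fun n v => by simp⟩
  refine ⟨⟨hne.mono hsub, ?_, ?_, ?_⟩, hsub, ?_⟩
  · have : ext K M x ⊆ ⋃ Φ ∈ K, ⋃ z ∈ M, {h | ∀ n v, Φ (pr z x) n v ↔ v = h n} := by
      rintro h ⟨Φ, hΦ, -, z, hz, hh⟩
      simp only [mem_iUnion]
      exact ⟨Φ, hΦ, z, hz, hh⟩
    refine Countable.mono this (hK.biUnion fun Φ _ => hcnt.biUnion fun z _ => ?_)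
    refine Set.Subsingleton.countable fun a ha b hb => funext fun n => ?_
    exact (hb n _).1 ((ha n _).2 rfl)
  · rintro a ⟨Φ, hΦ, oΦ, z, hz, ha⟩ b ⟨Ψ, hΨ, oΨ, w, hw, hb⟩
    refine ⟨opPr Φ Ψ, h1 () _ hΦ _ hΨ, fun n v => ?_, pr z w, hpair _ hz _ hw, fun n v => ?_⟩
    · unfold opPr
      split_ifs
      · exact oΦ.comp (by fun_prop) _ _
      · exact oΨ.comp (by fun_prop) _ _
    · simp only [opPr, fs_pr, sn_pr]
      conv_rhs => unfold pr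
      split_ifs
      · exact ha _ _
      · exact hb _ _
  · rintro Φ hΦ oΦ a ⟨Ψ, hΨ, oΨ, z, hz, ha⟩ htot
    have : ∀ n, ∃ v, opComp Φ Ψ (pr z x) n v := by
      intro n
      obtain ⟨v, hv⟩ := htot n
      obtain ⟨t, ht⟩ := isOpen_iff_agr.1 (oΦ n v) a hv
      exact ⟨v, t, a, fun i _ => (ha i _).2 rfl, ht⟩
    obtain ⟨g, hg, hg'⟩ := sel_spec (isOp_comp oΨ) this
    refine ⟨g, ⟨_, h3 () _ (h2 () _ hΦ _ hΨ), isOp_sel _, z, hz, hg⟩, fun n => ?_⟩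
    obtain ⟨t, s, hs, hs'⟩ := hg' n
    exact hs' a fun i hi => ((ha i _).1 (hs i hi)).symm
  · obtain ⟨z, hz⟩ := hne
    exact ⟨_, h5 (), isOp_eq continuous_sn, z, hz, fun n v => by simp⟩

theorem ext_idl : ∀ᶠ K in club, ∀ M, Idl K M → ∀ x,
    Idl K (ext K M x) ∧ M ⊆ ext K M x ∧ x ∈ ext K M x :=
  ext_idl'.mono fun _ h M hM => h M hM.ne hM.cnt hM.pair

/-! ### Selection with four parameters -/

abbrev B4 : Type := B × B × B × B

def un4 (w : B) : B4 := (fs w, fs (sn w), fs (sn (sn w)), sn (sn (sn w)))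

@[fun_prop] theorem continuous_un4 : Continuous un4 := by unfold un4; fun_prop

@[simp] theorem un4_pr (a b c d : B) : un4 (pr a (pr b (pr c d))) = (a, b, c, d) := by
  simp [un4]

theorem sel_op {ι : Type} [Countable ι] (P : ι → Fn → B4 → ℕ → ℕ → Prop)
    (hP : ∀ i Φ, IsOp Φ → ∀ n v, IsOpen {p | P i Φ p n v}) :
    ∀ᶠ K in club, ∀ M, Idl K M → ∀ i, ∀ Φ ∈ K, IsOp Φ → ∀ a ∈ M, ∀ b ∈ M, ∀ c ∈ M, ∀ d ∈ M,
      (∀ n, ∃ v, P i Φ (a, b, c, d) n v) → ∃ h ∈ M, ∀ n, P i Φ (a, b, c, d) n (h n) := by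
  filter_upwards [club_op fun i Φ => (fun w n v => P i Φ (un4 w) n v : Fn)] with
    K hK M hM i Φ hΦ oΦ a ha b hb c hc d hd htot
  have := hM.sel _ (hK i Φ hΦ) (fun n v => (hP i Φ oΦ n v).preimage continuous_un4)
    _ (hM.pair _ ha _ (hM.pair _ hb _ (hM.pair _ hc _ hd))) (by simpa using htot)
  simpa using this

theorem sel_fam {ι : Type} [Countable ι] (P : ι → B4 → ℕ → ℕ → Prop)
    (hP : ∀ i n v, IsOpen {p | P i p n v}) :
    ∀ᶠ K in club, ∀ M, Idl K M → ∀ i, ∀ a ∈ M, ∀ b ∈ M, ∀ c ∈ M, ∀ d ∈ M,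
      (∀ n, ∃ v, P i (a, b, c, d) n v) → ∃ h ∈ M, ∀ n, P i (a, b, c, d) n (h n) := by
  filter_upwards [club_fam fun i => (fun w n v => P i (un4 w) n v : Fn)] with
    K hK M hM i a ha b hb c hc d hd htot
  have := hM.sel _ (hK i) (fun n v => (hP i n v).preimage continuous_un4)
    _ (hM.pair _ ha _ (hM.pair _ hb _ (hM.pair _ hc _ hd))) (by simpa using htot)
  simpa using this

/-- A set between two open conditions. -/
theorem sand_fam {ι : Type} [Countable ι] (P Q : ι → B4 → ℕ → Prop)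
    (hP : ∀ i n, IsOpen {p | P i p n}) (hQ : ∀ i n, IsOpen {p | Q i p n}) :
    ∀ᶠ K in club, ∀ M, Idl K M → ∀ i, ∀ a ∈ M, ∀ b ∈ M, ∀ c ∈ M, ∀ d ∈ M,
      (∀ n, P i (a, b, c, d) n ∨ Q i (a, b, c, d) n) →
      ∃ h ∈ M, ∀ n, (h n = 1 → P i (a, b, c, d) n) ∧ (h n ≠ 1 → Q i (a, b, c, d) n) := by
  have := sel_fam (fun i p n v => (v = 1 ∧ P i p n) ∨ (v = 0 ∧ Q i p n)) (fun i n v =>
    ((isOpen_const).inter (hP i n)).union ((isOpen_const).inter (hQ i n)))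
  filter_upwards [this] with K hK M hM i a ha b hb c hc d hd htot
  obtain ⟨h, hh, H⟩ := hK M hM i a ha b hb c hc d hd fun n =>
    (htot n).elim (fun h => ⟨1, Or.inl ⟨rfl, h⟩⟩) fun h => ⟨0, Or.inr ⟨rfl, h⟩⟩
  refine ⟨h, hh, fun n => ⟨fun e => ?_, fun e => ?_⟩⟩
  · rcases H n with ⟨-, h'⟩ | ⟨h', -⟩
    · exact h'
    · omega
  · rcases H n with ⟨h', -⟩ | ⟨-, h'⟩
    · omega
    · exact h'

theorem set_fam {ι : Type} [Countable ι] (P : ι → B4 → ℕ → Prop)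
    (hP : ∀ i n, IsClopen {p | P i p n}) :
    ∀ᶠ K in club, ∀ M, Idl K M → ∀ i, ∀ a ∈ M, ∀ b ∈ M, ∀ c ∈ M, ∀ d ∈ M,
      ∃ h ∈ M, ∀ n, h n = 1 ↔ P i (a, b, c, d) n := by
  filter_upwards [sand_fam P (fun i p n => ¬ P i p n) (fun i n => (hP i n).2)
    (fun i n => (hP i n).1.isOpen_compl)] with K hK M hM i a ha b hb c hc d hd
  obtain ⟨h, hh, H⟩ := hK M hM i a ha b hb c hc d hd fun n => em _
  exact ⟨h, hh, fun n => ⟨(H n).1, fun hp => by_contra fun e => (H n).2 e hp⟩⟩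

theorem fun_fam {ι : Type} [Countable ι] (F : ι → B4 → B) (hF : ∀ i, Continuous (F i)) :
    ∀ᶠ K in club, ∀ M, Idl K M → ∀ i, ∀ a ∈ M, ∀ b ∈ M, ∀ c ∈ M, ∀ d ∈ M,
      F i (a, b, c, d) ∈ M := by
  filter_upwards [sel_fam (fun i p n v => v = F i p n) (fun i n v =>
    (isOpen_discrete {x | v = x}).preimage ((continuous_apply n).comp (hF i)))] with
    K hK M hM i a ha b hb c hc d hd
  obtain ⟨h, hh, H⟩ := hK M hM i a ha b hb c hc d hd fun n => ⟨_, rfl⟩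
  rwa [← funext H]

/-- A predicate that depends on finitely many values of the four parameters is clopen. -/
theorem clopen_of_loc {P : B4 → Prop}
    (h : ∀ p : B4, ∃ t, ∀ q : B4, Agr t p.1 q.1 → Agr t p.2.1 q.2.1 → Agr t p.2.2.1 q.2.2.1 →
      Agr t p.2.2.2 q.2.2.2 → (P p ↔ P q)) : IsClopen {p | P p} := by
  have key : ∀ (p : B4) (t : ℕ), IsOpen {q : B4 | Agr t p.1 q.1 ∧ Agr t p.2.1 q.2.1 ∧
      Agr t p.2.2.1 q.2.2.1 ∧ Agr t p.2.2.2 q.2.2.2} := fun p t =>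
    ((isOpen_agr t _).preimage (by fun_prop)).inter
      (((isOpen_agr t _).preimage (by fun_prop)).inter
      (((isOpen_agr t _).preimage (by fun_prop)).inter
      ((isOpen_agr t _).preimage (by fun_prop))))
  constructor
  · rw [← isOpen_compl_iff, isOpen_iff_forall_mem_open]
    intro p hp
    obtain ⟨t, ht⟩ := h p
    exact ⟨_, fun q hq hq' => hp ((ht q hq.1 hq.2.1 hq.2.2.1 hq.2.2.2).2 hq'), key p t,
      Agr.refl _ _, Agr.refl _ _, Agr.refl _ _, Agr.refl _ _⟩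
  · rw [isOpen_iff_forall_mem_open]
    intro p hp
    obtain ⟨t, ht⟩ := h p
    exact ⟨_, fun q hq => (ht q hq.1 hq.2.1 hq.2.2.1 hq.2.2.2).1 hp, key p t,
      Agr.refl _ _, Agr.refl _ _, Agr.refl _ _, Agr.refl _ _⟩

/-! ### Generic chains and closure -/

theorem chain {P ι : Type} [Countable ι] (le : P → P → Prop) (D : ι → P → Prop)
    (hrefl : ∀ p, le p p) (hD : ∀ i p, ∃ q, le q p ∧ D i q) (p0 : P) :
    ∃ s : ℕ → P, s 0 = p0 ∧ (∀ n, le (s (n + 1)) (s n)) ∧ ∀ i, ∃ n, D i (s n) := by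
  rcases isEmpty_or_nonempty ι with h | h
  · exact ⟨fun _ => p0, rfl, fun _ => hrefl _, fun i => (h.false i).elim⟩
  obtain ⟨e, he⟩ := exists_surjective_nat ι
  choose nx h1 h2 using hD
  let s : ℕ → P := fun n => Nat.rec p0 (fun n p => nx (e n) p) n
  refine ⟨s, rfl, fun n => h1 _ _, fun i => ?_⟩
  obtain ⟨n, rfl⟩ := he i
  exact ⟨n + 1, h2 _ _⟩

/-- Countable ideals that preserve the hyperimmunity of the `f i`. -/
def Gd (K : Set Fn) (f : ℕ → B) (M : Set B) : Prop := Idl K M ∧ Hyp f M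

theorem gd_union {K : Set Fn} {f : ℕ → B} {s : ℕ → Set B} (h : ∀ n, Gd K f (s n))
    (hm : ∀ n, s n ⊆ s (n + 1)) : Gd K f (⋃ n, s n) := by
  have hmono : Monotone s := monotone_nat_of_le_succ hm
  refine ⟨⟨(h 0).1.ne.mono (subset_iUnion _ 0), countable_iUnion fun n => (h n).1.cnt, ?_, ?_⟩, ?_⟩
  · intro z hz w hw
    obtain ⟨n, hn⟩ := mem_iUnion.1 hz
    obtain ⟨m, hm⟩ := mem_iUnion.1 hw
    exact mem_iUnion.2 ⟨max n m, (h _).1.pair _ (hmono (le_max_left _ _) hn) _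
      (hmono (le_max_right _ _) hm)⟩
  · intro Φ hΦ oΦ z hz ht
    obtain ⟨n, hn⟩ := mem_iUnion.1 hz
    obtain ⟨g, hg, hg'⟩ := (h n).1.sel Φ hΦ oΦ z hn ht
    exact ⟨g, mem_iUnion.2 ⟨n, hg⟩, hg'⟩
  · intro i g hg
    obtain ⟨n, hn⟩ := mem_iUnion.1 hg
    exact (h n).2 i g hn

theorem close {K : Set Fn} {f : ℕ → B} {ι : Type} [Countable ι] (Sol : ι → B → B → Prop)
    (hS : ∀ M, Gd K f M → ∀ i, ∀ z ∈ M, ∃ M', Gd K f M' ∧ M ⊆ M' ∧ ∃ x ∈ M', Sol i z x)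
    {M0 : Set B} (h0 : Gd K f M0) :
    ∃ M, Gd K f M ∧ M0 ⊆ M ∧ ∀ i, ∀ z ∈ M, ∃ x ∈ M, Sol i z x := by
  have step : ∀ M : {M // Gd K f M}, ∃ M' : {M // Gd K f M}, M.1 ⊆ M'.1 ∧
      ∀ i, ∀ z ∈ M.1, ∃ x ∈ M'.1, Sol i z x := by
    rintro ⟨M, hM⟩
    have := hM.1.cnt.to_subtype
    obtain ⟨s, hs0, hs, hD⟩ := chain (P := {N // Gd K f N ∧ M ⊆ N}) (ι := ι × M)
      (fun q p => p.1 ⊆ q.1) (fun i q => ∃ x ∈ q.1, Sol i.1 i.2.1 x) (fun _ => subset_rfl)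
      (fun i p => by
        obtain ⟨M', a, b, c⟩ := hS p.1 p.2.1 i.1 i.2.1 (p.2.2 i.2.2)
        exact ⟨⟨M', a, p.2.2.trans b⟩, b, c⟩) ⟨M, hM, subset_rfl⟩
    refine ⟨⟨⋃ n, (s n).1, gd_union (fun n => (s n).2.1) hs⟩,
      (s 0).2.2.trans (subset_iUnion (fun n => (s n).1) 0), fun i z hz => ?_⟩
    obtain ⟨n, x, hx, hx'⟩ := hD (i, ⟨z, hz⟩)
    exact ⟨x, mem_iUnion.2 ⟨n, hx⟩, hx'⟩
  choose nx h1 h2 using step
  let s : ℕ → {M // Gd K f M} := fun n => Nat.rec ⟨M0, h0⟩ (fun _ p => nx p) n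
  refine ⟨⋃ n, (s n).1, gd_union (fun n => (s n).2) fun n => h1 _,
    subset_iUnion (fun n => (s n).1) 0, fun i z hz => ?_⟩
  obtain ⟨n, hn⟩ := mem_iUnion.1 hz
  obtain ⟨x, hx, hx'⟩ := h2 _ i z hn
  exact ⟨x, mem_iUnion.2 ⟨n + 1, hx⟩, hx'⟩

end Pool.Agent.H132Z.HT
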