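import Mathlib
import Pool.Agent.Helper617.RM.Defs

/-! Hindman's theorem for sums of exactly two elements and Ramsey's theorem for pairs in a
structure for second-order arithmetic. -/

set_option autoImplicit false

namespace Pool.Agent.H132Z.HT

open Pool.Agent.Helper617.RM

universe u

/-- The code `(x + y)² + x` of the pair `(x, y)`. -/
def code (N : L2Structure.{u}) (x y : N.M) : N.M := N.add (N.mul (N.add x y) (N.add x y)) x

/-- `X` is infinite in the sense of second-order arithmetic, that is, unbounded. -/
def Unb (N : L2Structure.{u}) (X : Set N.M) : Prop := ∀ b, ∃ x ∈ X, N.lt b x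

/-- `HT^{=2}_k` in `N`: for every colouring of the numbers with `k` colours that exists in `N`
(every colour class is a set of `N`) there is an infinite set `X` of `N` such that all sums
`x + y` with `x < y` in `X` have the same colour. -/
def HTeq2 (N : L2Structure.{u}) (k : ℕ) : Prop :=
  ∀ c : N.M → Fin k, (∀ i, {x | c x = i} ∈ N.Sets) →
    ∃ X ∈ N.Sets, Unb N X ∧ ∃ i, ∀ x ∈ X, ∀ y ∈ X, N.lt x y → c (N.add x y) = i

/-- The colouring `c` of pairs (used only for arguments `x < y`) exists in `N`: for every colour
the set of codes of the pairs of that colour is a set of `N`. -/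
def PairColIn (N : L2Structure.{u}) {k : ℕ} (c : N.M → N.M → Fin k) : Prop :=
  ∀ i, {p | ∃ x y, N.lt x y ∧ c x y = i ∧ p = code N x y} ∈ N.Sets

/-- `c` has an infinite homogeneous set in `N`. -/
def HasHomog (N : L2Structure.{u}) {k : ℕ} (c : N.M → N.M → Fin k) : Prop :=
  ∃ X ∈ N.Sets, Unb N X ∧ ∃ i, ∀ x ∈ X, ∀ y ∈ X, N.lt x y → c x y = i

/-- `RT²_k` in `N`: every colouring of pairs with `k` colours that exists in `N` has an infinite
homogeneous set in `N`. -/
def RT2 (N : L2Structure.{u}) (k : ℕ) : Prop :=
  ∀ c : N.M → N.M → Fin k, PairColIn N c → HasHomog N c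

/-- `SRT²_k` in `N`: the same for stable colourings. -/
def SRT2 (N : L2Structure.{u}) (k : ℕ) : Prop :=
  ∀ c : N.M → N.M → Fin k, PairColIn N c →
    (∀ x, ∃ i b, ∀ y, N.lt b y → c x y = i) → HasHomog N c

end Pool.Agent.H132Z.HT
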