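import Pool.Agent.H132Z.HT.Meas

/-! Solutions of Hindman's theorem for sums of exactly two elements that preserve
hyperimmunity. -/

set_option autoImplicit false

namespace Pool.Agent.H132Z.HT

open Filter Set Topology Finset MeasureTheory

def chi (F : Finset ℕ) : B := fun n => if n ∈ F then 1 else 0

def Homog (g : B) (d : ℕ) (E : Finset ℕ) : Prop := ∀ x ∈ E, ∀ y ∈ E, x < y → g (x + y) = d

/-- `H` is infinite and all sums of two distinct elements have the same colour. -/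
def SolHT (g H : B) : Prop :=
  (∀ n, ∃ k ≥ n, H k = 1) ∧ ∃ d, ∀ x y, x < y → H x = 1 → H y = 1 → g (x + y) = d

def Wit (d : ℕ) (F : Finset ℕ) (Φ : Fn) (z R g : B) (μ : PM) (n t : ℕ) : Prop :=
  ∃ E : Finset ℕ, (∀ u ∈ E, R u = 1) ∧ Homog g d E ∧ 0 < mr μ (cylE E) ∧
    ∃ v ≤ t, Φ (pr z (chi (F ∪ E))) n v

theorem isOpen_wit {X : Type} [TopologicalSpace X] {z R g : X → B} {μ : X → PM}
    (hz : Continuous z) (hR : Continuous R) (hg : Continuous g) (hμ : Continuous μ) {Φ : Fn}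
    (oΦ : IsOp Φ) (d : ℕ) (F : Finset ℕ) (n t : ℕ) :
    IsOpen {x | Wit d F Φ (z x) (R x) (g x) (μ x) n t} := by
  refine isOpen_ex fun E => IsOpen.inter ?_ (IsOpen.inter ?_ (IsOpen.inter ?_ ?_))
  · have : {x | ∀ u ∈ E, R x u = 1} = ⋂ u ∈ E, {x | R x u = 1} := by ext; simp
    change IsOpen {x | ∀ u ∈ E, R x u = 1}
    rw [this]
    exact isOpen_biInter_finset fun u _ => isOpen_val hR u (· = 1)
  · have : {x | Homog (g x) d E} = ⋂ a ∈ E, ⋂ b ∈ E, {x | a < b → g x (a + b) = d} := by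
      ext; simp [Homog]
    change IsOpen {x | Homog (g x) d E}
    rw [this]
    exact isOpen_biInter_finset fun a _ => isOpen_biInter_finset fun b _ =>
      isOpen_val hg (a + b) fun v => a < b → v = d
  · exact isOpen_lt continuous_const ((continuous_mr (clopen_cylE E)).comp hμ)
  · exact isOpen_bex t fun v => oΦ.comp (by fun_prop) _ _

/-- Forcing conditions. -/
structure Cond (M : Set B) (g : B) (d : ℕ) (R0 K0 : B) where
  F : Finset ℕ
  R : B
  Kk : B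
  val : Valid M R Kk
  sR : ∀ u, R u = 1 → R0 u = 1
  sK : ∀ u, Kk u = 1 → K0 u = 1
  hom : Homog g d F
  lock : ∀ u ∈ F, ∀ s, R s = 1 → u < s ∧ g (u + s) = d

section
variable {M : Set B} {g : B} {d : ℕ} {R0 K0 : B}

def Cond.le (q p : Cond M g d R0 K0) : Prop :=
  p.F ⊆ q.F ∧ (∀ u ∈ q.F, u ∈ p.F ∨ p.R u = 1) ∧ ∀ u, q.R u = 1 → p.R u = 1

theorem Cond.le_refl (p : Cond M g d R0 K0) : p.le p :=
  ⟨Finset.Subset.rfl, fun _ h => Or.inl h, fun _ h => h⟩

theorem Cond.le_trans {p q r : Cond M g d R0 K0} (h : r.le q) (h' : q.le p) : r.le p :=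
  ⟨h'.1.trans h.1, fun u hu => (h.2.1 u hu).elim (h'.2.1 u) fun a => Or.inr (h'.2.2 u a),
    fun u hu => h'.2.2 u (h.2.2 u hu)⟩

def Cond.Cmp (p : Cond M g d R0 K0) (H : B) : Prop :=
  (∀ n, H n = 1 ∨ H n = 0) ∧ (∀ u ∈ p.F, H u = 1) ∧ (∀ u, H u = 1 → u ∈ p.F ∨ p.R u = 1) ∧
    ∀ x y, x < y → H x = 1 → H y = 1 → g (x + y) = d

end

theorem thin : ∀ᶠ K in club, ∀ M, Idl K M → ∀ R ∈ M, ∀ Kk ∈ M, ∀ δ > (0 : ℝ),
    (∀ n, ∃ k ≥ n, Kk k = 1 ∧ δ ≤ dens R k) →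
      ∃ K', Valid M R K' ∧ ∀ k, K' k = 1 → Kk k = 1 := by
  have := set_fam (ι := ℚ) (fun i p k => p.2.1 k = 1 ∧ (i : ℝ) ≤ dens p.1 k)
    (fun i k => clopen_of_loc fun p => ⟨k + 1, fun q h1 h2 _ _ => by
      rw [h2 k (by omega), dens_congr (h1.mono (Nat.le_succ k))]⟩)
  filter_upwards [this] with K hK M hM R hR Kk hKk δ hδ h
  obtain ⟨q, h0, h1⟩ := exists_rat_btwn hδ
  obtain ⟨K', a, b⟩ := hK M hM q R hR Kk hKk R hR R hR
  refine ⟨K', ⟨hR, a, fun n => ?_, q, h0, fun k hk => ((b k).1 hk).2⟩, fun k hk => ((b k).1 hk).1⟩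
  obtain ⟨k, c1, c2, c3⟩ := h n
  exact ⟨k, c1, (b k).2 ⟨c2, h1.le.trans c3⟩⟩

theorem continuous_RE (d : ℕ) (E : Finset ℕ) (t : ℕ) :
    Continuous fun p : B4 => RE p.1 p.2.1 d E t := by
  refine continuous_pi fun s => ?_
  refine (IsLocallyConstant.iff_isOpen_fiber.2 fun v => ?_).continuous
  refine (clopen_of_loc (P := fun p => RE p.1 p.2.1 d E t s = v) fun p =>
    ⟨E.sup id + s + 1, fun q h1 h2 _ _ => ?_⟩).2
  have : RE p.1 p.2.1 d E t s = RE q.1 q.2.1 d E t s := by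
    unfold RE
    refine if_congr (and_congr (by rw [h1 s (by omega)]) (and_congr Iff.rfl
      (forall₂_congr fun u hu => ?_))) rfl rfl
    rw [h2 (u + s) (by have := agr_sup hu; omega)]
  rw [this]

theorem continuous_cap : Continuous fun p : B4 => cap p.1 (bc p.2.1) := by
  refine continuous_pi fun s => ?_
  refine (IsLocallyConstant.iff_isOpen_fiber.2 fun v => ?_).continuous
  refine (clopen_of_loc (P := fun p => cap p.1 (bc p.2.1) s = v) fun p =>
    ⟨s + 1, fun q h1 h2 _ _ => ?_⟩).2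
  simp only [cap, bc, h1 s (Nat.lt_succ_self s), h2 s (Nat.lt_succ_self s)]
  exact Iff.rfl

theorem ext_step : ∀ᶠ K in club, ∀ M, Idl K M → ∀ g ∈ M, ∀ (d : ℕ) (R0 K0 : B)
    (p : Cond M g d R0 K0) (U : Ultrafilter ℕ), (U : Filter ℕ) ≤ atTop →
    (∀ᶠ k in (U : Filter ℕ), p.Kk k = 1) → ∀ E : Finset ℕ, (∀ u ∈ E, p.R u = 1) → Homog g d E →
    (∃ δ > (0 : ℝ), ∀ᶠ k in (U : Filter ℕ), δ ≤ dens (RE p.R g d E 0) k) → ∀ t,
      ∃ q : Cond M g d R0 K0, q.le p ∧ q.F = p.F ∪ E ∧ ∀ s, q.R s = 1 → t ≤ s := by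
  filter_upwards [thin, fun_fam (ι := ℕ × Finset ℕ × ℕ)
    (fun i p => RE p.1 p.2.1 i.1 i.2.1 i.2.2) fun i => continuous_RE ..] with
    K c1 c2 M hM g hg d R0 K0 p U hU hev E hE hh ⟨δ, hδ, hd⟩ t
  set t' := max t (E.sup id + 1) with ht'
  have hR' : RE p.R g d E t' ∈ M := c2 M hM (d, E, t') _ p.val.1 g hg g hg g hg
  have ev : ∀ᶠ k : ℕ in atTop, (t' : ℝ) / k < δ / 2 :=
    (tendsto_const_div_atTop_nhds_zero_nat (t' : ℝ)).eventually (gt_mem_nhds (half_pos hδ))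
  obtain ⟨K', hv, hs⟩ := c1 M hM _ hR' _ p.val.2.1 (δ / 2) (half_pos hδ) fun n => by
    obtain ⟨k, ⟨⟨a, b⟩, c⟩, e⟩ :=
      (((hev.and hd).and (hU ev)).and (hU (eventually_ge_atTop n))).exists
    have := dens_cut p.R g d E t' k
    exact ⟨k, e, a, by linarith⟩
  refine ⟨⟨p.F ∪ E, RE p.R g d E t', K', hv, fun u hu => p.sR u (RE_eq_one.1 hu).1,
    fun u hu => p.sK u (hs u hu), ?_, ?_⟩, ⟨Finset.subset_union_left, fun u hu => ?_,
    fun u hu => (RE_eq_one.1 hu).1⟩, rfl,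
    fun s h => (le_max_left _ _).trans (RE_eq_one.1 h).2.1⟩
  · intro x hx y hy hxy
    rcases Finset.mem_union.1 hx with hx | hx <;> rcases Finset.mem_union.1 hy with hy | hy
    · exact p.hom x hx y hy hxy
    · exact (p.lock x hx y (hE y hy)).2
    · exact absurd (p.lock y hy x (hE x hx)).1 (by omega)
    · exact hh x hx y hy hxy
  · intro u hu s h
    obtain ⟨a, b, c⟩ := RE_eq_one.1 h
    rcases Finset.mem_union.1 hu with hu | hu
    · exact p.lock u hu s a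
    · exact ⟨by have := agr_sup hu; omega, c u hu⟩
  · exact (Finset.mem_union.1 hu).imp id (hE u)

theorem good_mono {M : Set B} {g : B} {d : ℕ} {R Kk R' K' : B} (h : Good M g d R' K')
    (hR : ∀ u, R' u = 1 → R u = 1) (hK : ∀ u, K' u = 1 → Kk u = 1) : Good M g d R Kk := by
  obtain ⟨U, a, b, δ, c, J, hJ, H⟩ := h
  refine ⟨U, a, b.mono hK, δ, c, J, hJ, fun j =>
    ⟨fun k hk => ⟨((H j).1 k hk).1, hK k ((H j).1 k hk).2⟩, ?_⟩⟩
  obtain ⟨k, hk, hk'⟩ := (H j).2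
  refine ⟨k, hk, hk'.trans ?_⟩
  have hc : ∀ u, cl U R' g d u ≤ cl U R g d u := fun u =>
    le_of_tendsto_of_tendsto' (cl_tendsto ..) (cl_tendsto ..) fun k => by
      unfold cf
      gcongr with s _
      by_cases e : R' s = 1 ∧ g (u + s) = d
      · rw [if_pos e, if_pos ⟨hR s e.1, e.2⟩]
      · rw [if_neg e]; split_ifs <;> norm_num
  unfold bk
  gcongr with u _
  by_cases e : R' u = 1
  · rw [if_pos e, if_pos (hR u e)]; exact hc u
  · rw [if_neg e]
    split_ifs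
    · exact cl_nonneg ..
    · rfl

theorem start_cond {M : Set B} {g : B} {l : ℕ} (h : ∀ R Kk, Valid M R Kk → ∃ d < l, Good M g d R Kk)
    {R1 K1 : B} (h1 : Valid M R1 K1) : ∃ d R0 K0, Valid M R0 K0 ∧ ∀ R Kk, Valid M R Kk →
      (∀ u, R u = 1 → R0 u = 1) → (∀ u, Kk u = 1 → K0 u = 1) → Good M g d R Kk := by
  by_contra hc
  push Not at hc
  have : ∀ n, ∃ R Kk, Valid M R Kk ∧ ∀ d < n, ¬ Good M g d R Kk := by
    intro n
    induction n with
    | zero => exact ⟨R1, K1, h1, by simp⟩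
    | succ n ih =>
      obtain ⟨R, Kk, a, b⟩ := ih
      obtain ⟨R', K', a', s1, s2, b'⟩ := hc n R Kk a
      refine ⟨R', K', a', fun d hd hg => ?_⟩
      rcases Nat.lt_succ_iff_lt_or_eq.1 hd with hd | rfl
      · exact b d hd (good_mono hg s1 s2)
      · exact b' hg
  obtain ⟨R, Kk, a, b⟩ := this l
  obtain ⟨d, hd, hg⟩ := h R Kk a
  exact b d hd hg

theorem agr_pr {t : ℕ} (z : B) {a b : B} (h : Agr t a b) : Agr t (pr z a) (pr z b) := by
  intro i hi
  unfold pr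
  split_ifs
  · rfl
  · exact h _ (by omega)

/-- The event of positive density with its parameters read from one point. -/
def EvZ (δ : ℚ) (z : B) : Set C := Ev δ (fs z) (fs (sn z)) (dm (bc (sn (sn z))))

theorem decide_step : ∀ᶠ K in club, ∀ f M, Gd K f M → WKLc K M →
    (∀ i x, cb x ∈ M → ∀ z ∈ M, (dm x : Measure C) (EvZ i z) ≠ 0 → ∃ y ∈ EvZ i z, cb y ∈ M) →
    ∀ g ∈ M, ∀ (d : ℕ) (R0 K0 : B) (p : Cond M g d R0 K0), Good M g d p.R p.Kk →
    ∀ Φ ∈ K, IsOp Φ → ∀ z ∈ M, ∀ i,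
      ∃ q : Cond M g d R0 K0, q.le p ∧ ∀ H, q.Cmp H → Dec f Φ z i H := by
  have c1 := sel_op (ι := ℕ × Finset ℕ × ℚ)
    (fun i Φ p n t => ∀ x : C, ¬ Adm i.2.2 p.2.1 p.2.2.2 (dm x) ∨
      Wit i.1 i.2.1 Φ p.1 p.2.1 p.2.2.1 (dm x) n t)
    (fun i Φ oΦ n t => isOpen_all ((isClosed_adm (by fun_prop) (by fun_prop) (by fun_prop)
      _).isOpen_compl.union
      (isOpen_wit (by fun_prop) (by fun_prop) (by fun_prop) (by fun_prop) oΦ _ _ _ _)))
  have c2 := wkl_op (ι := ℕ × Finset ℕ × ℚ × ℕ)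
    (fun i Φ p x => Adm i.2.2.1 p.2.1 p.2.2.2 (dm x) ∧
      ¬ ∃ t, Wit i.1 i.2.1 Φ p.1 p.2.1 p.2.2.1 (dm x) i.2.2.2 t)
    (fun i Φ oΦ => (isClosed_adm (by fun_prop) (by fun_prop) (by fun_prop) _).inter
      (isOpen_ex fun t => isOpen_wit (by fun_prop) (by fun_prop) (by fun_prop) (by fun_prop)
        oΦ _ _ _ _).isClosed_compl)
  filter_upwards [c1, c2, thin, ext_step, fun_fam (ι := Unit)
    (fun _ p => cap p.1 (bc p.2.1)) fun _ => continuous_cap] with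
    K c1 c2 c3 c4 c5 f M hM hW hRa g hg d R0 K0 p ⟨U, hU, hev, δ, hδ, J, hJ, HJ⟩ Φ hΦ oΦ z hz i
  have hR := p.val.1
  have hK := p.val.2.1
  by_cases hc : ∃ n x, Adm δ p.R J (dm x) ∧ ¬ ∃ t, Wit d p.F Φ z p.R g (dm x) n t
  · obtain ⟨n, hn⟩ := hc
    obtain ⟨x, hx, ha, hw⟩ := c2 M hM.1 hW (d, p.F, δ, n) Φ hΦ oΦ z hz _ hR g hg J hJ hn
    obtain ⟨y, hy, hyM⟩ := hRa δ x hx _ (hM.1.pair _ hR _ (hM.1.pair _ hK _ hx)) (by
      simp only [EvZ, fs_pr, sn_pr, bc_cb]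
      refine ev_pos hδ fun j => ?_
      obtain ⟨k, hk, hk'⟩ := ha j
      exact ⟨k, ((HJ j).1 k hk).1, ((HJ j).1 k hk).2, hk'⟩)
    simp only [EvZ, fs_pr, sn_pr, bc_cb] at hy
    have hR' : cap p.R y ∈ M := by simpa using c5 M hM.1 () _ hR _ hyM _ hR _ hR
    obtain ⟨K', hv, hs⟩ := c3 M hM.1 _ hR' _ hK ((δ : ℝ) / 2)
      (half_pos (by exact_mod_cast hδ)) hy.2
    refine ⟨⟨p.F, cap p.R y, K', hv, fun u hu => p.sR u (cap_eq_one.1 hu).1,
      fun u hu => p.sK u (hs u hu), p.hom, fun u hu s h => p.lock u hu s (cap_eq_one.1 h).1⟩,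
      ⟨Finset.Subset.rfl, fun u hu => Or.inl hu, fun u hu => (cap_eq_one.1 hu).1⟩,
      fun H ⟨h1, h2, h3, h4⟩ => Or.inl ⟨n, fun v hv => hw ?_⟩⟩
    obtain ⟨t, ht⟩ := isOpen_iff_agr.1 (oΦ n v) _ hv
    let E := (range t).filter fun u => H u = 1 ∧ u ∉ p.F
    have hE : ∀ u ∈ E, H u = 1 ∧ cap p.R y u = 1 := fun u hu =>
      ⟨(mem_filter.1 hu).2.1, (h3 u (mem_filter.1 hu).2.1).resolve_left (mem_filter.1 hu).2.2⟩
    refine ⟨v, E, fun u hu => (cap_eq_one.1 (hE u hu).2).1,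
      fun a ha b hb hab => h4 a b hab (hE a ha).1 (hE b hb).1,
      hy.1 E fun u hu => (cap_eq_one.1 (hE u hu).2).2, v, le_rfl, ht _ (agr_pr z fun u hu => ?_)⟩
    unfold chi
    split_ifs with h
    · rcases Finset.mem_union.1 h with h | h
      · exact (h2 u h).symm
      · exact (hE u h).1.symm
    · rcases h1 u with e | e
      · refine absurd (Finset.mem_union.2 ?_) h
        by_cases a : u ∈ p.F
        · exact Or.inl a
        · exact Or.inr (mem_filter.2 ⟨Finset.mem_range.2 hu, e, a⟩)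
      · exact e.symm
  · push Not at hc
    obtain ⟨h, hh, Hh⟩ := c1 M hM.1 (d, p.F, δ) Φ hΦ oΦ z hz _ hR g hg J hJ fun n => by
      refine cover_bound (U := fun t => {x | ¬ Adm δ p.R J (dm x) ∨
        Wit d p.F Φ z p.R g (dm x) n t}) (fun t => (isClosed_adm (R := fun _ => p.R)
          (J := fun _ => J) continuous_const continuous_const continuous_dm _).isOpen_compl.union
          (isOpen_wit (z := fun _ => z) (R := fun _ => p.R) (g := fun _ => g) continuous_const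
            continuous_const continuous_const continuous_dm oΦ _ _ _ _)) ?_ fun x => ?_
      · intro a b hab x hx
        exact hx.imp id fun ⟨E, e1, e2, e3, v, hv, e4⟩ => ⟨E, e1, e2, e3, v, hv.trans hab, e4⟩
      · by_cases a : Adm δ p.R J (dm x)
        · obtain ⟨t, ht⟩ := hc n x a
          exact ⟨t, Or.inr ht⟩
        · exact ⟨0, Or.inl a⟩
    obtain ⟨n, hn⟩ := hM.2 i h hh
    obtain ⟨P, hP1, hP2⟩ := true_meas U hU p.R g d
    obtain ⟨x, rfl⟩ := dm_surj P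
    have ha : Adm δ p.R J (dm x) := fun j => by
      obtain ⟨k, hk, hk'⟩ := (HJ j).2
      exact ⟨k, hk, by simpa only [ed, hP1, bk] using hk'⟩
    obtain ⟨E, e1, e2, e3, v, hv, e4⟩ := (Hh n x).resolve_left (not_not.2 ha)
    obtain ⟨t, ht⟩ := isOpen_iff_agr.1 (oΦ n v) _ e4
    have hpos : ∃ δ > (0 : ℝ), ∀ᶠ k in (U : Filter ℕ), δ ≤ dens (RE p.R g d E 0) k := by
      rcases E.eq_empty_or_nonempty with rfl | hE
      · obtain ⟨δ', a, b⟩ := p.val.2.2.2
        refine ⟨δ', a, hev.mono fun k hk => (b k hk).trans (le_of_eq ?_)⟩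
        simp [dens, RE_eq_one]
      · exact hP2 E hE e3
    obtain ⟨q, q1, q2, q3⟩ := c4 M hM.1 g hg d R0 K0 p U hU hev E e1 e2 hpos t
    refine ⟨q, q1, fun H ⟨h1, h2, h3, _⟩ =>
      Or.inr ⟨n, v, ht _ (agr_pr z fun u hu => ?_), hv.trans_lt hn⟩⟩
    unfold chi
    rw [← q2]
    split_ifs with a
    · exact h2 u a
    · exact (h1 u).resolve_left fun e => (h3 u e).elim a fun b => absurd (q3 u b) (by omega)

theorem grow_step : ∀ᶠ K in club, ∀ M, Idl K M →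
    ∀ g ∈ M, ∀ (d : ℕ) (R0 K0 : B) (p : Cond M g d R0 K0), Good M g d p.R p.Kk → ∀ n,
      ∃ q : Cond M g d R0 K0, q.le p ∧ ∃ u ∈ q.F, n ≤ u := by
  filter_upwards [ext_step] with K c4 M hM g hg d R0 K0 p hp n
  have one : ∀ p : Cond M g d R0 K0, Good M g d p.R p.Kk → ∀ n,
      ∃ q : Cond M g d R0 K0, q.le p ∧ ∃ u ∈ q.F, n ≤ u := by
    rintro p ⟨U, hU, hev, δ, hδ, J, hJ, HJ⟩ n
    have hδ' : (0 : ℝ) < δ := by exact_mod_cast hδ
    have ev : ∀ᶠ k : ℕ in atTop, (n : ℝ) / k < δ :=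
      (tendsto_const_div_atTop_nhds_zero_nat (n : ℝ)).eventually (gt_mem_nhds hδ')
    obtain ⟨j, hj⟩ := eventually_atTop.1 ev
    obtain ⟨k, hk, hk'⟩ := (HJ j).2
    have h1 := hj k ((HJ j).1 k hk).1
    have : ∃ u, n ≤ u ∧ p.R u = 1 ∧ 0 < cl U p.R g d u := by
      by_contra hc
      push Not at hc
      have : bk U p.R g d k ≤ n / k := by
        unfold bk
        gcongr
        calc _ ≤ ∑ s ∈ range k, if s ∈ range n then (1 : ℝ) else 0 := sum_le_sum fun s _ => by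
              by_cases a : s < n
              · rw [if_pos (Finset.mem_range.2 a)]
                split_ifs
                · exact cl_le_one ..
                · norm_num
              · rw [if_neg (fun h => a (Finset.mem_range.1 h))]
                split_ifs with b
                · exact hc s (not_lt.1 a) b
                · rfl
          _ ≤ _ := by
              rw [sum_ite_mem, sum_const, nsmul_eq_mul, mul_one]
              have := Finset.card_le_card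
                (Finset.inter_subset_right (s₁ := range k) (s₂ := range n))
              rw [card_range] at this
              exact_mod_cast this
      linarith
    obtain ⟨u, a, b, c⟩ := this
    obtain ⟨q, q1, q2, -⟩ := c4 M hM g hg d R0 K0 p U hU hev {u} (by simpa using b)
      (fun x hx y hy hxy => by
        rw [Finset.mem_singleton] at hx hy
        omega)
      ⟨_, half_pos c, ((cl_tendsto U p.R g d u).eventually (lt_mem_nhds (half_lt_self c))).mono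
        fun k hk => hk.le.trans (le_of_eq (by simp [dens, cf, RE_eq_one]))⟩ 0
    exact ⟨q, q1, u, by simp [q2], a⟩
  exact one p hp n

theorem ht_pres : ∀ᶠ K in club, ∀ f M0, Gd K f M0 → ∀ g ∈ M0, ∀ l, (∀ n, g n < l) →
    ∃ M, Gd K f M ∧ M0 ⊆ M ∧ ∃ H ∈ M, SolHT g H := by
  filter_upwards [saturate EvZ, good_lemma, decide_step, grow_step, ext_idl, club_cnt, thin,
    fun_fam (ι := Unit) (fun _ _ => fun _ => 1) fun _ => continuous_const] with
    K c1 c2 c3 c4 c5 hK c6 c7 f M0 h0 g hg0 l hl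
  classical
  obtain ⟨M, hM, hsub, hW, hRa⟩ := c1 f M0 h0
  have hg := hsub hg0
  have h1 : (fun _ => 1 : B) ∈ M := c7 M hM.1 () g hg g hg g hg g hg
  obtain ⟨K1, hv1, -⟩ := c6 M hM.1 _ h1 _ h1 1 one_pos fun n => ⟨n + 1, by omega, rfl, by
    have : (n : ℝ) + 1 ≠ 0 := by positivity
    simp [dens, this]⟩
  obtain ⟨d, R0, K0, hv0, hgood⟩ := start_cond (c2 M hM.1 hW g l hl) hv1
  have := cnt_idx hK hM.1.cnt
  obtain ⟨s, -, hs, hD⟩ := chain (P := Cond M g d R0 K0)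
    (ι := ({Φ // Φ ∈ K ∧ IsOp Φ} × M × ℕ) ⊕ ℕ) Cond.le
    (fun i q => match i with
      | .inl i => ∀ H, q.Cmp H → Dec f i.1.1 i.2.1.1 i.2.2 H
      | .inr n => ∃ u ∈ q.F, n ≤ u) Cond.le_refl
    (by
      rintro (⟨⟨Φ, hΦ, oΦ⟩, ⟨z, hz⟩, i⟩ | n) p
      · exact c3 f M hM hW hRa g hg d R0 K0 p (hgood _ _ p.val p.sR p.sK) Φ hΦ oΦ z hz i
      · exact c4 M hM.1 g hg d R0 K0 p (hgood _ _ p.val p.sR p.sK) n)
    ⟨∅, R0, K0, hv0, fun _ h => h, fun _ h => h, by simp [Homog], by simp⟩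
  have hle : ∀ a b, a ≤ b → (s b).le (s a) := by
    intro a b hab
    induction hab with
    | refl => exact Cond.le_refl _
    | step _ ih => exact Cond.le_trans (hs _) ih
  let H : B := fun u => if ∃ n, u ∈ (s n).F then 1 else 0
  have hH : ∀ u, H u = 1 ↔ ∃ n, u ∈ (s n).F := fun u => by
    simp only [H]
    split_ifs with h
    · exact iff_of_true rfl h
    · exact iff_of_false (by simp) h
  have hhom : ∀ x y, x < y → H x = 1 → H y = 1 → g (x + y) = d := by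
    intro x y hxy hx hy
    obtain ⟨a, ha⟩ := (hH x).1 hx
    obtain ⟨b, hb⟩ := (hH y).1 hy
    exact (s (max a b)).hom x ((hle _ _ (le_max_left _ _)).1 ha) y
      ((hle _ _ (le_max_right _ _)).1 hb) hxy
  have hcmp : ∀ n, (s n).Cmp H := by
    refine fun n => ⟨fun u => ?_, fun u hu => (hH u).2 ⟨n, hu⟩, fun u hu => ?_, hhom⟩
    · simp only [H]
      split_ifs <;> simp
    · obtain ⟨a, ha⟩ := (hH u).1 hu
      exact (hle _ _ (le_max_left n a)).2.1 u ((hle _ _ (le_max_right _ _)).1 ha)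
  obtain ⟨a, b, c⟩ := c5 M hM.1 H
  refine ⟨_, ⟨a, hyp_ext fun Φ hΦ oΦ z hz i => ?_⟩, hsub.trans b, H, c, fun n => ?_, d, hhom⟩
  · obtain ⟨n, hn⟩ := hD (.inl (⟨Φ, hΦ, oΦ⟩, ⟨z, hz⟩, i))
    exact hn H (hcmp n)
  · obtain ⟨m, u, hu, hu'⟩ := hD (.inr n)
    exact ⟨u, hu', (hH u).2 ⟨m, hu⟩⟩

end Pool.Agent.H132Z.HT
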