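import Pool.Agent.H132Z.HT.Core

/-! Finite Fourier analysis: spectral bounds for correlations, and few large frequencies. -/

set_option autoImplicit false

namespace Pool.Agent.H132Z.HT

open Filter Set Topology Finset
open scoped ComplexConjugate

/-- Trigonometric sums. -/
noncomputable def hat (a : ℕ → ℂ) (n : ℕ) (ω : ℂ) : ℂ := ∑ u ∈ range n, a u * ω ^ u

theorem orth {N : ℕ} {ζ : ℂ} (hζ : IsPrimitiveRoot ζ N) (hn : ‖ζ‖ = 1) {a b : ℕ} (ha : a < N)
    (hb : b < N) :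
    ∑ x ∈ range N, (ζ ^ x) ^ a * conj ((ζ ^ x) ^ b) = if a = b then (N : ℂ) else 0 := by
  have h0 : ζ ≠ 0 := by rintro rfl; simp at hn
  have hc : conj ζ = ζ⁻¹ := by rw [Complex.inv_def, Complex.normSq_eq_norm_sq, hn]; simp
  have e : ∀ x, (ζ ^ x) ^ a * conj ((ζ ^ x) ^ b) = (ζ ^ a * (ζ ^ b)⁻¹) ^ x := by
    intro x
    rw [map_pow, map_pow, hc, mul_pow, ← pow_mul, ← pow_mul, mul_comm x a, ← inv_pow, ← pow_mul,
      ← pow_mul, mul_comm x b]
  simp only [e]
  split_ifs with h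
  · subst h
    simp [mul_inv_cancel₀ (pow_ne_zero a h0)]
  · have h1 : ζ ^ a * (ζ ^ b)⁻¹ ≠ 1 := by
      intro h1
      rw [mul_inv_eq_one₀ (pow_ne_zero b h0)] at h1
      exact h (hζ.pow_inj ha hb h1)
    rw [geom_sum_eq h1, mul_pow, ← pow_mul, mul_comm a N, pow_mul, hζ.pow_eq_one, inv_pow,
      ← pow_mul, mul_comm b N, pow_mul, hζ.pow_eq_one]
    simp

theorem inner1 {N : ℕ} {ζ : ℂ} (hζ : IsPrimitiveRoot ζ N) (hn : ‖ζ‖ = 1) (G : ℕ → ℂ) {m n : ℕ}
    (hm : m < n) (hN : n ≤ N) :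
    ∑ x ∈ range N, (ζ ^ x) ^ m * conj (hat G n (ζ ^ x)) = N * conj (G m) := by
  simp only [hat, map_sum, map_mul, mul_sum]
  rw [sum_comm]
  have : ∀ u ∈ range n, ∑ x ∈ range N, (ζ ^ x) ^ m * (conj (G u) * conj ((ζ ^ x) ^ u)) =
      if m = u then (N : ℂ) * conj (G u) else 0 := by
    intro u hu
    have := orth hζ hn (hm.trans_le hN) ((mem_range.1 hu).trans_le hN)
    calc _ = conj (G u) * ∑ x ∈ range N, (ζ ^ x) ^ m * conj ((ζ ^ x) ^ u) := by
          rw [mul_sum]; exact sum_congr rfl fun _ _ => by ring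
      _ = _ := by rw [this]; split_ifs <;> ring
  rw [sum_congr rfl this, sum_ite_eq]
  simp [hm]

theorem parseval {N : ℕ} {ζ : ℂ} (hζ : IsPrimitiveRoot ζ N) (hn : ‖ζ‖ = 1) (G : ℕ → ℂ) {n : ℕ}
    (hN : n ≤ N) (hG : ∀ u, ‖G u‖ ≤ 1) :
    ∑ x ∈ range N, ‖hat G n (ζ ^ x)‖ ^ 2 ≤ N * n := by
  have h1 : ∑ x ∈ range N, hat G n (ζ ^ x) * conj (hat G n (ζ ^ x)) =
      ∑ u ∈ range n, G u * (N * conj (G u)) := by
    have : ∀ x, hat G n (ζ ^ x) * conj (hat G n (ζ ^ x)) =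
        ∑ u ∈ range n, G u * ((ζ ^ x) ^ u * conj (hat G n (ζ ^ x))) := by
      intro x
      conv_lhs => lhs; unfold hat
      rw [sum_mul]
      exact sum_congr rfl fun _ _ => by ring
    simp only [this]
    rw [sum_comm]
    refine sum_congr rfl fun u hu => ?_
    rw [← mul_sum, inner1 hζ hn G (mem_range.1 hu) hN]
  have h2 : ((∑ x ∈ range N, ‖hat G n (ζ ^ x)‖ ^ 2 : ℝ) : ℂ) =
      ((∑ u ∈ range n, N * ‖G u‖ ^ 2 : ℝ) : ℂ) := by
    push_cast
    simp only [Complex.mul_conj, Complex.normSq_eq_norm_sq] at h1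
    push_cast at h1
    rw [h1]
    refine sum_congr rfl fun u _ => ?_
    rw [mul_left_comm, Complex.mul_conj, Complex.normSq_eq_norm_sq]
    push_cast
    rfl
  rw [Complex.ofReal_injective h2]
  calc _ ≤ ∑ _u ∈ range n, (N : ℝ) := sum_le_sum fun u _ => by
        have := hG u
        have h3 : ‖G u‖ ^ 2 ≤ 1 := by nlinarith [norm_nonneg (G u)]
        nlinarith [Nat.cast_nonneg (α := ℝ) N]
    _ = _ := by simp [mul_comm]

/-- The density below `k` of the `s` in `R` such that `u + s` has the colour `d`. -/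
noncomputable def cf (R g : B) (d k u : ℕ) : ℝ :=
  (∑ s ∈ range k, if R s = 1 ∧ g (u + s) = d then (1 : ℝ) else 0) / k

theorem cf_nonneg (R g : B) (d k u : ℕ) : 0 ≤ cf R g d k u :=
  div_nonneg (sum_nonneg fun _ _ => by split_ifs <;> norm_num) (Nat.cast_nonneg _)

theorem avg_le_one (k : ℕ) (a : ℕ → ℝ) (h : ∀ s, a s ≤ 1) : (∑ s ∈ range k, a s) / k ≤ 1 := by
  rcases Nat.eq_zero_or_pos k with rfl | hk
  · simp
  · rw [div_le_one (by exact_mod_cast hk)]
    calc _ ≤ ∑ _s ∈ range k, (1 : ℝ) := sum_le_sum fun s _ => h s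
      _ = _ := by simp

theorem cf_le_one (R g : B) (d k u : ℕ) : cf R g d k u ≤ 1 :=
  avg_le_one _ _ fun _ => by split_ifs <;> norm_num

theorem spec (R g : B) (l k : ℕ) : ∃ (ω : ℕ → ℂ) (w : ℕ → ℝ), (∀ x, ‖ω x‖ = 1) ∧
    (∀ x, 0 ≤ w x) ∧ ∑ x ∈ range (2 * k), w x ≤ 2 * l ∧ ∀ d < l, ∀ n ≤ k, ∀ a : ℕ → ℂ,
      ‖∑ u ∈ range n, a u * (cf R g d k u : ℂ)‖ ≤ ∑ x ∈ range (2 * k), w x * ‖hat a n (ω x)‖ := by
  rcases Nat.eq_zero_or_pos k with rfl | hk
  · refine ⟨fun _ => 1, fun _ => 0, by simp, by simp, by simp, fun d _ n hn a => ?_⟩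
    obtain rfl : n = 0 := by omega
    simp
  set N := 2 * k with hN
  have hN0 : N ≠ 0 := by omega
  have hζ := Complex.isPrimitiveRoot_exp N hN0
  set ζ := Complex.exp (2 * Real.pi * Complex.I / N)
  have hn : ‖ζ‖ = 1 := hζ.norm'_eq_one hN0
  let W : ℕ → ℂ := fun s => if R s = 1 then 1 else 0
  let G : ℕ → ℕ → ℂ := fun d s => if g s = d then 1 else 0
  have hkp : (0 : ℝ) < k := by exact_mod_cast hk
  have hNp : (0 : ℝ) < N := by positivity
  have hNe : (N : ℝ) = 2 * k := by rw [hN]; push_cast; rfl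
  refine ⟨fun x => ζ ^ x,
    fun x => (∑ d ∈ range l, ‖hat W k (ζ ^ x)‖ * ‖hat (G d) N (ζ ^ x)‖) / (N * k),
    fun x => by simp [hn], fun x => by positivity, ?_, fun d hd n hnk a => ?_⟩
  · rw [← sum_div, sum_comm, div_le_iff₀ (by positivity)]
    have h1 := parseval hζ hn W (n := k) (by omega) fun u => by
      simp only [W]; split_ifs <;> simp
    calc _ ≤ ∑ _d ∈ range l, (2 * (N * k) : ℝ) := sum_le_sum fun d _ => ?_
      _ = _ := by simp; ring
    have h2 := parseval hζ hn (G d) (n := N) le_rfl fun u => by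
      simp only [G]; split_ifs <;> simp
    calc _ ≤ ∑ x ∈ range N, (‖hat W k (ζ ^ x)‖ ^ 2 + ‖hat (G d) N (ζ ^ x)‖ ^ 2) / 2 :=
          sum_le_sum fun x _ => by
            nlinarith [sq_nonneg (‖hat W k (ζ ^ x)‖ - ‖hat (G d) N (ζ ^ x)‖)]
      _ ≤ _ := by
          rw [← sum_div, sum_add_distrib]
          have : (N : ℝ) * N = 2 * (N * k) := by rw [hNe]; ring
          nlinarith [mul_pos hNp hkp]
  · have key : ∑ x ∈ range N, hat a n (ζ ^ x) * hat W k (ζ ^ x) * conj (hat (G d) N (ζ ^ x)) =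
        (N * k : ℂ) * ∑ u ∈ range n, a u * (cf R g d k u : ℂ) := by
      have e : ∀ x, hat a n (ζ ^ x) * hat W k (ζ ^ x) * conj (hat (G d) N (ζ ^ x)) =
          ∑ u ∈ range n, ∑ s ∈ range k,
            a u * W s * ((ζ ^ x) ^ (u + s) * conj (hat (G d) N (ζ ^ x))) := by
        intro x
        conv_lhs => lhs; unfold hat
        rw [sum_mul_sum, sum_mul]
        refine sum_congr rfl fun u _ => ?_
        rw [sum_mul]
        exact sum_congr rfl fun s _ => by ring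
      simp only [e]
      rw [sum_comm, mul_sum]
      refine sum_congr rfl fun u hu => ?_
      rw [sum_comm]
      have hk' : (k : ℂ) ≠ 0 := by exact_mod_cast hk.ne'
      have : (N * k : ℂ) * (a u * (cf R g d k u : ℂ)) =
          ∑ s ∈ range k, a u * (N * if R s = 1 ∧ g (u + s) = d then (1 : ℂ) else 0) := by
        rw [← mul_sum, ← mul_sum]
        unfold cf
        push_cast
        have : ∀ s, (((if R s = 1 ∧ g (u + s) = d then (1 : ℝ) else 0) : ℝ) : ℂ) =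
            if R s = 1 ∧ g (u + s) = d then (1 : ℂ) else 0 := by
          intro s; split_ifs <;> simp
        simp only [this]
        field_simp
      rw [this]
      refine sum_congr rfl fun s hs => ?_
      rw [← mul_sum, inner1 hζ hn (G d) (m := u + s)
        (by have := mem_range.1 hu; have := mem_range.1 hs; omega) le_rfl]
      simp only [W, G]
      by_cases h1 : R s = 1 <;> by_cases h2 : g (u + s) = d <;> simp [h1, h2]
    have h3 := congrArg norm key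
    rw [norm_mul, norm_mul, Complex.norm_natCast, Complex.norm_natCast] at h3
    rw [← mul_le_mul_iff_right₀ (mul_pos hNp hkp), ← h3, mul_sum]
    refine (norm_sum_le _ _).trans (sum_le_sum fun x _ => ?_)
    rw [norm_mul, norm_mul, Complex.norm_conj, ← mul_assoc, mul_div_cancel₀ _ (by positivity)]
    have : ‖hat W k (ζ ^ x)‖ * ‖hat (G d) N (ζ ^ x)‖ ≤
        ∑ d ∈ range l, ‖hat W k (ζ ^ x)‖ * ‖hat (G d) N (ζ ^ x)‖ :=
      single_le_sum (f := fun d => ‖hat W k (ζ ^ x)‖ * ‖hat (G d) N (ζ ^ x)‖)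
        (fun _ _ => by positivity) (mem_range.2 hd)
    nlinarith [norm_nonneg (hat a n (ζ ^ x))]

/-! ### Limits along an ultrafilter -/

noncomputable def ul (U : Ultrafilter ℕ) (a : ℕ → ℝ) : ℝ := limUnder (U : Filter ℕ) a

theorem ul_tendsto (U : Ultrafilter ℕ) {a : ℕ → ℝ} {A : ℝ} (h0 : ∀ k, 0 ≤ a k)
    (h : ∀ k, a k ≤ A) : Tendsto a U (𝓝 (ul U a)) := by
  obtain ⟨x, -, hx⟩ := (isCompact_Icc (a := (0 : ℝ)) (b := A)).ultrafilter_le_nhds (U.map a)
    (by rw [Ultrafilter.coe_map, le_principal_iff, Filter.mem_map]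
        exact Eventually.of_forall fun k => ⟨h0 k, h k⟩)
  exact tendsto_nhds_limUnder ⟨x, hx⟩

/-- The limit density of the `s` in `R` such that `u + s` has the colour `d`. -/
noncomputable def cl (U : Ultrafilter ℕ) (R g : B) (d u : ℕ) : ℝ := ul U fun k => cf R g d k u

theorem cl_tendsto (U : Ultrafilter ℕ) (R g : B) (d u : ℕ) :
    Tendsto (fun k => cf R g d k u) U (𝓝 (cl U R g d u)) :=
  ul_tendsto U (fun _ => cf_nonneg ..) fun _ => cf_le_one ..

theorem cl_nonneg (U : Ultrafilter ℕ) (R g : B) (d u : ℕ) : 0 ≤ cl U R g d u :=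
  ge_of_tendsto' (cl_tendsto U R g d u) fun _ => cf_nonneg ..

theorem cl_le_one (U : Ultrafilter ℕ) (R g : B) (d u : ℕ) : cl U R g d u ≤ 1 :=
  le_of_tendsto' (cl_tendsto U R g d u) fun _ => cf_le_one ..

theorem exists_m (R g : B) (l : ℕ) (U : Ultrafilter ℕ) (hU : (U : Filter ℕ) ≤ atTop) :
    ∃ m : Set ℂ → ℝ, (∀ S, 0 ≤ m S) ∧ (∀ S, m S ≤ 2 * l) ∧
      (∀ S T, m (S ∪ T) ≤ m S + m T) ∧ (∀ S T, Disjoint S T → m S + m T ≤ m (S ∪ T)) ∧
      (∀ S T, S ⊆ T → m S ≤ m T) ∧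
      ∀ d < l, ∀ (n : ℕ) (a : ℕ → ℂ) (S : Set ℂ) (α β : ℝ), 0 ≤ α →
        (∀ ω, ‖ω‖ = 1 → ω ∉ S → ‖hat a n ω‖ ≤ α) → (∀ ω, ‖ω‖ = 1 → ‖hat a n ω‖ ≤ β) →
        ‖∑ u ∈ range n, a u * (cl U R g d u : ℂ)‖ ≤ α * (2 * l) + β * m S := by
  classical
  choose ω w h1 h2 h3 h4 using spec R g l
  let mk : Set ℂ → ℕ → ℝ := fun S k => ∑ x ∈ range (2 * k), if ω k x ∈ S then w k x else 0
  have p0 : ∀ S k, 0 ≤ mk S k := fun S k => sum_nonneg fun x _ => by
    split_ifs
    · exact h2 k x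
    · rfl
  have p1 : ∀ S k, mk S k ≤ 2 * l := fun S k => (sum_le_sum fun x _ => by
    split_ifs
    · rfl
    · exact h2 k x).trans (h3 k)
  have T : ∀ S, Tendsto (mk S) U (𝓝 (ul U (mk S))) := fun S => ul_tendsto U (p0 S) (p1 S)
  refine ⟨fun S => ul U (mk S), fun S => ge_of_tendsto' (T S) (p0 S),
    fun S => le_of_tendsto' (T S) (p1 S), fun S S' => ?_, fun S S' hd => ?_, fun S S' hs => ?_,
    fun d hd n a S α β hα ha hb => ?_⟩
  · refine le_of_tendsto_of_tendsto' (T _) ((T S).add (T S')) fun k => ?_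
    simp only [mk]
    rw [← sum_add_distrib]
    refine sum_le_sum fun x _ => ?_
    have := h2 k x
    by_cases a : ω k x ∈ S <;> by_cases b : ω k x ∈ S' <;> simp [a, b, this]
  · refine le_of_tendsto_of_tendsto' ((T S).add (T S')) (T _) fun k => ?_
    simp only [mk]
    rw [← sum_add_distrib]
    refine sum_le_sum fun x _ => ?_
    by_cases a : ω k x ∈ S <;> by_cases b : ω k x ∈ S'
    · exact absurd b (Set.disjoint_left.1 hd a)
    all_goals simp [a, b]
  · refine le_of_tendsto_of_tendsto' (T S) (T S') fun k => sum_le_sum fun x _ => ?_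
    have := h2 k x
    by_cases a : ω k x ∈ S
    · simp [a, hs a]
    · by_cases b : ω k x ∈ S' <;> simp [a, b, this]
  · have t1 : Tendsto (fun k => ‖∑ u ∈ range n, a u * (cf R g d k u : ℂ)‖) U
        (𝓝 ‖∑ u ∈ range n, a u * (cl U R g d u : ℂ)‖) :=
      (tendsto_finset_sum _ fun u _ => ((Complex.continuous_ofReal.tendsto _).comp
        (cl_tendsto U R g d u)).const_mul _).norm
    refine le_of_tendsto_of_tendsto t1 (((T S).const_mul β).const_add (α * (2 * l))) ?_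
    filter_upwards [hU (eventually_ge_atTop n)] with k hk
    refine (h4 k d hd n hk a).trans ?_
    calc _ ≤ ∑ x ∈ range (2 * k), (α * w k x + β * if ω k x ∈ S then w k x else 0) :=
          sum_le_sum fun x _ => by
            have := h2 k x
            split_ifs with h
            · nlinarith [hb _ (h1 k x)]
            · nlinarith [ha _ (h1 k x) h]
      _ ≤ _ := by
          rw [sum_add_distrib, ← mul_sum, ← mul_sum]
          have := mul_le_mul_of_nonneg_left (h3 k) hα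
          simp only [mk]
          linarith

/-! ### Few large frequencies -/

/-- The Fourier transform of the normalised indicator of `R` below `k`. -/
noncomputable def rho (R : B) (k : ℕ) (ω : ℂ) : ℂ :=
  hat (fun u => (if R u = 1 then 1 else 0) / k) k ω

theorem geom_bound {η : ℂ} (h : ‖η‖ = 1) {r : ℝ} (hr : 0 < r) (h1 : r ≤ ‖η - 1‖) (k : ℕ) :
    ‖∑ u ∈ range k, η ^ u‖ ≤ 2 / r := by
  have hne : η ≠ 1 := by
    rintro rfl
    simp at h1
    linarith
  rw [geom_sum_eq hne, norm_div]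
  refine div_le_div₀ (by norm_num) ?_ hr h1
  calc _ ≤ ‖η ^ k‖ + ‖(1 : ℂ)‖ := norm_sub_le _ _
    _ = 2 := by simp [h]; norm_num

theorem norm_mul_conj_sub {a b : ℂ} (hb : ‖b‖ = 1) : ‖a * conj b - 1‖ = ‖a - b‖ := by
  have : a * conj b - 1 = (a - b) * conj b := by
    rw [sub_mul, Complex.mul_conj, Complex.normSq_eq_norm_sq, hb]; simp
  rw [this, norm_mul, Complex.norm_conj, hb, mul_one]

theorem bessel {ι : Type} (s : Finset ι) (ω : ι → ℂ) (hω : ∀ i ∈ s, ‖ω i‖ = 1) {r : ℝ}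
    (hr : 0 < r) (hsep : ∀ i ∈ s, ∀ j ∈ s, i ≠ j → r ≤ ‖ω i - ω j‖) (R : B) {k : ℕ}
    (hk : 0 < k) : ∑ i ∈ s, ‖rho R k (ω i)‖ ^ 2 ≤ 1 + 2 * s.card / (r * k) := by
  classical
  set a : ι → ℂ := fun i => rho R k (ω i) with ha
  set S : ℝ := ∑ i ∈ s, ‖a i‖ ^ 2 with hS
  have hS0 : 0 ≤ S := sum_nonneg fun _ _ => by positivity
  have hkp : (0 : ℝ) < k := by exact_mod_cast hk
  let V : ℕ → ℂ := fun u => ∑ i ∈ s, conj (a i) * ω i ^ u
  have h1 : (S : ℂ) = ∑ u ∈ range k, ((if R u = 1 then 1 else 0) / k : ℂ) * V u := by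
    simp only [V, mul_sum]
    rw [sum_comm, hS]
    push_cast
    refine sum_congr rfl fun i _ => ?_
    rw [← Complex.conj_mul']
    conv_lhs => rhs; simp only [ha, rho, hat]
    rw [mul_sum]
    exact sum_congr rfl fun u _ => by ring
  have h2 : S ≤ (∑ u ∈ range k, ‖V u‖) / k := by
    have := congrArg norm h1
    rw [Complex.norm_real, Real.norm_of_nonneg hS0] at this
    rw [this, sum_div]
    refine (norm_sum_le _ _).trans (sum_le_sum fun u _ => ?_)
    rw [norm_mul, norm_div, Complex.norm_natCast]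
    have := norm_nonneg (V u)
    split_ifs
    · simp [div_eq_inv_mul]
    · simp; positivity
  have h3 : (∑ u ∈ range k, ‖V u‖) ^ 2 ≤ k * ∑ u ∈ range k, ‖V u‖ ^ 2 := by
    simpa using sq_sum_le_card_mul_sum_sq (s := range k) (f := fun u => ‖V u‖)
  have h4 : ((∑ u ∈ range k, ‖V u‖ ^ 2 : ℝ) : ℂ) =
      ∑ i ∈ s, ∑ j ∈ s, conj (a i) * a j * ∑ u ∈ range k, (ω i * conj (ω j)) ^ u := by
    push_cast
    have : ∀ u, ((‖V u‖ : ℂ)) ^ 2 =
        ∑ i ∈ s, ∑ j ∈ s, conj (a i) * a j * (ω i * conj (ω j)) ^ u := by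
      intro u
      rw [← Complex.mul_conj']
      simp only [V, map_sum, map_mul, map_pow, Complex.conj_conj]
      rw [sum_mul_sum]
      exact sum_congr rfl fun i _ => sum_congr rfl fun j _ => by ring
    simp only [this]
    rw [sum_comm]
    refine sum_congr rfl fun i _ => ?_
    rw [sum_comm]
    exact sum_congr rfl fun j _ => by rw [mul_sum]
  have h5 : ∑ u ∈ range k, ‖V u‖ ^ 2 ≤ k * S + 2 / r * (∑ i ∈ s, ‖a i‖) ^ 2 := by
    have := congrArg norm h4
    rw [Complex.norm_real, Real.norm_of_nonneg (sum_nonneg fun _ _ => by positivity)] at this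
    rw [this, hS, sq (∑ i ∈ s, ‖a i‖), sum_mul_sum, mul_sum, mul_sum, ← sum_add_distrib]
    refine (norm_sum_le _ _).trans (sum_le_sum fun i hi => ?_)
    rw [mul_sum]
    have : (k : ℝ) * ‖a i‖ ^ 2 = ∑ j ∈ s, if i = j then (k : ℝ) * ‖a i‖ ^ 2 else 0 := by
      rw [sum_ite_eq]; simp [hi]
    rw [this, ← sum_add_distrib]
    refine (norm_sum_le _ _).trans (sum_le_sum fun j hj => ?_)
    rw [norm_mul, norm_mul, Complex.norm_conj]
    have hp : 0 ≤ 2 / r * (‖a i‖ * ‖a j‖) := by positivity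
    split_ifs with h
    · subst h
      have : ‖∑ u ∈ range k, (ω i * conj (ω i)) ^ u‖ ≤ k := by
        rw [Complex.mul_conj, Complex.normSq_eq_norm_sq, hω i hi]; simp
      nlinarith [mul_nonneg (norm_nonneg (a i)) (norm_nonneg (a i))]
    · have := geom_bound (η := ω i * conj (ω j)) (by simp [hω i hi, hω j hj]) hr
        (by rw [norm_mul_conj_sub (hω j hj)]; exact hsep i hi j hj h) k
      nlinarith [mul_nonneg (norm_nonneg (a i)) (norm_nonneg (a j))]
  have h6 : (∑ i ∈ s, ‖a i‖) ^ 2 ≤ s.card * S := sq_sum_le_card_mul_sum_sq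
  have h7 : S ^ 2 * k ^ 2 ≤ k * (k * S + 2 / r * (s.card * S)) := by
    rw [le_div_iff₀ hkp] at h2
    calc S ^ 2 * k ^ 2 = (S * k) ^ 2 := by ring
      _ ≤ (∑ u ∈ range k, ‖V u‖) ^ 2 := by gcongr
      _ ≤ k * (k * S + 2 / r * (∑ i ∈ s, ‖a i‖) ^ 2) := h3.trans (by gcongr)
      _ ≤ _ := by gcongr
  rcases hS0.eq_or_lt with h | h
  · rw [← h]; positivity
  · have : S * (S * k ^ 2) ≤ (1 + 2 * s.card / (r * k)) * (S * k ^ 2) := by
      calc _ = S ^ 2 * k ^ 2 := by ring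
        _ ≤ _ := h7
        _ = _ := by field_simp
    exact le_of_mul_le_mul_right this (by positivity)

theorem exists_sep (s : Finset ℂ) : ∃ r > 0, ∀ p ∈ s, ∀ q ∈ s, p ≠ q → r ≤ ‖p - q‖ := by
  classical
  have : ∀ᶠ r in 𝓝[>] (0 : ℝ), ∀ p ∈ s, ∀ q ∈ s, p ≠ q → r ≤ ‖p - q‖ := by
    simp only [eventually_all_finset]
    intro p _ q _
    by_cases h : p = q
    · simp [h]
    · have : 0 < ‖p - q‖ := norm_pos_iff.2 (sub_ne_zero.2 h)
      filter_upwards [nhdsWithin_le_nhds (ge_mem_nhds this)] with r hr _ using hr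
  obtain ⟨r, h1, h2⟩ := (this.and self_mem_nhdsWithin).exists
  exact ⟨r, h2, h1⟩

/-- Limits of large frequencies. -/
def Lim (U : Ultrafilter ℕ) (R : B) (η : ℝ) : Set ℂ :=
  {p | ∀ κ > 0, ∀ᶠ k in (U : Filter ℕ), ∃ ω, ‖ω‖ = 1 ∧ ‖ω - p‖ < κ ∧ η ≤ ‖rho R k ω‖}

theorem lim_finite (U : Ultrafilter ℕ) (hU : (U : Filter ℕ) ≤ atTop) (R : B) {η : ℝ}
    (hη : 0 < η) : (Lim U R η).Finite := by
  by_contra hinf
  obtain ⟨n, hn⟩ := exists_nat_gt (2 / η ^ 2)
  obtain ⟨s, hs, hcard⟩ := Set.Infinite.exists_subset_card_eq hinf n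
  obtain ⟨r, hr, hsep⟩ := exists_sep s
  have h1 : ∀ᶠ k in (U : Filter ℕ), ∀ p ∈ s,
      ∃ ω, ‖ω‖ = 1 ∧ ‖ω - p‖ < r / 3 ∧ η ≤ ‖rho R k ω‖ :=
    (eventually_all_finset s).2 fun p hp => hs hp _ (by positivity)
  obtain ⟨N, hN⟩ := exists_nat_gt (6 * n / r)
  obtain ⟨k, hk, hkN⟩ := (h1.and (hU (eventually_ge_atTop (N + 1)))).exists
  choose! ω a b c using hk
  have := bessel s ω a (r := r / 3) (by positivity) (fun i hi j hj hij => by
    have h1 := hsep i hi j hj hij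
    have h2 : i - j = (ω i - ω j) - (ω i - i) + (ω j - j) := by ring
    have h3 : ‖i - j‖ ≤ ‖ω i - ω j‖ + ‖ω i - i‖ + ‖ω j - j‖ := by
      rw [h2]
      exact (norm_add_le _ _).trans (by gcongr; exact norm_sub_le _ _)
    linarith [b i hi, b j hj]) R (k := k) (by omega)
  have h2 : (n : ℝ) * η ^ 2 ≤ ∑ i ∈ s, ‖rho R k (ω i)‖ ^ 2 := by
    calc _ = ∑ _i ∈ s, η ^ 2 := by simp [hcard]
      _ ≤ _ := sum_le_sum fun i hi => by have := c i hi; gcongr
  have hkN' : (N : ℝ) + 1 ≤ k := by exact_mod_cast hkN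
  have h3 : 2 * (s.card : ℝ) / (r / 3 * k) ≤ 1 := by
    rw [div_lt_iff₀ hr] at hN
    have : (0 : ℝ) ≤ N := Nat.cast_nonneg _
    rw [div_le_one (by nlinarith), hcard]
    nlinarith
  rw [div_lt_iff₀ (by positivity)] at hn
  linarith

end Pool.Agent.H132Z.HT
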