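import Pool.Agent.H132Z.HT.Approx
import Pool.Agent.H132Z.HT.Basis

/-! For every reservoir of positive density some colour has positive correlation in every block
of an array of the ideal. -/

set_option autoImplicit false

namespace Pool.Agent.H132Z.HT

open Filter Set Topology Finset
open scoped ComplexConjugate

theorem exists_pt : ∃ f : C → ℕ → Metric.sphere (0 : ℂ) 1,
    Continuous f ∧ Function.Surjective f := by
  let := TopologicalSpace.metrizableSpaceMetric (ℕ → Metric.sphere (0 : ℂ) 1)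
  have : Nonempty (ℕ → Metric.sphere (0 : ℂ) 1) := ⟨fun _ => ⟨1, by simp⟩⟩
  exact exists_nat_bool_continuous_surjective_of_compact _

/-- Names of sequences of points of the unit circle. -/
noncomputable def pt (y : C) (i : ℕ) : ℂ := (exists_pt.choose y i : ℂ)

theorem continuous_pt (i : ℕ) : Continuous fun y => pt y i :=
  continuous_subtype_val.comp ((continuous_apply i).comp exists_pt.choose_spec.1)

theorem norm_pt (y : C) (i : ℕ) : ‖pt y i‖ = 1 :=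
  mem_sphere_zero_iff_norm.1 (exists_pt.choose y i).2

theorem pt_surj (p : ℕ → ℂ) (h : ∀ i, ‖p i‖ = 1) : ∃ y, ∀ i, pt y i = p i := by
  obtain ⟨y, hy⟩ := exists_pt.choose_spec.2 fun i => ⟨p i, by simpa using h i⟩
  exact ⟨y, fun i => by rw [pt, hy]⟩

/-- Gaussian rationals. -/
noncomputable def gq (q : ℚ × ℚ) : ℂ := (q.1 : ℝ) + (q.2 : ℝ) * Complex.I

theorem exists_gq (z : ℂ) {ε : ℝ} (hε : 0 < ε) : ∃ q, ‖z - gq q‖ < ε := by
  obtain ⟨a, ha⟩ := exists_rat_near z.re (half_pos hε)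
  obtain ⟨b, hb⟩ := exists_rat_near z.im (half_pos hε)
  refine ⟨(a, b), (Complex.norm_le_abs_re_add_abs_im _).trans_lt ?_⟩
  have e1 : (z - gq (a, b)).re = z.re - a := by simp [gq]
  have e2 : (z - gq (a, b)).im = z.im - b := by simp [gq]
  rw [e1, e2]
  linarith

abbrev Par : Type := ℚ × Finset (ℚ × ℚ) × ℚ

def UU (π : Par) : Set ℂ := {ω | ∃ q ∈ π.2.1, ‖ω - gq q‖ < π.2.2}

def ZZ (π : Par) (R : B) (k : ℕ) : Set ℂ :=
  {ω | ‖ω‖ = 1 ∧ ω ∉ UU π ∧ (π.1 : ℝ) ≤ ‖rho R k ω‖}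

theorem isOpen_UU (π : Par) : IsOpen (UU π) :=
  isOpen_ex fun q => isOpen_const.inter
    (isOpen_lt (f := fun ω : ℂ => ‖ω - gq q‖) (by fun_prop) continuous_const)

theorem isClosed_ZZ' {X : Type} [TopologicalSpace X] {R : X → B} {ω : X → ℂ}
    (hR : Continuous R) (hω : Continuous ω) (π : Par) (k : ℕ) :
    IsClosed {x | ω x ∈ ZZ π (R x) k} :=
  (isClosed_eq hω.norm continuous_const).inter
    (((isOpen_UU π).isClosed_compl.preimage hω).inter
      (isClosed_le continuous_const (continuous_rho hR hω k).norm))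

theorem isClosed_ZZ (π : Par) (R : B) (k : ℕ) : IsClosed (ZZ π R k) :=
  isClosed_ZZ' (R := fun _ => R) continuous_const continuous_id π k

theorem ZZ_congr (π : Par) {R R' : B} {k : ℕ} (h : Agr k R R') : ZZ π R k = ZZ π R' k := by
  simp only [ZZ, rho_congr h]

theorem isOpen_val {X : Type} [TopologicalSpace X] {a : X → B} (ha : Continuous a) (n : ℕ)
    (P : ℕ → Prop) : IsOpen {x | P (a x n)} :=
  (isOpen_discrete {v | P v}).preimage ((continuous_apply n).comp ha)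

theorem stab : ∀ᶠ K in club, ∀ M, Idl K M → ∀ (U : Ultrafilter ℕ), ∀ R ∈ M, ∀ Kk ∈ M,
    (∀ᶠ k in (U : Filter ℕ), Kk k = 1) → ∀ ε > 0, ∀ Q : Finset ℂ,
    (∀ q ∈ Q, ∃ y i, cb y ∈ M ∧ q = pt y i) →
    ∃ K' ∈ M, (∀ᶠ k in (U : Filter ℕ), K' k = 1) ∧ (∀ k, K' k = 1 → Kk k = 1) ∧
      ∀ q ∈ Q, ∀ k k', K' k = 1 → K' k' = 1 → ‖rho R k q - rho R k' q‖ ≤ ε := by
  have c : ∀ (i : ℕ × (ℚ × ℚ) × ℚ) (k : ℕ), Continuous fun p : B4 =>
      ‖rho p.1 k (pt (bc p.2.2.1) i.1) - gq i.2.1‖ := fun i k =>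
    ((continuous_rho (by fun_prop) ((continuous_pt i.1).comp (by fun_prop)) k).sub
      continuous_const).norm
  have := sand_fam (ι := ℕ × (ℚ × ℚ) × ℚ)
    (fun i p k => p.2.1 k = 1 ∧ ‖rho p.1 k (pt (bc p.2.2.1) i.1) - gq i.2.1‖ < 2 * i.2.2)
    (fun i p k => p.2.1 k ≠ 1 ∨ (i.2.2 : ℝ) < ‖rho p.1 k (pt (bc p.2.2.1) i.1) - gq i.2.1‖)
    (fun i k => (isOpen_val (a := fun p : B4 => p.2.1) (by fun_prop) k (· = 1)).inter
      (isOpen_lt (c i k) continuous_const))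
    (fun i k => (isOpen_val (a := fun p : B4 => p.2.1) (by fun_prop) k (· ≠ 1)).union
      (isOpen_lt continuous_const (c i k)))
  filter_upwards [this] with K hK M hM U R hR Kk hKk hU ε hε Q hQ
  classical
  induction Q using Finset.induction_on with
  | empty => exact ⟨Kk, hKk, hU, fun _ h => h, by simp⟩
  | insert q Q hq ih =>
    obtain ⟨K1, h1, h2, h3, h4⟩ := ih fun p hp => hQ p (mem_insert_of_mem hp)
    obtain ⟨y, i, hy, rfl⟩ := hQ q (mem_insert_self _ _)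
    obtain ⟨e, he0, he⟩ := exists_rat_btwn (show 0 < ε / 4 by positivity)
    obtain ⟨b, -, hb⟩ := (isCompact_closedBall (0 : ℂ) 1).ultrafilter_le_nhds
      (U.map fun k => rho R k (pt y i)) (by
        rw [Ultrafilter.coe_map, le_principal_iff, Filter.mem_map]
        exact Eventually.of_forall fun k => by simpa using norm_rho_le R k (norm_pt y i))
    have hb' : Tendsto (fun k => rho R k (pt y i)) U (𝓝 b) := hb
    obtain ⟨β, hβ⟩ := exists_gq b he0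
    have ev : ∀ᶠ k in (U : Filter ℕ), ‖rho R k (pt y i) - gq β‖ < e :=
      ((hb'.sub_const (gq β)).norm).eventually (gt_mem_nhds hβ)
    obtain ⟨h, hh, H⟩ := hK M hM (i, β, e) R hR K1 h1 _ hy R hR fun k => by
      simp only [bc_cb]
      by_cases a : K1 k = 1
      · by_cases a' : ‖rho R k (pt y i) - gq β‖ < 2 * e
        · exact Or.inl ⟨a, a'⟩
        · exact Or.inr (Or.inr (by linarith))
      · exact Or.inr (Or.inl a)
    simp only [bc_cb] at H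
    refine ⟨h, hh, ?_, fun k hk => h3 k ((H k).1 hk).1, fun p hp k k' hk hk' => ?_⟩
    · filter_upwards [h2, ev] with k a b
      by_contra hc
      rcases (H k).2 hc with h' | h'
      · exact h' a
      · linarith
    · rcases mem_insert.1 hp with rfl | hp
      · have a := ((H k).1 hk).2
        have b := ((H k').1 hk').2
        have : rho R k (pt y i) - rho R k' (pt y i) =
            (rho R k (pt y i) - gq β) - (rho R k' (pt y i) - gq β) := by ring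
        rw [this]
        have := norm_sub_le (rho R k (pt y i) - gq β) (rho R k' (pt y i) - gq β)
        linarith
      · exact h4 p hp k k' ((H k).1 hk).1 ((H k').1 hk').1

/-- Limits of the sets of large frequencies. -/
def Zinf (U : Ultrafilter ℕ) (π : Par) (R : B) : Set ℂ :=
  {p | ‖p‖ = 1 ∧ ∀ κ > 0, ∀ᶠ k in (U : Filter ℕ), ∃ ω ∈ ZZ π R k, ‖ω - p‖ < κ}

theorem zinf_finite (U : Ultrafilter ℕ) (hU : (U : Filter ℕ) ≤ atTop) (π : Par) (R : B)
    (hη : 0 < π.1) : (Zinf U π R).Finite := by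
  refine (lim_finite U hU R (η := π.1) (by exact_mod_cast hη)).subset fun p hp κ hκ => ?_
  filter_upwards [hp.2 κ hκ] with k ⟨ω, h1, h2⟩ using ⟨ω, h1.1, h2, h1.2.2⟩

theorem zinf_nhds (U : Ultrafilter ℕ) (π : Par) (R : B) {V : Set ℂ} (hV : IsOpen V)
    (h : Zinf U π R ⊆ V) : ∀ᶠ k in (U : Filter ℕ), ZZ π R k ⊆ V := by
  by_contra hc
  rw [← Ultrafilter.eventually_not] at hc
  have : ∀ k, ∃ ω, ¬ ZZ π R k ⊆ V → ω ∈ ZZ π R k ∧ ω ∉ V := fun k => by
    by_cases h : ZZ π R k ⊆ V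
    · exact ⟨0, fun h' => absurd h h'⟩
    · obtain ⟨ω, h1, h2⟩ := not_subset.1 h
      exact ⟨ω, fun _ => ⟨h1, h2⟩⟩
  choose ω hω using this
  obtain ⟨p, hp, hlim⟩ := ((isCompact_sphere (0 : ℂ) 1).inter_right
    hV.isClosed_compl).ultrafilter_le_nhds (U.map ω) (by
      rw [Ultrafilter.coe_map, le_principal_iff, Filter.mem_map]
      filter_upwards [hc] with k hk
      exact ⟨by simpa using (hω k hk).1.1, (hω k hk).2⟩)
  have hlim' : Tendsto ω U (𝓝 p) := hlim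
  refine hp.2 (h ⟨by simpa using hp.1, fun κ hκ => ?_⟩)
  have : ∀ᶠ k in (U : Filter ℕ), ‖ω k - p‖ < κ := by
    have := Metric.tendsto_nhds.1 hlim' κ hκ
    simpa [dist_eq_norm] using this
  filter_upwards [hc, this] with k a b using ⟨ω k, (hω k a).1, b⟩

theorem avoid : ∀ᶠ K in club, ∀ M, Idl K M → WKLc K M → ∀ (U : Ultrafilter ℕ),
    (U : Filter ℕ) ≤ atTop → ∀ π : Par, 0 < π.1 → ∀ R ∈ M,
    (∀ y i, cb y ∈ M → (∀ᶠ k in (U : Filter ℕ), (π.1 : ℝ) ≤ ‖rho R k (pt y i)‖) →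
      pt y i ∈ UU π) →
    ∀ K' ∈ M, (∀ᶠ k in (U : Filter ℕ), K' k = 1) →
      ∃ k, K' k = 1 ∧ Disjoint (ZZ π R k) (Zinf U π R) := by
  have := wkl_fam (ι := Par × ℕ)
    (fun i p y => ∀ k, p.2.1 k = 1 → ∃ j ∈ Finset.range i.2, pt y j ∈ ZZ i.1 p.1 k) (fun i => by
      have : {p : B4 × C | ∀ k, p.1.2.1 k = 1 → ∃ j ∈ Finset.range i.2, pt p.2 j ∈ ZZ i.1 p.1.1 k}
          = ⋂ k, ({p : B4 × C | p.1.2.1 k = 1}ᶜ ∪
            ⋃ j ∈ Finset.range i.2, {p : B4 × C | pt p.2 j ∈ ZZ i.1 p.1.1 k}) := by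
        ext p
        simp [imp_iff_not_or]
      rw [this]
      exact isClosed_iInter fun k => (isOpen_val (a := fun p : B4 × C => p.1.2.1) (by fun_prop) k
        (· = 1)).isClosed_compl.union (isClosed_biUnion_finset fun j _ =>
          isClosed_ZZ' (by fun_prop) ((continuous_pt j).comp continuous_snd) _ _))
  filter_upwards [this] with K hK M hM hW U hU π hη R hR hQ K' hK' hev
  by_contra hc
  push Not at hc
  obtain ⟨n, f, hf⟩ := (zinf_finite U hU π R hη).fin_param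
  obtain ⟨y, hy⟩ := pt_surj (fun j => if h : j < n then f ⟨j, h⟩ else 1) fun j => by
    split_ifs with h
    · exact (hf.2 ▸ mem_range_self (f := f) ⟨j, h⟩ : f ⟨j, h⟩ ∈ Zinf U π R).1
    · simp
  obtain ⟨y', h1, h2⟩ := hK M hM hW (π, n) R hR K' hK' R hR R hR ⟨y, fun k hk => by
    obtain ⟨p, a, b⟩ := Set.not_disjoint_iff.1 (hc k hk)
    rw [← hf.2] at b
    obtain ⟨j, rfl⟩ := b
    exact ⟨j, Finset.mem_range.2 j.2, by simpa [hy, j.2] using a⟩⟩
  have : ∀ᶠ k in (U : Filter ℕ), ∃ j ∈ (Finset.range n : Set ℕ), pt y' j ∈ ZZ π R k := by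
    filter_upwards [hev] with k hk using by simpa using h2 k hk
  obtain ⟨j, -, hj⟩ := (Ultrafilter.eventually_exists_mem_iff (Finset.finite_toSet _)).1 this
  obtain ⟨k, hk⟩ := hj.exists
  exact hk.2.1 (hQ y' j h1 (hj.mono fun k hk => hk.2.2))

/-- Decoding of finite sets. -/
def dF (v : ℕ) : Finset ℕ := Denumerable.ofNat (Finset ℕ) v

theorem dF_surj (J : Finset ℕ) : ∃ v, dF v = J := ⟨_, Denumerable.ofNat_encode J⟩

theorem agr_sup {J : Finset ℕ} {k : ℕ} (hk : k ∈ J) : k < J.sup id + 1 :=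
  Nat.lt_succ_of_le (Finset.le_sup (f := id) hk)

theorem blocks : ∀ᶠ K in club, ∀ M, Idl K M → WKLc K M → ∀ (U : Ultrafilter ℕ),
    (U : Filter ℕ) ≤ atTop → ∀ π : Par, 0 < π.1 → ∀ R ∈ M,
    (∀ y i, cb y ∈ M → (∀ᶠ k in (U : Filter ℕ), (π.1 : ℝ) ≤ ‖rho R k (pt y i)‖) →
      pt y i ∈ UU π) →
    ∀ K' ∈ M, (∀ᶠ k in (U : Filter ℕ), K' k = 1) → ∀ N M0 : ℕ,
      ∃ J ∈ M, ∀ j, (dF (J j)).card = N ∧ (∀ k ∈ dF (J j), j ≤ k ∧ M0 ≤ k ∧ K' k = 1) ∧
        ∀ a ∈ dF (J j), ∀ b ∈ dF (J j), a ≠ b → Disjoint (ZZ π R a) (ZZ π R b) := by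
  have c2 := set_fam (ι := Par × ℕ × Finset ℕ)
    (fun i p k => p.2.1 k = 1 ∧ i.2.1 ≤ k ∧ ∀ a ∈ i.2.2, Disjoint (ZZ i.1 p.1 k) (ZZ i.1 p.1 a))
    (fun i k => clopen_of_loc fun p => ⟨max (k + 1) (i.2.2.sup id + 1), fun q h1 h2 _ _ => by
      rw [h2 k (by omega), ZZ_congr i.1 (h1.mono (show k ≤ _ by omega))]
      refine and_congr Iff.rfl (and_congr Iff.rfl (forall₂_congr fun a ha => ?_))
      rw [ZZ_congr i.1 (h1.mono (show a ≤ _ by have := agr_sup ha; omega))]⟩)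
  have c4 := sel_fam (ι := Par × ℕ × ℕ)
    (fun i p j v => (dF v).card = i.2.1 ∧ (∀ k ∈ dF v, j ≤ k ∧ i.2.2 ≤ k ∧ p.2.1 k = 1) ∧
      ∀ a ∈ dF v, ∀ b ∈ dF v, a ≠ b → Disjoint (ZZ i.1 p.1 a) (ZZ i.1 p.1 b))
    (fun i j v => (clopen_of_loc fun p => ⟨(dF v).sup id + 1, fun q h1 h2 _ _ => by
      refine and_congr Iff.rfl (and_congr (forall₂_congr fun a ha => ?_)
        (forall₂_congr fun a ha => forall₂_congr fun b hb => ?_))
      · rw [h2 a (agr_sup ha)]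
      · rw [ZZ_congr i.1 (h1.mono (agr_sup ha).le), ZZ_congr i.1 (h1.mono (agr_sup hb).le)]⟩).2)
  filter_upwards [c2, c4, avoid] with K c2 c4 c3 M hM hW U hU π hη R hR hQ K' hK' hev N M0
  refine c4 M hM (π, N, M0) R hR K' hK' R hR R hR fun j => ?_
  have : ∃ J : Finset ℕ, J.card = N ∧ (∀ k ∈ J, j ≤ k ∧ M0 ≤ k ∧ K' k = 1) ∧
      (∀ a ∈ J, ∀ b ∈ J, a ≠ b → Disjoint (ZZ π R a) (ZZ π R b)) ∧
      ∀ a ∈ J, Disjoint (ZZ π R a) (Zinf U π R) := by
    induction N with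
    | zero => exact ⟨∅, by simp⟩
    | succ N ih =>
      obtain ⟨J, h1, h2, h3, h4⟩ := ih
      obtain ⟨K2, hK2, e2⟩ := c2 M hM (π, max (max j M0) (J.sup id + 1), J) R hR K' hK' R hR R hR
      have ev := zinf_nhds U π R (V := (⋃ a ∈ J, ZZ π R a)ᶜ)
        (isClosed_biUnion_finset fun a _ => isClosed_ZZ π R a).isOpen_compl (by
          intro p hp hp'
          simp only [mem_iUnion] at hp'
          obtain ⟨a, ha, hp'⟩ := hp'
          exact Set.disjoint_left.1 (h4 a ha) hp' hp)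
      obtain ⟨k, hk, hk'⟩ := c3 M hM hW U hU π hη R hR hQ K2 hK2 (by
        filter_upwards [hev, ev, hU (eventually_ge_atTop (max (max j M0) (J.sup id + 1)))]
          with k a b c
        refine (e2 k).2 ⟨a, c, fun x hx => Set.disjoint_left.2 fun p hp hp' => b hp ?_⟩
        simp only [mem_iUnion]
        exact ⟨x, hx, hp'⟩)
      obtain ⟨a1, a2, a3⟩ := (e2 k).1 hk
      simp only [max_le_iff] at a2
      have hkJ : k ∉ J := fun h => by have := agr_sup h; omega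
      refine ⟨insert k J, by rw [card_insert_of_notMem hkJ, h1], fun x hx => ?_,
        fun a ha b hb hab => ?_, fun x hx => ?_⟩
      · rcases mem_insert.1 hx with rfl | hx
        · exact ⟨a2.1.1, a2.1.2, a1⟩
        · exact h2 x hx
      · rcases mem_insert.1 ha with rfl | ha' <;> rcases mem_insert.1 hb with rfl | hb'
        · exact absurd rfl hab
        · exact a3 b hb'
        · exact (a3 a ha').symm
        · exact h3 a ha' b hb' hab
      · rcases mem_insert.1 hx with rfl | hx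
        · exact hk'
        · exact h4 x hx
  obtain ⟨J, h1, h2, h3, -⟩ := this
  obtain ⟨v, rfl⟩ := dF_surj J
  exact ⟨v, h1, h2, h3⟩

/-- Density below `k`. -/
noncomputable def dens (R : B) (k : ℕ) : ℝ := (∑ u ∈ range k, if R u = 1 then (1 : ℝ) else 0) / k

/-- Averaged correlation. -/
noncomputable def bk (U : Ultrafilter ℕ) (R g : B) (d k : ℕ) : ℝ :=
  (∑ u ∈ range k, if R u = 1 then cl U R g d u else 0) / k

/-- A reservoir with positive density along an infinite set of the ideal. -/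
def Valid (M : Set B) (R Kk : B) : Prop :=
  R ∈ M ∧ Kk ∈ M ∧ (∀ n, ∃ k ≥ n, Kk k = 1) ∧ ∃ δ > (0 : ℝ), ∀ k, Kk k = 1 → δ ≤ dens R k

def Good (M : Set B) (g : B) (d : ℕ) (R Kk : B) : Prop :=
  ∃ U : Ultrafilter ℕ, (U : Filter ℕ) ≤ atTop ∧ (∀ᶠ k in (U : Filter ℕ), Kk k = 1) ∧
    ∃ δ : ℚ, 0 < δ ∧ ∃ J ∈ M, ∀ j, (∀ k ∈ dF (J j), j ≤ k ∧ Kk k = 1) ∧
      ∃ k ∈ dF (J j), (δ : ℝ) ≤ bk U R g d k

theorem exists_ultra {Kk : B} (h : ∀ n, ∃ k ≥ n, Kk k = 1) :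
    ∃ U : Ultrafilter ℕ, (U : Filter ℕ) ≤ atTop ∧ ∀ᶠ k in (U : Filter ℕ), Kk k = 1 := by
  have : (atTop ⊓ 𝓟 {k | Kk k = 1} : Filter ℕ).NeBot :=
    frequently_mem_iff_neBot.1 (frequently_atTop.2 h)
  exact ⟨Ultrafilter.of (atTop ⊓ 𝓟 {k | Kk k = 1}), (Ultrafilter.of_le _).trans inf_le_left,
    le_principal_iff.1 ((Ultrafilter.of_le _).trans inf_le_right)⟩

theorem sum_bk {U : Ultrafilter ℕ} {R g : B} {l : ℕ} (hg : ∀ n, g n < l) {δ : ℝ}
    (h : ∀ᶠ k in (U : Filter ℕ), δ ≤ dens R k) (k : ℕ) :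
    δ * dens R k ≤ ∑ d ∈ range l, bk U R g d k := by
  have h1 : ∀ u, δ ≤ ∑ d ∈ range l, cl U R g d u := by
    intro u
    refine ge_of_tendsto (tendsto_finset_sum _ fun d _ => cl_tendsto U R g d u) ?_
    filter_upwards [h] with k hk
    refine hk.trans (le_of_eq ?_)
    unfold dens cf
    rw [← sum_div, sum_comm]
    congr 1
    refine sum_congr rfl fun s _ => ?_
    by_cases a : R s = 1
    · simp [a, hg]
    · simp [a]
  unfold dens bk
  rw [← sum_div, sum_comm, ← mul_div_assoc, mul_sum]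
  gcongr with u _
  split_ifs
  · simpa using h1 u
  · simp

theorem small_mul {c ε : ℝ} (hc : 0 ≤ c) (hε : 0 < ε) : ∃ x : ℚ, 0 < x ∧ c * x ≤ ε := by
  obtain ⟨x, h0, h1⟩ := exists_rat_btwn (show 0 < ε / (c + 1) by positivity)
  rw [lt_div_iff₀ (by positivity)] at h1
  exact ⟨x, by exact_mod_cast h0, by nlinarith⟩

theorem small_div {c ε : ℝ} (hε : 0 < ε) : ∃ n : ℕ, 0 < n ∧ c / n ≤ ε := by
  obtain ⟨n, hn⟩ := exists_nat_gt (c / ε)
  refine ⟨n + 1, by omega, ?_⟩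
  rw [div_lt_iff₀ hε] at hn
  rw [div_le_iff₀ (by positivity)]
  push_cast
  nlinarith

theorem good_lemma : ∀ᶠ K in club, ∀ M, Idl K M → WKLc K M → ∀ (g : B) (l : ℕ), (∀ n, g n < l) →
    ∀ R Kk, Valid M R Kk → ∃ d < l, Good M g d R Kk := by
  filter_upwards [stab, blocks] with K c1 c2 M hM hW g l hg R Kk ⟨hR, hKk, hinf, δ, hδ, hd⟩
  classical
  obtain ⟨U, hU, hev⟩ := exists_ultra hinf
  have hl : (0 : ℝ) < l := by have := hg 0; exact_mod_cast (by omega : 0 < l)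
  obtain ⟨m, m0, mL, msub, madd, mmono, H⟩ := exists_m R g l U hU
  set L : ℝ := 2 * l with hL
  have hL0 : 0 < L := by positivity
  set e : ℝ := δ ^ 2 / l / 20 with he
  have he0 : 0 < e := by positivity
  obtain ⟨η, hη, hηe⟩ := small_mul hL0.le he0
  have hη' : (0 : ℝ) < η := by exact_mod_cast hη
  have hfin : {q | (∃ y i, cb y ∈ M ∧ q = pt y i) ∧
      ∀ᶠ k in (U : Filter ℕ), (η : ℝ) ≤ ‖rho R k q‖}.Finite := by
    refine (lim_finite U hU R hη').subset ?_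
    rintro _ ⟨⟨y, i, -, rfl⟩, h⟩ κ hκ
    filter_upwards [h] with k hk using ⟨_, norm_pt y i, by simpa using hκ, hk⟩
  set Q := hfin.toFinset with hQdef
  have hQ : ∀ q, q ∈ Q ↔ (∃ y i, cb y ∈ M ∧ q = pt y i) ∧
      ∀ᶠ k in (U : Filter ℕ), (η : ℝ) ≤ ‖rho R k q‖ := fun q => hfin.mem_toFinset
  have hQ1 : ∀ q ∈ Q, ‖q‖ = 1 := fun q hq => by
    obtain ⟨⟨y, i, -, rfl⟩, -⟩ := (hQ q).1 hq
    exact norm_pt y i
  obtain ⟨sep, hsep0, hsep⟩ := exists_sep Q
  obtain ⟨ε1, hε1, hε1e⟩ := small_mul (c := 1 + Q.card) (by positivity) he0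
  obtain ⟨r0, hr0, hann⟩ := ann mL madd mmono Q (ε := ε1) (by exact_mod_cast hε1)
  obtain ⟨r, hr, hr'⟩ := exists_rat_btwn (lt_min hsep0 (half_pos hr0))
  rw [lt_min_iff] at hr'
  choose cq hcq using fun q : ℂ => exists_gq q (half_pos hr)
  let π : Par := (η, Q.image cq, r)
  have hU1 : ∀ ω ∉ UU π, ω ∈ Far Q (r / 2) := by
    intro ω hω q hq
    have h1 : ¬ ‖ω - gq (cq q)‖ < r := fun h => hω ⟨cq q, mem_image_of_mem _ hq, h⟩
    have h2 : ‖ω - gq (cq q)‖ ≤ ‖ω - q‖ + ‖q - gq (cq q)‖ := norm_sub_le_norm_sub_add_norm_sub ..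
    linarith [hcq q]
  have hU2 : ∀ ω ∈ UU π, ω ∉ Far Q (2 * r) := by
    rintro ω ⟨_, hq, h1⟩ h
    obtain ⟨q, hq', rfl⟩ := mem_image.1 hq
    have h2 : ‖ω - q‖ ≤ ‖ω - gq (cq q)‖ + ‖gq (cq q) - q‖ := norm_sub_le_norm_sub_add_norm_sub ..
    rw [norm_sub_rev (gq _)] at h2
    have h3 : ‖ω - gq (cq q)‖ < r := h1
    linarith [hcq q, h q hq']
  obtain ⟨M0, hM0, hM0e⟩ := small_div (c := Q.card * (4 / r) * L) he0
  obtain ⟨ε3, hε3, hε3e⟩ := small_mul (c := 2 * L) (by positivity) he0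
  obtain ⟨N, hN, hNe⟩ := small_div (c := (1 + Q.card) * L) he0
  obtain ⟨ε4, hε4, hε4e⟩ := small_mul (c := Q.card) (by positivity) he0
  obtain ⟨K', hK', hev', hsubK, hst⟩ := c1 M hM U R hR Kk hKk hev ε4 (by exact_mod_cast hε4) Q
    fun q hq => ((hQ q).1 hq).1
  obtain ⟨J, hJ, HJ⟩ := c2 M hM hW U hU π hη R hR (fun y i hy h => by
    have hq : pt y i ∈ Q := (hQ _).2 ⟨⟨y, i, hy, rfl⟩, h⟩
    exact ⟨cq _, mem_image_of_mem _ hq, (hcq _).trans (half_lt_self hr)⟩) K' hK' hev' N M0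
  have gd : ∀ j, ∃ k ∈ dF (J j), m (ZZ π R k) ≤ L / N := by
    intro j
    by_contra hc
    push Not at hc
    have h1 := (sum_m_le m0 madd (ZZ π R) _ (HJ j).2.2).trans (mL _)
    have h2 := sum_lt_sum_of_nonempty (s := dF (J j)) (f := fun _ => L / N)
      (g := fun k => m (ZZ π R k)) (card_pos.1 (by rw [(HJ j).1]; exact hN)) hc
    rw [sum_const, (HJ j).1, nsmul_eq_mul, mul_div_cancel₀ _ (by positivity)] at h2
    linarith
  have est : ∀ d < l, ∀ k, M0 ≤ k → m (ZZ π R k) ≤ L / N →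
      ‖(bk U R g d k : ℂ) - ∑ q ∈ Q, rho R k q * AA M0 (cl U R g d) q‖ ≤ 5 * e := by
    intro d hdl k hk hm
    have := approx msub (H d hdl) R Q hQ1 hr hη'.le (ε3 := ε3) (by exact_mod_cast hε3)
      (fun p hp q hq hne => hr'.1.le.trans (hsep p hp q hq hne)) hU1 hU2
      (fun κ hκ => hann κ hκ _ (by linarith [hr'.2])) hM0 hk
    refine this.trans ?_
    have h1 : (1 + Q.card : ℝ) * m (ZZ π R k) ≤ (1 + Q.card) * L / N := by
      rw [mul_div_assoc]; gcongr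
    have h2 : (Q.card : ℝ) * (4 / r / M0) * L = Q.card * (4 / r) * L / M0 := by ring
    change (η + Q.card * (4 / r / M0) + 2 * ε3) * L + (1 + Q.card) * (m (ZZ π R k) + ε1) ≤ _
    nlinarith
  have cmp : ∀ d < l, ∀ k k', M0 ≤ k → m (ZZ π R k) ≤ L / N → K' k = 1 → M0 ≤ k' →
      m (ZZ π R k') ≤ L / N → K' k' = 1 → bk U R g d k - bk U R g d k' ≤ 11 * e := by
    intro d hdl k k' a1 a2 a3 b1 b2 b3
    have e1 := est d hdl k a1 a2
    have e2 := est d hdl k' b1 b2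
    have e3 : ‖∑ q ∈ Q, rho R k q * AA M0 (cl U R g d) q -
        ∑ q ∈ Q, rho R k' q * AA M0 (cl U R g d) q‖ ≤ Q.card * ε4 := by
      rw [← sum_sub_distrib]
      calc _ ≤ ∑ _q ∈ Q, (ε4 : ℝ) := (norm_sum_le _ _).trans (sum_le_sum fun q hq => by
            rw [← sub_mul, norm_mul]
            have := norm_AA_le M0 (cl_nonneg U R g d) (cl_le_one U R g d) (hQ1 q hq)
            nlinarith [hst q hq k k' a3 b3, norm_nonneg (rho R k q - rho R k' q),
              norm_nonneg (AA M0 (cl U R g d) q)])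
        _ = _ := by simp
    have e4 : ‖((bk U R g d k - bk U R g d k' : ℝ) : ℂ)‖ ≤ 11 * e := by
      push_cast
      have t1 := norm_sub_le_norm_sub_add_norm_sub (bk U R g d k : ℂ)
        (∑ q ∈ Q, rho R k q * AA M0 (cl U R g d) q) (bk U R g d k' : ℂ)
      have t2 := norm_sub_le_norm_sub_add_norm_sub (∑ q ∈ Q, rho R k q * AA M0 (cl U R g d) q)
        (∑ q ∈ Q, rho R k' q * AA M0 (cl U R g d) q) (bk U R g d k' : ℂ)
      rw [norm_sub_rev] at e2
      linarith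
    rw [Complex.norm_real] at e4
    exact (le_abs_self _).trans e4
  obtain ⟨k0, hk0, hm0⟩ := gd 0
  obtain ⟨-, a1, a2⟩ := (HJ 0).2.1 k0 hk0
  have hs := sum_bk (U := U) hg (hev.mono hd) k0
  have : ∃ d ∈ range l, δ ^ 2 / l ≤ bk U R g d k0 := by
    by_contra hc
    push Not at hc
    have h2 := sum_lt_sum_of_nonempty (s := range l) (g := fun _ => δ ^ 2 / l)
      (f := fun d => bk U R g d k0) ⟨g 0, Finset.mem_range.2 (hg 0)⟩ hc
    rw [sum_const, card_range, nsmul_eq_mul, mul_div_cancel₀ _ hl.ne'] at h2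
    nlinarith [hd k0 (hsubK k0 a2)]
  obtain ⟨d, hdl, hd0⟩ := this
  obtain ⟨δ', p1, p2⟩ := exists_rat_btwn he0
  refine ⟨d, Finset.mem_range.1 hdl, U, hU, hev, δ', by exact_mod_cast p1, J, hJ, fun j =>
    ⟨fun k hk => ⟨((HJ j).2.1 k hk).1, hsubK k ((HJ j).2.1 k hk).2.2⟩, ?_⟩⟩
  obtain ⟨k, hk, hm⟩ := gd j
  obtain ⟨-, b1, b2⟩ := (HJ j).2.1 k hk
  have := cmp d (Finset.mem_range.1 hdl) k0 k a1 hm0 a2 b1 hm b2
  exact ⟨k, hk, by linarith⟩

end Pool.Agent.H132Z.HT
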