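import Pool.Agent.H132Z.HT.Good

/-! Limit laws of the translates of a colour class, and random reservoirs. -/

set_option autoImplicit false

namespace Pool.Agent.H132Z.HT

open Filter Set Topology Finset MeasureTheory
open scoped ENNReal

def cylE (E : Finset ℕ) : Set C := {y | ∀ u ∈ E, y u = true}

theorem clopen_cylE (E : Finset ℕ) : IsClopen (cylE E) :=
  clopen_agr (t := E.sup id + 1) fun _ hy _ h u hu => (h u (agr_sup hu)).trans (hy u hu)

theorem clopen_one (u : ℕ) : IsClopen {y : C | y u = true} :=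
  clopen_agr (t := u + 1) fun _ hy _ h => (h u (Nat.lt_succ_self u)).trans hy

/-- Empirical measures. -/
noncomputable def emp (y : ℕ → C) (k : ℕ) : PM :=
  if h : k = 0 then ⟨Measure.dirac (y 0), inferInstance⟩
  else ⟨(k : ℝ≥0∞)⁻¹ • ∑ s ∈ range k, Measure.dirac (y s), ⟨by
    simp only [Measure.smul_apply, Measure.finsetSum_apply, measure_univ, sum_const, card_range,
      nsmul_eq_mul, mul_one, smul_eq_mul]
    exact ENNReal.inv_mul_cancel (by exact_mod_cast h) (ENNReal.natCast_ne_top k)⟩⟩

open Classical in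
theorem mr_emp (y : ℕ → C) {k : ℕ} (hk : k ≠ 0) {S : Set C} (hS : MeasurableSet S) :
    mr (emp y k) S = (∑ s ∈ range k, if y s ∈ S then (1 : ℝ) else 0) / k := by
  simp only [mr, emp, dif_neg hk, ProbabilityMeasure.coe_mk, Measure.real, Measure.smul_apply,
    Measure.finsetSum_apply, smul_eq_mul, ENNReal.toReal_mul, ENNReal.toReal_inv,
    ENNReal.toReal_natCast]
  rw [ENNReal.toReal_sum fun _ _ => measure_ne_top _ _, div_eq_inv_mul]
  congr 1
  refine sum_congr rfl fun s _ => ?_
  rw [Measure.dirac_apply' _ hS]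
  by_cases h : y s ∈ S <;> simp [h]

/-- The part of the reservoir that is compatible with `E`. -/
def RE (R g : B) (d : ℕ) (E : Finset ℕ) (t : ℕ) : B := fun s =>
  if R s = 1 ∧ t ≤ s ∧ ∀ u ∈ E, g (u + s) = d then 1 else 0

theorem RE_eq_one {R g : B} {d : ℕ} {E : Finset ℕ} {t s : ℕ} :
    RE R g d E t s = 1 ↔ R s = 1 ∧ t ≤ s ∧ ∀ u ∈ E, g (u + s) = d := by
  unfold RE
  split_ifs with h
  · exact iff_of_true rfl h
  · exact iff_of_false (by simp) h

theorem true_meas (U : Ultrafilter ℕ) (hU : (U : Filter ℕ) ≤ atTop) (R g : B) (d : ℕ) :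
    ∃ P : PM, (∀ u, mr P {y | y u = true} = cl U R g d u) ∧ ∀ E : Finset ℕ, E.Nonempty →
      0 < mr P (cylE E) → ∃ δ > (0 : ℝ), ∀ᶠ k in (U : Filter ℕ), δ ≤ dens (RE R g d E 0) k := by
  classical
  let y : ℕ → C := fun s u => decide (R s = 1 ∧ g (u + s) = d)
  obtain ⟨P, -, hP⟩ := isCompact_univ.ultrafilter_le_nhds (U.map (emp y)) (by simp)
  have hP' : Tendsto (emp y) U (𝓝 P) := hP
  refine ⟨P, fun u => ?_, fun E hE h0 => ⟨mr P (cylE E) / 2, half_pos h0, ?_⟩⟩
  · refine tendsto_nhds_unique_of_eventuallyEq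
      (((continuous_mr (clopen_one u)).tendsto P).comp hP') (cl_tendsto U R g d u) ?_
    filter_upwards [hU (eventually_ne_atTop 0)] with k hk
    simp only [Function.comp]
    rw [mr_emp y hk (clopen_one u).2.measurableSet, cf]
    simp [y]
  · have := (((continuous_mr (clopen_cylE E)).tendsto P).comp hP').eventually
      (lt_mem_nhds (half_lt_self h0))
    filter_upwards [this, hU (eventually_ne_atTop 0)] with k h1 hk
    simp only [Function.comp] at h1
    rw [mr_emp y hk (clopen_cylE E).2.measurableSet] at h1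
    refine h1.le.trans (le_of_eq ?_)
    unfold dens
    congr 1
    refine sum_congr rfl fun s _ => if_congr ?_ rfl rfl
    rw [RE_eq_one]
    obtain ⟨e, he⟩ := hE
    simp only [cylE, y, mem_ofPred_eq, decide_eq_true_eq, zero_le, true_and]
    exact ⟨fun h => ⟨(h e he).1, fun u hu => (h u hu).2⟩, fun h u hu => ⟨h.1, h.2 u hu⟩⟩

theorem dens_cut (R g : B) (d : ℕ) (E : Finset ℕ) (t k : ℕ) :
    dens (RE R g d E 0) k ≤ dens (RE R g d E t) k + t / k := by
  unfold dens
  rw [← add_div]
  gcongr
  calc _ ≤ ∑ s ∈ range k, ((if RE R g d E t s = 1 then (1 : ℝ) else 0) +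
        if s ∈ range t then 1 else 0) := sum_le_sum fun s _ => by
          simp only [RE_eq_one, Finset.mem_range]
          by_cases a : s < t
          · rw [if_pos a]
            split_ifs <;> norm_num
          · rw [if_neg a]
            have : t ≤ s := not_lt.1 a
            simp [this]
    _ ≤ _ := by
        rw [sum_add_distrib]
        gcongr
        rw [sum_ite_mem, sum_const, nsmul_eq_mul, mul_one]
        have := Finset.card_le_card (Finset.inter_subset_right (s₁ := range k) (s₂ := range t))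
        rw [card_range] at this
        exact_mod_cast this

theorem dens_congr {R R' : B} {k : ℕ} (h : Agr k R R') : dens R k = dens R' k := by
  unfold dens
  congr 1
  exact sum_congr rfl fun u hu => by rw [h u (Finset.mem_range.1 hu)]

theorem dens_le_one (R : B) (k : ℕ) : dens R k ≤ 1 :=
  avg_le_one _ _ fun _ => by split_ifs <;> norm_num

/-- Intersection with a point of Cantor space. -/
def cap (R : B) (y : C) : B := fun u => if R u = 1 ∧ y u = true then 1 else 0

theorem cap_eq_one {R : B} {y : C} {u : ℕ} : cap R y u = 1 ↔ R u = 1 ∧ y u = true := by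
  unfold cap
  split_ifs with h <;> simp [h]

/-- Expected density of the random part of the reservoir. -/
noncomputable def ed (R : B) (μ : PM) (k : ℕ) : ℝ :=
  (∑ u ∈ range k, if R u = 1 then mr μ {y | y u = true} else 0) / k

theorem clopen_G (R : B) (k : ℕ) (a : ℝ) : IsClopen {y | a ≤ dens (cap R y) k} :=
  clopen_agr (t := k) fun y hy y' h => by
    have : Agr k (cap R y) (cap R y') := fun i hi => by simp only [cap, h i hi]
    exact le_of_le_of_eq hy (dens_congr this)

theorem markov (R : B) (μ : PM) (k : ℕ) {a : ℝ} (ha : 0 ≤ a) :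
    ed R μ k ≤ a + mr μ {y | a ≤ dens (cap R y) k} := by
  have i1 : ∀ S : Set C, MeasurableSet S →
      Integrable (S.indicator (1 : C → ℝ)) (μ : Measure C) := fun S hS =>
    (integrable_const (1 : ℝ)).indicator hS
  have e : ∀ y, dens (cap R y) k = (∑ u ∈ range k,
      (if R u = 1 then (1 : ℝ) else 0) * {y : C | y u = true}.indicator 1 y) / k := by
    intro y
    unfold dens
    congr 1
    refine sum_congr rfl fun u _ => ?_
    simp only [cap_eq_one]
    by_cases a : R u = 1 <;> by_cases b : y u = true <;> simp [a, b]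
  have i2 : ∀ u ∈ range k, Integrable (fun y => (if R u = 1 then (1 : ℝ) else 0) *
      {y : C | y u = true}.indicator 1 y) (μ : Measure C) := fun u _ =>
    (i1 _ (clopen_one u).2.measurableSet).const_mul _
  have h1 : ∫ y, dens (cap R y) k ∂(μ : Measure C) = ed R μ k := by
    simp only [e]
    rw [integral_div, integral_finset_sum _ i2, ed]
    congr 1
    refine sum_congr rfl fun u _ => ?_
    rw [integral_const_mul, integral_indicator_one (clopen_one u).2.measurableSet]
    split_ifs <;> simp [mr]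
  have h2 : ∫ y, (a + {y | a ≤ dens (cap R y) k}.indicator 1 y) ∂(μ : Measure C) =
      a + mr μ {y | a ≤ dens (cap R y) k} := by
    rw [integral_add (integrable_const _) (i1 _ (clopen_G R k a).2.measurableSet),
      integral_indicator_one (clopen_G R k a).2.measurableSet]
    simp [mr]
  rw [← h1, ← h2]
  refine integral_mono ?_ ((integrable_const _).add (i1 _ (clopen_G R k a).2.measurableSet))
    fun y => ?_
  · simp only [e]
    exact (integrable_finset_sum _ i2).div_const _
  · by_cases h : a ≤ dens (cap R y) k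
    · have := dens_le_one (cap R y) k
      simp only [indicator_of_mem (show y ∈ {y | a ≤ dens (cap R y) k} from h), Pi.one_apply]
      linarith
    · simp only [indicator_of_notMem (show y ∉ {y | a ≤ dens (cap R y) k} from h)]
      linarith [not_le.1 h]

/-- The event: in the support, and of positive density infinitely often. -/
def Ev (δ : ℚ) (R Kk : B) (μ : PM) : Set C :=
  {y | (∀ E, y ∈ cylE E → 0 < mr μ (cylE E)) ∧
    ∀ n, ∃ k ≥ n, Kk k = 1 ∧ (δ : ℝ) / 2 ≤ dens (cap R y) k}

theorem ev_pos {δ : ℚ} (hδ : 0 < δ) {R Kk : B} {μ : PM}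
    (h : ∀ n, ∃ k ≥ n, Kk k = 1 ∧ (δ : ℝ) ≤ ed R μ k) : (μ : Measure C) (Ev δ R Kk μ) ≠ 0 := by
  have hδ' : (0 : ℝ) < δ := by exact_mod_cast hδ
  let V : ℕ → Set C := fun n => {y | ∃ k, k ≥ n ∧ Kk k = 1 ∧ (δ : ℝ) / 2 ≤ dens (cap R y) k}
  have oV : ∀ n, IsOpen (V n) := fun n => isOpen_ex fun k =>
    isOpen_const.inter (isOpen_const.inter (clopen_G R k _).2)
  have aV : Antitone V := fun a b hab y ⟨k, h1, h2⟩ => ⟨k, hab.trans h1, h2⟩
  have h1 : (δ : ℝ) / 2 ≤ mr μ (⋂ n, V n) := by
    by_contra hc
    obtain ⟨n, hn⟩ := mr_inter_lt μ (fun n => (oV n).measurableSet) aV (not_le.1 hc)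
    obtain ⟨k, a, b, c⟩ := h n
    have := markov R μ k (half_pos hδ').le
    have := mr_mono μ (show {y | (δ : ℝ) / 2 ≤ dens (cap R y) k} ⊆ V n from
      fun y hy => ⟨k, a, b, hy⟩)
    linarith
  have h2 : ∀ᵐ y ∂(μ : Measure C), ∀ E, y ∈ cylE E → 0 < mr μ (cylE E) := by
    refine ae_all_iff.2 fun E => ?_
    by_cases a : (μ : Measure C) (cylE E) = 0
    · filter_upwards [measure_eq_zero_iff_ae_notMem.1 a] with y hy h using absurd h hy
    · exact Eventually.of_forall fun _ _ => ENNReal.toReal_pos a (measure_ne_top _ _)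
  intro h0
  have h3 : (μ : Measure C) (⋂ n, V n) = 0 := by
    rw [measure_eq_zero_iff_ae_notMem] at h0 ⊢
    filter_upwards [h0, h2] with y a b c using a ⟨b, mem_iInter.1 c⟩
  simp only [mr, Measure.real, h3, ENNReal.toReal_zero] at h1
  linarith

theorem continuous_ed {X : Type} [TopologicalSpace X] {R : X → B} {μ : X → PM}
    (hR : Continuous R) (hμ : Continuous μ) (k : ℕ) : Continuous fun x => ed (R x) (μ x) k := by
  unfold ed
  refine (continuous_finset_sum _ fun u _ => ?_).div_const _
  have : (fun x => if R x u = 1 then mr (μ x) {y | y u = true} else 0) =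
      fun x => (if R x u = 1 then (1 : ℝ) else 0) * mr (μ x) {y | y u = true} := by
    funext x; split_ifs <;> simp
  rw [this]
  exact ((continuous_of_discreteTopology (f := fun b : ℕ => if b = 1 then (1 : ℝ) else 0)).comp
    ((continuous_apply u).comp hR)).mul ((continuous_mr (clopen_one u)).comp hμ)

/-- Admissible laws. -/
def Adm (δ : ℚ) (R J : B) (μ : PM) : Prop := ∀ j, ∃ k ∈ dF (J j), (δ : ℝ) ≤ ed R μ k

theorem isClosed_adm {X : Type} [TopologicalSpace X] {R J : X → B} {μ : X → PM}
    (hR : Continuous R) (hJ : Continuous J) (hμ : Continuous μ) (δ : ℚ) :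
    IsClosed {x | Adm δ (R x) (J x) (μ x)} := by
  have : {x | Adm δ (R x) (J x) (μ x)} = (⋃ j, ⋃ v, {x | J x j = v} ∩
      ⋂ k ∈ dF v, {x | ed (R x) (μ x) k < δ})ᶜ := by
    ext x
    simp [Adm]
  rw [this, isClosed_compl_iff]
  exact isOpen_iUnion fun j => isOpen_iUnion fun v => (isOpen_val hJ j (· = v)).inter
    (isOpen_biInter_finset fun k _ => isOpen_lt (continuous_ed hR hμ k) continuous_const)

end Pool.Agent.H132Z.HT
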