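import Pool.Agent.H132Z.HT.Start
import Pool.Agent.H132Z.HT.Defs

/-! The omega-model of an ideal. -/

set_option autoImplicit false

namespace Pool.Agent.H132Z.HT

open Filter Set Pool.Agent.Helper617.RM

/-- The omega-model whose sets are coded in `M`. -/
def om (M : Set B) : L2Structure.{0} where
  M := ℕ
  zero := (0 : ℕ)
  one := (1 : ℕ)
  add := fun a b : ℕ => a + b
  mul := fun a b : ℕ => a * b
  lt := fun a b : ℕ => a < b
  Sets := {X : Set ℕ | ∃ x ∈ M, ∀ n, x n = 1 ↔ n ∈ X}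

def app : ℕ → ℕ → (ℕ → ℕ) → ℕ → ℕ
  | 0, _, v => v
  | r + 1, n, v => cons n.unpair.1 (app r n.unpair.2 v)

theorem app_congr (r n i : ℕ) (v : ℕ → ℕ) : app r n v i = app r n (fun _ => v (i - r)) i := by
  induction r generalizing n i with
  | zero => rfl
  | succ r ih =>
    cases i with
    | zero => rfl
    | succ i =>
      simp only [app, cons]
      rw [ih]
      congr 2
      funext _
      congr 1
      omega

theorem isClopen_val {a : B4 → B} (ha : Continuous a) (n : ℕ) (P : ℕ → Prop) :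
    IsClopen {x | P (a x n)} :=
  (isClopen_discrete {v | P v}).preimage ((continuous_apply n).comp ha)

theorem isClopen_val2 (n : ℕ) (P : ℕ → ℕ → Prop) : IsClopen {p : B4 | P (p.1 n) (p.2.1 n)} :=
  clopen_of_loc fun _ => ⟨n + 1, fun _ h1 h2 _ _ => by
    rw [h1 n (Nat.lt_succ_self n), h2 n (Nat.lt_succ_self n)]⟩

theorem om_rca : ∀ᶠ K in club, ∀ M, Idl K M → IsModelRCA0 (om M) := by
  have c1 := fun_fam (ι := ℕ × ℕ × ℕ) (fun i _ n => app i.1 n (fun _ => i.2.2) i.2.1)
    fun _ => continuous_const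
  have c2 := fun_fam (ι := Unit) (fun _ p n => p.1 n + p.2.1 n) fun _ => by fun_prop
  have c3 := fun_fam (ι := Unit) (fun _ p n => p.1 n * p.2.1 n) fun _ => by fun_prop
  have c4 := set_fam (ι := Unit) (fun _ p n => p.1 n = p.2.1 n) fun _ n => isClopen_val2 n _
  have c5 := set_fam (ι := Unit) (fun _ p n => p.1 n < p.2.1 n) fun _ n => isClopen_val2 n _
  have c6 := set_fam (ι := Unit) (fun _ p n => p.2.1 (p.1 n) = 1) fun _ n =>
    clopen_of_loc fun p => ⟨n + p.1 n + 1, fun _ h1 h2 _ _ => by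
      rw [h1 n (by omega), h2 _ (by omega)]⟩
  have c7 := set_fam (ι := Unit) (fun _ p n => ¬ p.1 n = 1) fun _ n =>
    isClopen_val2 n fun a _ => ¬ a = 1
  have c8 := set_fam (ι := Unit) (fun _ p n => p.1 n = 1 ∧ p.2.1 n = 1) fun _ n =>
    isClopen_val2 n fun a b => a = 1 ∧ b = 1
  have c9 := set_fam (ι := Unit) (fun _ p n => ∀ a < p.1 n, p.2.1 (Nat.pair a n) = 1) fun _ n =>
    clopen_of_loc fun p => ⟨n + Nat.pair (p.1 n) n + 1, fun _ h1 h2 _ _ => by
      rw [h1 n (by omega)]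
      refine forall₂_congr fun a ha => ?_
      rw [h2 _ (by have := Nat.pair_lt_pair_left n ha; omega)]⟩
  have c10 := sand_fam (ι := Unit) (fun _ p n => ∃ k, p.1 (Nat.pair k (Nat.pair n 0)) = 1)
    (fun _ p n => ∃ k, ¬ p.2.1 (Nat.pair k (Nat.pair n 0)) = 1)
    (fun _ n => isOpen_ex fun k => isOpen_val (a := fun p : B4 => p.1) (by fun_prop) _ (· = 1))
    (fun _ n => isOpen_ex fun k =>
      isOpen_val (a := fun p : B4 => p.2.1) (by fun_prop) _ (¬ · = 1))
  filter_upwards [c1, c2, c3, c4, c5, c6, c7, c8, c9, c10] with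
    K c1 c2 c3 c4 c5 c6 c7 c8 c9 c10 M hM
  obtain ⟨z, hz⟩ := hM.ne
  have cst : ∀ a : ℕ, (fun _ => a : B) ∈ M := fun a => c1 M hM (0, 0, a) z hz z hz z hz z hz
  have T : ∀ (t : Term (om M)) (r : ℕ) (v : ℕ → ℕ), (fun n => t.val (app r n v) : B) ∈ M := by
    intro t r v
    induction t with
    | var i =>
      have := c1 M hM (r, i, v (i - r)) z hz z hz z hz z hz
      have e : (fun n => (Term.var i : Term (om M)).val (app r n v) : B) =
          fun n => app r n (fun _ => v (i - r)) i := funext fun n => app_congr r n i v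
      rw [e]
      exact this
    | const a => exact cst a
    | zero => exact cst 0
    | one => exact cst 1
    | add s t a b => exact c2 M hM () _ a _ b z hz z hz
    | mul s t a b => exact c3 M hM () _ a _ b z hz z hz
  have F : ∀ (φ : Delta0 (om M)) (r : ℕ) (v : ℕ → ℕ),
      ∃ h ∈ M, ∀ n, h n = 1 ↔ φ.Holds (app r n v) := by
    intro φ
    induction φ with
    | eq s t => exact fun r v => c4 M hM () _ (T s r v) _ (T t r v) z hz z hz
    | lt s t => exact fun r v => c5 M hM () _ (T s r v) _ (T t r v) z hz z hz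
    | mem t X =>
      intro r v
      obtain ⟨x, hx, hx'⟩ := X.2
      obtain ⟨h, a, b⟩ := c6 M hM () _ (T t r v) _ hx z hz z hz
      exact ⟨h, a, fun n => (b n).trans (hx' _)⟩
    | neg φ ih =>
      intro r v
      obtain ⟨x, hx, hx'⟩ := ih r v
      obtain ⟨h, a, b⟩ := c7 M hM () _ hx z hz z hz z hz
      exact ⟨h, a, fun n => (b n).trans (not_congr (hx' n))⟩
    | and φ ψ ih ih' =>
      intro r v
      obtain ⟨x, hx, hx'⟩ := ih r v
      obtain ⟨y, hy, hy'⟩ := ih' r v
      obtain ⟨h, a, b⟩ := c8 M hM () _ hx _ hy z hz z hz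
      exact ⟨h, a, fun n => (b n).trans (and_congr (hx' n) (hy' n))⟩
    | ball t φ ih =>
      intro r v
      obtain ⟨x, hx, hx'⟩ := ih (r + 1) v
      obtain ⟨h, a, b⟩ := c9 M hM () _ (T t r v) _ hx z hz z hz
      refine ⟨h, a, fun n => (b n).trans (forall₂_congr fun a _ => ?_)⟩
      have := hx' (Nat.pair a n)
      simp only [app, Nat.unpair_pair] at this
      exact this
  refine ⟨fun n : ℕ => Nat.succ_ne_zero n, fun m n : ℕ => Nat.succ.inj, fun _ => rfl,
    fun _ _ => rfl, fun _ => rfl, fun _ _ => rfl, fun m : ℕ => Nat.not_lt_zero m,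
    fun m n : ℕ => Nat.lt_succ_iff_lt_or_eq, fun θ v h0 hs (n : ℕ) => ?_, fun θ ψ v h => ?_⟩
  · induction n with
    | zero => exact h0
    | succ n ih => exact hs n ih
  · obtain ⟨x, hx, hx'⟩ := F θ 2 v
    obtain ⟨y, hy, hy'⟩ := F ψ 2 v
    have e1 : ∀ k n : ℕ, x (Nat.pair k (Nat.pair n 0)) = 1 ↔ θ.Holds (cons k (cons n v)) := by
      intro k n
      have := hx' (Nat.pair k (Nat.pair n 0))
      simp only [app, Nat.unpair_pair] at this
      exact this
    have e2 : ∀ k n : ℕ, y (Nat.pair k (Nat.pair n 0)) = 1 ↔ ψ.Holds (cons k (cons n v)) := by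
      intro k n
      have := hy' (Nat.pair k (Nat.pair n 0))
      simp only [app, Nat.unpair_pair] at this
      exact this
    obtain ⟨w, a, b⟩ := c10 M hM () _ hx _ hy z hz z hz fun n => by
      simp only [e1, e2]
      by_cases hc : ∃ k, θ.Holds (cons k (cons n v))
      · exact Or.inl hc
      · exact Or.inr (not_forall.1 fun hh => hc ((h n).2 hh))
    simp only [e1, e2] at b
    refine ⟨w, a, fun n => ⟨(b n).1, fun hn => by_contra fun hc => ?_⟩⟩
    obtain ⟨k, hk⟩ := (b n).2 hc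
    exact hk ((h n).1 hn k)

theorem col_fun : ∀ᶠ K in club, ∀ M, Idl K M → ∀ (k : ℕ) (c : ℕ → Fin k),
    (∀ i, {x | c x = i} ∈ (om M).Sets) → (fun n => (c n : ℕ) : B) ∈ M := by
  have c1 := fun_fam (ι := ℕ) (fun j p n => if p.2.1 n = 1 then j else p.1 n) fun j =>
    continuous_pi fun n => (continuous_of_discreteTopology
      (f := fun q : ℕ × ℕ => if q.2 = 1 then j else q.1)).comp
      (f := fun p : B4 => (p.1 n, p.2.1 n)) (by fun_prop)
  filter_upwards [c1] with K c1 M hM k c hc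
  have : ∀ j, ∃ g ∈ M, ∀ n, (c n : ℕ) < j → g n = c n := by
    intro j
    induction j with
    | zero =>
      obtain ⟨z, hz⟩ := hM.ne
      exact ⟨z, hz, by simp⟩
    | succ j ih =>
      obtain ⟨g, hg, hg'⟩ := ih
      by_cases hj : j < k
      · obtain ⟨x, hx, hx'⟩ := hc ⟨j, hj⟩
        refine ⟨_, c1 M hM j g hg x hx g hg g hg, fun n hn => ?_⟩
        have := hx' n
        split_ifs with h
        · have e : c n = ⟨j, hj⟩ := this.1 h
          rw [e]
        · refine hg' n (lt_of_le_of_ne (Nat.lt_succ_iff.1 hn) fun e => h (this.2 ?_))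
          exact Fin.ext e
      · exact ⟨g, hg, fun n _ => hg' n (by have := (c n).2; omega)⟩
  obtain ⟨g, hg, hg'⟩ := this k
  have e : (fun n => (c n : ℕ) : B) = g := funext fun n => (hg' n (c n).2).symm
  rwa [e]

theorem exists_model : ∃ N : L2Structure.{0}, IsModelRCA0 N ∧ (∀ k, HTeq2 N k) ∧
    ∀ k, 2 ≤ k → ¬ SRT2 N k := by
  have c1 := set_fam (ι := ℕ) (fun i p n => ∃ x ≤ n, ∃ y ≤ n, x < y ∧ p.1 (Nat.pair x y) = i ∧
      n = (x + y) * (x + y) + x) fun i n =>
    clopen_of_loc fun p => ⟨Nat.pair n n + 1, fun _ h1 _ _ _ => by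
      refine exists_congr fun x => and_congr_right fun hx => exists_congr fun y =>
        and_congr_right fun hy => ?_
      rw [h1 _ (Nat.lt_succ_of_le ?_)]
      rcases hx.eq_or_lt with rfl | hx <;> rcases hy.eq_or_lt with rfl | hy
      · rfl
      · exact (Nat.pair_lt_pair_right _ hy).le
      · exact (Nat.pair_lt_pair_left _ hx).le
      · exact ((Nat.pair_lt_pair_left _ hx).trans (Nat.pair_lt_pair_right _ hy)).le⟩
  obtain ⟨K, M, c, ⟨⟨c1, c2⟩, c3⟩, hM, hc, hc1, hst, hHT, hno⟩ :=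
    main_ideal ((c1.and om_rca).and col_fun)
  refine ⟨om M, c2 M hM, fun k g hg => ?_, fun k hk h => ?_⟩
  · obtain ⟨H, hH, hinf, d, hd⟩ := hHT _ (c3 M hM k g hg) k fun n => (g n).2
    refine ⟨{n | H n = 1}, ⟨H, hH, fun _ => Iff.rfl⟩, fun b : ℕ => ?_, ?_⟩
    · obtain ⟨x, a, b⟩ := hinf (b + 1)
      exact ⟨x, b, a⟩
    · obtain ⟨x, -, hx⟩ := hinf 0
      obtain ⟨y, a, hy⟩ := hinf (x + 1)
      refine ⟨g (x + y : ℕ), fun u hu v hv huv => Fin.ext ?_⟩
      exact (hd u v huv hu hv).trans (hd x y a hx hy).symm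
  · obtain ⟨X, ⟨H, hH, hX⟩, hinf, i, hi⟩ := h
      (fun x y : ℕ => ⟨c (Nat.pair x y), by have := hc1 (Nat.pair x y); omega⟩)
      (fun i => by
        obtain ⟨w, a, b⟩ := c1 M hM i c hc c hc c hc c hc
        refine ⟨w, a, fun n => (b n).trans ⟨?_, ?_⟩⟩
        · rintro ⟨x, -, y, -, h1, h2, h3⟩
          exact ⟨x, y, h1, Fin.ext h2, h3⟩
        · rintro ⟨x : ℕ, y : ℕ, h1, h2, h3⟩
          have h1 : x < y := h1
          have h3 : n = (x + y) * (x + y) + x := h3
          exact ⟨x, by nlinarith, y, by nlinarith, h1, congrArg Fin.val h2, h3⟩)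
      (fun x : ℕ => by
        obtain ⟨a, ha⟩ := hst x
        obtain ⟨b, hb⟩ := eventually_atTop.1 ha
        exact ⟨⟨c (Nat.pair x b), by have := hc1 (Nat.pair x b); omega⟩, b,
          fun (y : ℕ) (hy : b < y) => Fin.ext ((hb y hy.le).trans (hb b le_rfl).symm)⟩)
    refine hno H hH (fun n => ?_) i fun x y hxy hx hy => ?_
    · obtain ⟨x, a, b⟩ := hinf n
      exact ⟨x, le_of_lt b, (hX x).2 a⟩
    · exact congrArg Fin.val (hi x ((hX x).1 hx) y ((hX y).1 hy) hxy)

end Pool.Agent.H132Z.HT
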