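import Pool.Agent.H132Z.HT.Start
import Pool.Agent.H132Z.RT.Oracle
import Pool.Agent.H132Z.RT.Defs

/-! Ideals are closed under Turing reducibility; no reduction of Ramsey's theorem for pairs to
Hindman's theorem for sums of exactly two elements. -/

set_option autoImplicit false

namespace Pool.Agent.H132Z.HT

open Filter Set Pool.Agent.H132Z.RT

/-- A total function as an oracle. -/
def orc (z : B) : ℕ →. ℕ := fun n => Part.some (z n)

theorem isOp_code (e : OC) : IsOp fun z n v => v ∈ e.ev (orc z) n := by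
  intro n v
  rw [isOpen_iff_agr]
  intro z hz
  let A : ℕ → ℕ →. ℕ := fun t q => if q < t then Part.some (z q) else Part.none
  obtain ⟨t, ht⟩ := e.cont (o := orc z) A (fun a b hab q v hv => by
    simp only [A] at hv ⊢
    split_ifs at hv with h
    · rwa [if_pos (h.trans_le hab)]
    · simp at hv) (fun q v hv => ⟨q + 1, by simpa [A, orc] using hv⟩) n v hz
  refine ⟨t, fun w hw => e.mono (fun q v hv => ?_) _ _ ht⟩
  simp only [A] at hv
  split_ifs at hv with h
  · simpa [orc, hw q h] using hv
  · simp at hv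

theorem turing_closed : ∀ᶠ K in club, ∀ M, Idl K M → ∀ z ∈ M, ∀ x : B,
    TuringReducible (orc x) (orc z) → x ∈ M := by
  filter_upwards [club_fam fun e : OC => (fun z n v => v ∈ e.ev (orc z) n : Fn)] with
    K hK M hM z hz x hx
  obtain ⟨e, he⟩ := exists_code (RecursiveIn.iff_nat.1 hx)
  obtain ⟨h, hh, H⟩ := hM.sel _ (hK e) (isOp_code e) z hz fun n => ⟨x n, by simp [he, orc]⟩
  have : x = h := funext fun n => by simpa [he, orc, eq_comm] using H n
  rwa [this]

/-- A colouring of the numbers as an oracle. -/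
def numOracle {k : ℕ} (g : ℕ → Fin k) : ℕ →. ℕ := fun n => Part.some (g n : ℕ)

/-- Solutions of `HT^{=2}_k`: infinite sets `H` such that `g` is constant on the sums `x + y`
with `x < y` in `H`. -/
def SolHT2 {k : ℕ} (g : ℕ → Fin k) (H : Set ℕ) : Prop :=
  H.Infinite ∧ ∃ i, ∀ x ∈ H, ∀ y ∈ H, x < y → g (x + y) = i

theorem no_red : ∃ f : Coloring, ∀ (k : ℕ) (g : ℕ → Fin k),
    TuringReducible (numOracle g) (colOracle f) → ∃ G : Set ℕ, SolHT2 g G ∧
      ∀ H : Set ℕ, TuringReducible (setOracle H) (RT.join (colOracle f) (setOracle G)) →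
        ¬ SolRT f H := by
  classical
  have c1 := fun_fam (ι := Unit) (fun _ p n => if n.unpair.1 < n.unpair.2 then p.1 n else 0)
    fun _ => continuous_pi fun n => by split_ifs <;> fun_prop
  have c2 := fun_fam (ι := Unit) (fun _ p n => if p.1 n = 1 then 1 else 0)
    fun _ => continuous_pi fun n => (continuous_of_discreteTopology
      (f := fun q : ℕ => if q = 1 then 1 else 0)).comp (f := fun p : B4 => p.1 n) (by fun_prop)
  obtain ⟨K, M, c, ⟨⟨c1, c2⟩, c3⟩, hM, hc, hc1, -, hHT, hno⟩ :=
    main_ideal ((c1.and c2).and turing_closed)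
  let f : Coloring := fun q => ⟨c (Nat.pair q.1.1 q.1.2), by
    have := hc1 (Nat.pair q.1.1 q.1.2); omega⟩
  let c' : B := fun n => if n.unpair.1 < n.unpair.2 then c n else 0
  have hc' : c' ∈ M := c1 M hM () c hc c hc c hc c hc
  have e1 : colOracle f = orc c' := by
    funext n
    simp only [colOracle, orc, c', f, Nat.pair_unpair]
    split_ifs <;> rfl
  refine ⟨f, fun k g hg => ?_⟩
  rw [e1] at hg ⊢
  obtain ⟨G, hG, hinf, d, hd⟩ := hHT _ (c3 M hM c' hc' (fun n => (g n : ℕ)) hg) k
    fun n => (g n).2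
  refine ⟨{n | G n = 1}, ⟨infinite_of_forall_exists_gt fun n => ?_, ?_⟩, fun H hH hs => ?_⟩
  · obtain ⟨x, a, b⟩ := hinf (n + 1)
    exact ⟨x, b, a⟩
  · obtain ⟨x, -, hx⟩ := hinf 0
    obtain ⟨y, a, hy⟩ := hinf (x + 1)
    refine ⟨g (x + y), fun u hu v hv huv => Fin.ext ?_⟩
    exact (hd u v huv hu hv).trans (hd x y a hx hy).symm
  · let G' : B := fun n => if G n = 1 then 1 else 0
    have hG' : G' ∈ M := c2 M hM () G hG G hG G hG G hG
    have e2 : RT.join (orc c') (setOracle {n | G n = 1}) = orc (pr c' G') := by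
      funext n
      simp only [RT.join, orc, setOracle, pr, G', mem_ofPred_eq]
      by_cases h : n % 2 = 0
      · simp only [h, if_true]
      · simp only [h, if_false]
        congr
    rw [e2] at hH
    have hH' := c3 M hM _ (hM.pair _ hc' _ hG') (fun n => if n ∈ H then 1 else 0) hH
    obtain ⟨h1, i, hi⟩ := hs
    refine hno _ hH' (fun n => ?_) i fun x y hxy hx hy => ?_
    · obtain ⟨x, a, b⟩ := h1.exists_gt n
      exact ⟨x, b.le, by simp [a]⟩
    · exact congrArg Fin.val (hi x (by simpa using hx) y (by simpa using hy) hxy)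

end Pool.Agent.H132Z.HT
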