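import Pool.Agent.H132Z.HT.Force

/-! A generic stable colouring, and an ideal that solves all instances of Hindman's theorem for
sums of exactly two elements but contains no infinite subset of a limit colour class. -/

set_option autoImplicit false

namespace Pool.Agent.H132Z.HT

open Filter Set

def col (i : ℕ) : ℕ := if i = 0 then 0 else 1

noncomputable def fA (A : B) (i : ℕ) : B := fun n => sInf {x | n ≤ x ∧ A x = col i}

/-- Finitely many frozen rows. -/
structure Rows where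
  n : ℕ
  c : B
  A : B
  le : ∀ m, c m ≤ 1
  lim : ∀ x < n, ∀ᶠ s in atTop, c (Nat.pair x s) = A x

def Rows.Ex (p : Rows) (c A : B) : Prop :=
  ∀ x < p.n, (∀ s, c (Nat.pair x s) = p.c (Nat.pair x s)) ∧ A x = p.A x

theorem col_le (i : ℕ) : col i ≤ 1 := by unfold col; split_ifs <;> omega

theorem rows_step (p : Rows) (c' : B) (hc : ∀ m, c' m ≤ 1) (hc' : p.Ex c' p.A) (t N i : ℕ)
    (hN : p.n ≤ N) : ∃ q : Rows, q.n = N + 1 ∧ p.Ex q.c q.A ∧ Agr t c' q.c ∧
      q.A N = col i ∧ ∀ x, p.n ≤ x → x < N → q.A x ≠ col i := by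
  let A : B := fun x => if x < p.n then p.A x else if x = N then col i else 1 - col i
  refine ⟨⟨N + 1, fun m => if m.unpair.1 < p.n ∨ m < t then c' m else A m.unpair.1, A,
    fun m => ?_, fun x _ => ?_⟩, rfl, fun x hx => ⟨fun s => ?_, ?_⟩, fun m hm => ?_, ?_,
    fun x h1 h2 => ?_⟩
  · have := col_le i
    split_ifs with h
    · exact hc m
    · simp only [A, if_neg (not_or.1 h).1]
      split_ifs <;> omega
  · by_cases hx : x < p.n
    · filter_upwards [p.lim x hx] with s hs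
      simp only [Nat.unpair_pair, hx, true_or, if_true, A, (hc' x hx).1 s, hs]
    · filter_upwards [eventually_ge_atTop t] with s hs
      have : ¬ Nat.pair x s < t := not_lt.2 (hs.trans (Nat.right_le_pair x s))
      simp only [Nat.unpair_pair, hx, this, or_self, if_false]
  · simp only [Nat.unpair_pair, hx, true_or, if_true, (hc' x hx).1 s]
  · simp only [A, hx, if_true]
  · simp only [hm, or_true, if_true]
  · simp only [A, not_lt.2 hN, if_false, if_true]
  · have := col_le i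
    simp only [A, not_lt.2 h1, if_false, h2.ne]
    omega

theorem generic {K : Set Fn} (hK : K.Countable) : ∃ c A : B, (∀ m, c m ≤ 1) ∧
    (∀ x, ∀ᶠ s in atTop, c (Nat.pair x s) = A x) ∧
    ∀ Φ ∈ K, IsOp Φ → ∀ i, Dec (fA A) Φ (fun _ => 0) i c := by
  have : Countable {Φ // Φ ∈ K ∧ IsOp Φ} :=
    (hK.mono (fun Φ h => h.1 : {Φ | Φ ∈ K ∧ IsOp Φ} ⊆ K)).to_subtype
  obtain ⟨s, -, hs, hD⟩ := chain (P := Rows) (ι := ({Φ // Φ ∈ K ∧ IsOp Φ} × ℕ) ⊕ ℕ)
    (fun q p => p.n ≤ q.n ∧ p.Ex q.c q.A)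
    (fun i q => match i with
      | .inl i => ∀ c A : B, (∀ m, c m ≤ 1) → q.Ex c A → Dec (fA A) i.1.1 (fun _ => 0) i.2 c
      | .inr n => n < q.n)
    (fun p => ⟨le_rfl, fun _ _ => ⟨fun _ => rfl, rfl⟩⟩)
    (by
      rintro (⟨⟨Φ, hΦ, oΦ⟩, i⟩ | n) p
      · by_cases hc : ∃ (c' : B) (v : ℕ), (∀ m, c' m ≤ 1) ∧ p.Ex c' p.A ∧
            Φ (pr (fun _ => 0) c') p.n v
        · obtain ⟨c', v, h1, h2, h3⟩ := hc
          obtain ⟨t, ht⟩ := isOpen_iff_agr.1 (oΦ p.n v) _ h3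
          obtain ⟨q, q1, q2, q3, q4, q5⟩ := rows_step p c' h1 h2 t (p.n + t + v + 1) i (by omega)
          refine ⟨q, ⟨by omega, q2⟩, fun c A _ hx => Or.inr ⟨p.n, v, ht _ (agr_pr _ ?_), ?_⟩⟩
          · intro m hm
            have := (hx m.unpair.1 (by have := Nat.unpair_left_le m; omega)).1 m.unpair.2
            rw [Nat.pair_unpair] at this
            rw [this, q3 m hm]
          · have hne : {x | p.n ≤ x ∧ A x = col i}.Nonempty :=
              ⟨p.n + t + v + 1, by omega, by rw [(hx _ (by omega)).2, q4]⟩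
            obtain ⟨a, b⟩ := Nat.sInf_mem hne
            by_contra hlt
            have hlt : sInf {x | p.n ≤ x ∧ A x = col i} ≤ v := not_lt.1 hlt
            rw [(hx _ (by omega)).2] at b
            exact q5 _ a (by omega) b
        · exact ⟨p, ⟨le_rfl, fun _ _ => ⟨fun _ => rfl, rfl⟩⟩, fun c A h1 h2 => Or.inl
            ⟨p.n, fun v hv => hc ⟨c, v, h1, fun x hx => ⟨(h2 x hx).1, rfl⟩, hv⟩⟩⟩
      · obtain ⟨q, q1, q2, -⟩ := rows_step p p.c p.le (fun _ _ => ⟨fun _ => rfl, rfl⟩) 0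
          (p.n + n) 0 (by omega)
        exact ⟨q, ⟨by omega, q2⟩, by show n < q.n; omega⟩)
    ⟨0, fun _ => 0, fun _ => 0, by simp, by simp⟩
  have hle : ∀ a b, a ≤ b → (s a).n ≤ (s b).n ∧ (s a).Ex (s b).c (s b).A := by
    intro a b hab
    induction hab with
    | refl => exact ⟨le_rfl, fun _ _ => ⟨fun _ => rfl, rfl⟩⟩
    | step _ ih =>
      refine ⟨ih.1.trans (hs _).1, fun x hx => ?_⟩
      have := (hs _).2 x (hx.trans_le ih.1)
      exact ⟨fun u => (this.1 u).trans ((ih.2 x hx).1 u), this.2.trans (ih.2 x hx).2⟩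
  choose st hst using fun n => hD (.inr n)
  let c : B := fun m => (s (st m.unpair.1)).c m
  let A : B := fun x => (s (st x)).A x
  have hex : ∀ k, (s k).Ex c A := by
    intro k x hx
    have a := (hle k _ (le_max_left k (st x))).2 x hx
    have b := (hle _ _ (le_max_right k (st x))).2 x (hst x)
    refine ⟨fun u => ?_, b.2.symm.trans a.2⟩
    simp only [c, Nat.unpair_pair]
    exact (b.1 u).symm.trans (a.1 u)
  refine ⟨c, A, fun m => (s _).le m, fun x => ?_, fun Φ hΦ oΦ i => ?_⟩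
  · simpa only [c, Nat.unpair_pair] using (s (st x)).lim x (hst x)
  · obtain ⟨k, hk⟩ := hD (.inl (⟨Φ, hΦ, oΦ⟩, i))
    exact hk c A (fun m => (s _).le m) (hex k)

theorem main_ideal {p : Set Fn → Prop} (hp : ∀ᶠ K in club, p K) :
    ∃ (K : Set Fn) (M : Set B) (c : B), p K ∧ Idl K M ∧ c ∈ M ∧ (∀ m, c m ≤ 1) ∧
      (∀ x, ∃ a, ∀ᶠ s in atTop, c (Nat.pair x s) = a) ∧
      (∀ g ∈ M, ∀ l, (∀ n, g n < l) → ∃ H ∈ M, SolHT g H) ∧
      ∀ H ∈ M, (∀ n, ∃ k ≥ n, H k = 1) → ∀ i,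
        ¬ ∀ x y, x < y → H x = 1 → H y = 1 → c (Nat.pair x y) = i := by
  have c1 := sel_fam (ι := Unit) (fun _ p n v => n ≤ v ∧ p.1 v = 1)
    fun _ n v => isOpen_const.inter (isOpen_val (a := fun p : B4 => p.1) (by fun_prop) v (· = 1))
  obtain ⟨K, ⟨⟨⟨hp, c1⟩, c2⟩, c3⟩, hK⟩ :=
    club_exists ((((hp.and c1).and ext_idl').and ht_pres).and club_cnt)
  obtain ⟨c, A, h1, h2, h3⟩ := generic hK
  obtain ⟨a, -, b⟩ := c2 {fun _ => 0} (singleton_nonempty _) (countable_singleton _) (by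
    rintro _ rfl _ rfl
    funext n
    simp [pr]) c
  have h0 : Gd K (fA A) (ext K {fun _ => 0} c) := ⟨a, hyp_ext fun Φ hΦ oΦ z hz i => by
    rw [mem_singleton_iff.1 hz]
    exact h3 Φ hΦ oΦ i⟩
  obtain ⟨M, hM, hsub, hS⟩ := close (ι := ℕ) (fun l g H => (∀ n, g n < l) → SolHT g H)
    (fun M hM l g hg => by
      by_cases hl : ∀ n, g n < l
      · obtain ⟨M', a, b, H, c, d⟩ := c3 _ M hM g hg l hl
        exact ⟨M', a, b, H, c, fun _ => d⟩
      · exact ⟨M, hM, subset_rfl, g, hg, fun h => absurd h hl⟩) h0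
  refine ⟨K, M, c, hp, hM.1, hsub b, h1, fun x => ⟨_, h2 x⟩, fun g hg l hl => ?_,
    fun H hH hinf i hi => ?_⟩
  · obtain ⟨H, a, b⟩ := hS l g hg
    exact ⟨H, a, b hl⟩
  · have hA : ∀ x, H x = 1 → A x = i := by
      intro x hx
      obtain ⟨N, hN⟩ := eventually_atTop.1 (h2 x)
      obtain ⟨y, a, b⟩ := hinf (max N (x + 1))
      rw [← hN y ((le_max_left _ _).trans a)]
      exact hi x y (lt_of_lt_of_le (by omega) a) hx b
    have hi1 : col i = i := by
      obtain ⟨x, -, hx⟩ := hinf 0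
      obtain ⟨y, a, b⟩ := hinf (x + 1)
      have := hi x y a hx b
      have := h1 (Nat.pair x y)
      unfold col
      split_ifs <;> omega
    obtain ⟨h, hh, Hh⟩ := c1 M hM.1 () H hH H hH H hH H hH hinf
    obtain ⟨n, hn⟩ := hM.2 i h hh
    have : h n ∈ {x | n ≤ x ∧ A x = col i} := ⟨(Hh n).1, (hA _ (Hh n).2).trans hi1.symm⟩
    exact absurd (Nat.sInf_le this) (not_le.2 hn)

end Pool.Agent.H132Z.HT
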